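import Mathlib
import Pool.Agent.Lib.MP_099f24_an.Defs

/-!
# Global assembly: definitions

The local structure of a relatively closed set `K ⊆ Ω` (interface between the local regularity
theory and the construction of an admissible family of arcs).
-/

namespace Pool.Agent.MP099f24

open MeasureTheory Filter Topology Set Metric
open scoped ENNReal ContDiff

/-- Near `p` the set `K` is the graph of a `C¹` function over a line through `p` with direction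
`e`. -/
def IsRegPt (K : Set ℂ) (p : ℂ) : Prop :=
  ∃ (e : ℂ) (r : ℝ) (f : ℝ → ℝ), ‖e‖ = 1 ∧ 0 < r ∧ ContDiffOn ℝ 1 f (Ioo (-r) r) ∧ f 0 = 0 ∧
    ∀ s t : ℝ, |s| < r → |t| < r → (p + e * (s + t * Complex.I) ∈ K ↔ t = f s)

/-- In the punctured disc `0 < |z - q| < δ` the set `K` consists of the `n` disjoint arcs
`s ↦ σ k s`, `|σ k s - q| = s`, each of which meets every circle around `q` exactly once, and all
points of `K` there are regular. -/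
structure IsStar (K : Set ℂ) (q : ℂ) (n : ℕ) (δ : ℝ) (σ : Fin n → ℝ → ℂ) : Prop where
  pos : 0 < δ
  cont : ∀ k, ContinuousOn (σ k) (Ioo 0 δ)
  norm_sub : ∀ k, ∀ s ∈ Ioo 0 δ, ‖σ k s - q‖ = s
  inj : ∀ k l, ∀ s ∈ Ioo 0 δ, σ k s = σ l s → k = l
  mem_iff : ∀ z : ℂ, 0 < ‖z - q‖ → ‖z - q‖ < δ → (z ∈ K ↔ ∃ k, z = σ k ‖z - q‖)
  reg : ∀ z ∈ K, 0 < ‖z - q‖ → ‖z - q‖ < δ → IsRegPt K z

/-- `q` is a tip of `K`: near `q`, `K` is one arc ending at `q`. -/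
def IsTip (K : Set ℂ) (q : ℂ) : Prop :=
  ∃ (δ : ℝ) (σ : Fin 1 → ℝ → ℂ), IsStar K q 1 δ σ

/-- `q` is a triple point of `K`: near `q`, `K` consists of three arcs ending at `q` and forming
equal angles `2π/3` at `q`. -/
def IsTriple (K : Set ℂ) (q : ℂ) : Prop :=
  ∃ (δ : ℝ) (σ : Fin 3 → ℝ → ℂ) (τ : Fin 3 → ℂ), IsStar K q 3 δ σ ∧
    (∀ k, Tendsto (fun s : ℝ => (s⁻¹ : ℝ) • (σ k s - q)) (𝓝[>] 0) (𝓝 (τ k))) ∧
    ∀ k l, k ≠ l → InnerProductGeometry.angle (τ k) (τ l) = 2 * Real.pi / 3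

/-- No bounded nonempty region whose closure is contained in `Ω` has its boundary in `K`. -/
def NoRegion (Ω K : Set ℂ) : Prop :=
  ∀ W : Set ℂ, IsOpen W → W.Nonempty → Bornology.IsBounded W → closure W ⊆ Ω → ¬ frontier W ⊆ K

/-- The complement of `Ω` has no bounded connected component (that is, all components of the open
set `Ω` are simply connected). -/
def NoHoles (Ω : Set ℂ) : Prop :=
  ∀ x ∈ Ωᶜ, ¬ Bornology.IsBounded (connectedComponentIn Ωᶜ x)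

/-- `γ` is a `C¹` curve of unit speed in the set of regular points of `K`, defined on the open
interval `I`. -/
structure IsUC (K : Set ℂ) (I : Set ℝ) (γ : ℝ → ℂ) : Prop where
  isOpen : IsOpen I
  ord : I.OrdConnected
  diff : ContDiffOn ℝ 1 γ I
  speed : ∀ t ∈ I, ‖deriv γ t‖ = 1
  reg : ∀ t ∈ I, IsRegPt K (γ t)

/-- A chart of `K` at the regular point `p`: an arc length parametrization `σ` of `K ∩ D`, `D` an
open neighbourhood of `p`; every curve of unit speed in `K ∩ D` is a piece of `σ`. -/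
structure IsChart (K : Set ℂ) (p : ℂ) (δ : ℝ) (σ : ℝ → ℂ) (D : Set ℂ) : Prop where
  pos : 0 < δ
  isOpen : IsOpen D
  mem : p ∈ D
  zero : σ 0 = p
  diff : ContDiffOn ℝ 1 σ (Ioo (-δ) δ)
  speed : ∀ t ∈ Ioo (-δ) δ, ‖deriv σ t‖ = 1
  inj : InjOn σ (Ioo (-δ) δ)
  image : σ '' Ioo (-δ) δ = K ∩ D
  reg : ∀ z ∈ K ∩ D, IsRegPt K z
  small : ∀ ε > 0, ∃ U ∈ 𝓝 p, ∀ t ∈ Ioo (-δ) δ, σ t ∈ U → |t| < ε
  uniq : ∀ (γ : ℝ → ℂ) (a b : ℝ), a < b → ContDiffOn ℝ 1 γ (Ioo a b) →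
    (∀ t ∈ Ioo a b, ‖deriv γ t‖ = 1) → (∀ t ∈ Ioo a b, γ t ∈ K ∩ D) →
    ∃ s c : ℝ, (s = 1 ∨ s = -1) ∧ ∀ t ∈ Ioo a b, s * t + c ∈ Ioo (-δ) δ ∧ γ t = σ (s * t + c)

/-- A maximal curve of unit speed in the set of regular points of `K`. -/
structure IsMaxUC (K : Set ℂ) (I : Set ℝ) (γ : ℝ → ℂ) : Prop extends IsUC K I γ where
  nonempty : I.Nonempty
  ext : ∀ q, IsRegPt K q → ∃ δ > 0, ∀ ε > 0, ∃ U ∈ 𝓝 q, ∀ t ∈ I, γ t ∈ U →
    Ioo (t - δ) (t + δ) ⊆ I ∧ ∃ t' ∈ I, |t' - t| < ε ∧ γ t' = q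
  opn : ∀ t ∈ I, ∀ ε > 0, ∃ U ∈ 𝓝 (γ t), K ∩ U ⊆ γ '' (I ∩ Ioo (t - ε) (t + ε))
  dich : InjOn γ I ∨ (I = univ ∧ ∃ T > 0, (∀ t, γ (t + T) = γ t) ∧ InjOn γ (Ico 0 T))

/-- A (regular, injective) `C¹` parametrization over the bounded interval `(a, b)` of a component
of the set of regular points of `K`, with no limit point among the regular points at the ends. -/
structure IsPar (K : Set ℂ) (a b : ℝ) (c : ℝ → ℂ) : Prop where
  lt : a < b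
  diff : ContDiffOn ℝ 1 c (Ioo a b)
  deriv_ne : ∀ t ∈ Ioo a b, deriv c t ≠ 0
  inj : InjOn c (Ioo a b)
  reg : ∀ t ∈ Ioo a b, IsRegPt K (c t)
  opn : ∀ t ∈ Ioo a b, ∀ ε > 0, ∃ U ∈ 𝓝 (c t), K ∩ U ⊆ c '' (Ioo a b ∩ Ioo (t - ε) (t + ε))
  right : ∀ q, IsRegPt K q → ∃ U ∈ 𝓝 q, ∃ t₀ < b, ∀ t ∈ Ioo t₀ b, c t ∉ U
  left : ∀ q, IsRegPt K q → ∃ U ∈ 𝓝 q, ∃ t₀ > a, ∀ t ∈ Ioo a t₀, c t ∉ U

end Pool.Agent.MP099f24
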