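import Mathlib
import Pool.Agent.Lib.MP_099f24_an.GA.Defs

/-!
# Global assembly: the ends of the components of the set of regular points
-/

namespace Pool.Agent.MP099f24

open MeasureTheory Filter Topology Set Metric
open scoped ENNReal ContDiff

theorem IsRegPt.mem {K : Set ℂ} {p : ℂ} (h : IsRegPt K p) : p ∈ K := by
  obtain ⟨e, r, f, _, hr, _, hf0, hK⟩ := h
  have := (hK 0 0 (by simpa using hr) (by simpa using hr)).2 hf0.symm
  simpa using this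

theorem IsPar.mem {K : Set ℂ} {a b : ℝ} {c : ℝ → ℂ} (h : IsPar K a b c) {t : ℝ}
    (ht : t ∈ Ioo a b) : c t ∈ K := (h.reg t ht).mem

theorem IsPar.rev {K : Set ℂ} {a b : ℝ} {c : ℝ → ℂ} (h : IsPar K a b c) :
    IsPar K (-b) (-a) (fun t => c (-t)) := by
  have hm : ∀ t ∈ Ioo (-b) (-a), -t ∈ Ioo a b := fun t ht => ⟨by linarith [ht.2], by linarith [ht.1]⟩
  refine ⟨by linarith [h.lt], ?_, ?_, ?_, ?_, ?_, ?_, ?_⟩
  · exact h.diff.comp contDiff_neg.contDiffOn hm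
  · intro t ht
    rw [deriv_comp_neg]
    exact neg_ne_zero.2 (h.deriv_ne _ (hm t ht))
  · intro x hx y hy hxy
    have := h.inj (hm x hx) (hm y hy) hxy
    linarith
  · exact fun t ht => h.reg _ (hm t ht)
  · intro t ht ε hε
    obtain ⟨U, hU, hsub⟩ := h.opn (-t) (hm t ht) ε hε
    refine ⟨U, hU, fun z hz => ?_⟩
    obtain ⟨x, hx, rfl⟩ := hsub hz
    refine ⟨-x, ⟨⟨by linarith [hx.1.2], by linarith [hx.1.1]⟩,
      ⟨by linarith [hx.2.2], by linarith [hx.2.1]⟩⟩, by simp⟩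
  · intro q hq
    obtain ⟨U, hU, t₀, ht₀, hn⟩ := h.left q hq
    exact ⟨U, hU, -t₀, by linarith, fun t ht => hn _ ⟨by linarith [ht.2], by linarith [ht.1]⟩⟩
  · intro q hq
    obtain ⟨U, hU, t₀, ht₀, hn⟩ := h.right q hq
    exact ⟨U, hU, -t₀, by linarith, fun t ht => hn _ ⟨by linarith [ht.2], by linarith [ht.1]⟩⟩

/-- points of `K` on a small circle around a star point are finite in number -/
theorem IsStar.finite_circle {K : Set ℂ} {q : ℂ} {n : ℕ} {δ : ℝ} {σ : Fin n → ℝ → ℂ}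
    (hs : IsStar K q n δ σ) {s : ℝ} (h : s ∈ Ioo 0 δ) : {z ∈ K | ‖z - q‖ = s}.Finite := by
  refine (Set.finite_range (fun k => σ k s)).subset ?_
  rintro z ⟨hz, hzs⟩
  obtain ⟨k, hk⟩ := (hs.mem_iff z (by rw [hzs]; exact h.1) (by rw [hzs]; exact h.2)).1 hz
  refine ⟨k, ?_⟩
  change σ k s = z
  rw [← hzs]
  exact hk.symm

theorem ga_end {Ω K : Set ℂ} (hc : IsClosed (K ∪ Ωᶜ)) (hKΩ : K ⊆ Ω)
    (hloc : ∀ p ∈ K, IsRegPt K p ∨ ∃ (n : ℕ) (δ : ℝ) (σ : Fin n → ℝ → ℂ), IsStar K p n δ σ)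
    {a b : ℝ} {c : ℝ → ℂ} (h : IsPar K a b c) :
    (∀ M : Set ℂ, IsCompact M → M ⊆ Ω → ∃ t₀ ∈ Ioo a b, ∀ t ∈ Ioo t₀ b, c t ∉ M) ∨
      ∃ q ∈ K, ¬ IsRegPt K q ∧ Tendsto c (𝓝[<] b) (𝓝 q) := by
  by_cases hM : ∀ M : Set ℂ, IsCompact M → M ⊆ Ω → ∃ t₀ ∈ Ioo a b, ∀ t ∈ Ioo t₀ b, c t ∉ M
  · exact Or.inl hM
  right
  push Not at hM
  obtain ⟨M, hMc, hMΩ, hMf⟩ := hM
  have hMK : IsCompact (M ∩ K) := by
    have : M ∩ K = M ∩ (K ∪ Ωᶜ) := by
      ext z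
      simp only [mem_inter_iff, mem_union, mem_compl_iff]
      constructor
      · rintro ⟨h1, h2⟩
        exact ⟨h1, Or.inl h2⟩
      · rintro ⟨h1, h2 | h2⟩
        · exact ⟨h1, h2⟩
        · exact absurd (hMΩ h1) h2
    rw [this]
    exact hMc.inter_right hc
  have hfr : ∃ᶠ t in 𝓝[<] b, c t ∈ M ∩ K := by
    intro hev
    obtain ⟨t₁, ht₁, hsub⟩ := (mem_nhdsLT_iff_exists_Ioo_subset).1 hev
    have hlt : max t₁ ((a + b) / 2) < b := max_lt ht₁ (by linarith [h.lt])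
    obtain ⟨t, ht, htM⟩ := hMf (max t₁ ((a + b) / 2))
      ⟨lt_of_lt_of_le (by linarith [h.lt]) (le_max_right _ _), hlt⟩
    have h1 : t₁ < t := lt_of_le_of_lt (le_max_left _ _) ht.1
    have h2 : a < t := lt_trans (lt_of_lt_of_le (by linarith [h.lt]) (le_max_right _ _)) ht.1
    exact (hsub ⟨h1, ht.2⟩ : ¬ (c t ∈ M ∩ K)) ⟨htM, h.mem ⟨h2, ht.2⟩⟩
  obtain ⟨q, hq, hcl⟩ := hMK.exists_mapClusterPt_of_frequently hfr
  refine ⟨q, hq.2, ?_, ?_⟩
  · intro hreg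
    obtain ⟨U, hU, t₀, ht₀, hn⟩ := h.right q hreg
    have h1 : ∃ᶠ t in 𝓝[<] b, c t ∈ U := hcl.frequently hU
    exact h1 (by filter_upwards [Ioo_mem_nhdsLT ht₀] with t ht using hn t ht)
  · by_contra hnot
    have hreg : ¬ IsRegPt K q := by
      intro hreg
      obtain ⟨U, hU, t₀, ht₀, hn⟩ := h.right q hreg
      have h1 : ∃ᶠ t in 𝓝[<] b, c t ∈ U := hcl.frequently hU
      exact h1 (by filter_upwards [Ioo_mem_nhdsLT ht₀] with t ht using hn t ht)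
    obtain ⟨n, δ, σ, hs⟩ := (hloc q hq.2).resolve_left hreg
    rw [Metric.tendsto_nhds] at hnot
    push Not at hnot
    obtain ⟨ε, hε, hfr2⟩ := hnot
    obtain ⟨s, hs0, hs1⟩ := exists_between (lt_min hε hs.pos)
    have hsε : s < ε := lt_of_lt_of_le hs1 (min_le_left _ _)
    have hsδ : s < δ := lt_of_lt_of_le hs1 (min_le_right _ _)
    have hcont : ContinuousOn (fun t => ‖c t - q‖) (Ioo a b) :=
      (h.diff.continuousOn.sub continuousOn_const).norm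
    -- the level set accumulates at `b`
    have key : ∀ t₀ ∈ Ioo a b, ∃ t ∈ Ioo t₀ b, ‖c t - q‖ = s := by
      intro t₀ ht₀
      have hev : ∀ᶠ t in 𝓝[<] b, t ∈ Ioo t₀ b := Ioo_mem_nhdsLT ht₀.2
      have hball : ∃ᶠ t in 𝓝[<] b, c t ∈ ball q s := hcl.frequently (ball_mem_nhds q hs0)
      obtain ⟨x, hx1, hx2⟩ := (hball.and_eventually hev).exists
      obtain ⟨y, hy1, hy2⟩ := (hfr2.and_eventually hev).exists
      have hx3 : ‖c x - q‖ < s := by simpa [dist_eq_norm] using hx1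
      have hy3 : s < ‖c y - q‖ := by
        have : ε ≤ dist (c y) q := by simpa using hy1
        rw [dist_eq_norm] at this
        linarith
      have hpre : IsPreconnected ((fun t => ‖c t - q‖) '' Ioo t₀ b) :=
        isPreconnected_Ioo.image _ (hcont.mono (Ioo_subset_Ioo_left ht₀.1.le))
      have := hpre.Icc_subset (mem_image_of_mem _ hx2) (mem_image_of_mem _ hy2)
        (⟨hx3.le, hy3.le⟩ : s ∈ Icc _ _)
      obtain ⟨t, ht, hts⟩ := this
      exact ⟨t, ht, hts⟩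
    have hfin : {t ∈ Ioo a b | ‖c t - q‖ = s}.Finite := by
      refine Set.Finite.of_finite_image ((hs.finite_circle ⟨hs0, hsδ⟩).subset ?_)
        (h.inj.mono (fun t ht => ht.1))
      rintro _ ⟨t, ⟨ht, hts⟩, rfl⟩
      exact ⟨h.mem ht, hts⟩
    have hne : {t ∈ Ioo a b | ‖c t - q‖ = s}.Nonempty := by
      obtain ⟨t, ht, hts⟩ := key ((a + b) / 2) ⟨by linarith [h.lt], by linarith [h.lt]⟩
      exact ⟨t, ⟨by linarith [ht.1, h.lt], ht.2⟩, hts⟩
    obtain ⟨m, hm, hmax⟩ := hfin.exists_maximalFor id _ hne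
    obtain ⟨t, ht, hts⟩ := key m hm.1
    have := hmax ⟨⟨hm.1.1.trans ht.1, ht.2⟩, hts⟩ ht.1.le
    exact absurd this (not_le.2 ht.1)

end Pool.Agent.MP099f24
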