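import Mathlib
import Pool.Agent.Lib.MP_099f24_an.GA.End

/-!
# Global assembly: ends of components and branches at the vertices
-/

namespace Pool.Agent.MP099f24

open MeasureTheory Filter Topology Set Metric
open scoped ENNReal ContDiff

theorem ga_attach {K : Set ℂ} {a b : ℝ} {c : ℝ → ℂ} (h : IsPar K a b c) {q : ℂ} {n : ℕ} {δ : ℝ}
    {σ : Fin n → ℝ → ℂ} (hs : IsStar K q n δ σ) (hq : ¬ IsRegPt K q)
    (ht : Tendsto c (𝓝[<] b) (𝓝 q)) :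
    ∃ k, ∃ t₀ ∈ Ioo a b, ∀ t ∈ Ioo t₀ b, 0 < ‖c t - q‖ ∧ ‖c t - q‖ < δ ∧
      c t = σ k ‖c t - q‖ := by
  have hev : ∀ᶠ t in 𝓝[<] b, dist (c t) q < δ := (Metric.tendsto_nhds.1 ht) δ hs.pos
  obtain ⟨t₁, ht₁, hsub⟩ := (mem_nhdsLT_iff_exists_Ioo_subset).1 hev
  set t₀ := max t₁ ((a + b) / 2) with ht₀def
  have hlt : t₀ < b := max_lt ht₁ (by linarith [h.lt])
  have hat : a < t₀ := lt_of_lt_of_le (by linarith [h.lt]) (le_max_right _ _)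
  have hmem : ∀ t ∈ Ioo t₀ b, t ∈ Ioo a b := fun t ht => ⟨hat.trans ht.1, ht.2⟩
  have hpos : ∀ t ∈ Ioo t₀ b, 0 < ‖c t - q‖ := by
    intro t ht
    rw [norm_pos_iff, sub_ne_zero]
    intro he
    exact hq (he ▸ h.reg t (hmem t ht))
  have hlt' : ∀ t ∈ Ioo t₀ b, ‖c t - q‖ < δ := by
    intro t ht
    have : dist (c t) q < δ := hsub ⟨lt_of_le_of_lt (le_max_left _ _) ht.1, ht.2⟩
    rwa [dist_eq_norm] at this
  have hex : ∀ t ∈ Ioo t₀ b, ∃ k, c t = σ k ‖c t - q‖ := fun t ht =>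
    (hs.mem_iff (c t) (hpos t ht) (hlt' t ht)).1 (h.mem (hmem t ht))
  classical
  set S := Ioo t₀ b with hS
  have hcont : ContinuousOn c S := h.diff.continuousOn.mono hmem
  have hcont' : ContinuousOn (fun t => ‖c t - q‖) S := (hcont.sub continuousOn_const).norm
  have hx₀ : (t₀ + b) / 2 ∈ S := ⟨by linarith, by linarith⟩
  have hn : Nonempty (Fin n) := ⟨(hex _ hx₀).choose⟩
  set κ : ℝ → Fin n := fun t => if ht : t ∈ S then (hex t ht).choose else Classical.choice hn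
    with hκ
  have hκs : ∀ t ∈ S, c t = σ (κ t) ‖c t - q‖ := by
    intro t ht
    have : κ t = (hex t ht).choose := by rw [hκ]; simp only [dif_pos ht]
    rw [this]
    exact (hex t ht).choose_spec
  have hκu : ∀ t ∈ S, ∀ k, c t = σ k ‖c t - q‖ → κ t = k := by
    intro t ht k hk
    refine hs.inj _ _ ‖c t - q‖ ⟨hpos t ht, hlt' t ht⟩ ?_
    rw [← hκs t ht, ← hk]
  have hu : ∀ k : Fin n, ∃ u : Set ℝ, IsClosed u ∧
      (fun t => c t - σ k ‖c t - q‖) ⁻¹' {0} ∩ S = u ∩ S := by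
    intro k
    have h1 : ContinuousOn (fun t => c t - σ k ‖c t - q‖) S :=
      hcont.sub ((hs.cont k).comp hcont' (fun t ht => ⟨hpos t ht, hlt' t ht⟩))
    exact continuousOn_iff_isClosed.1 h1 {0} isClosed_singleton
  choose u hu1 hu2 using hu
  have hκc : ContinuousOn κ S := by
    rw [continuousOn_iff_isClosed]
    intro T _
    refine ⟨⋃ k ∈ T, u k, (Set.toFinite T).isClosed_biUnion (fun k _ => hu1 k), ?_⟩
    ext t
    simp only [mem_inter_iff, mem_preimage, mem_iUnion, exists_prop]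
    constructor
    · rintro ⟨h1, h2⟩
      refine ⟨⟨κ t, h1, ?_⟩, h2⟩
      have : t ∈ (fun t => c t - σ (κ t) ‖c t - q‖) ⁻¹' {0} ∩ S := by
        refine ⟨?_, h2⟩
        change c t - σ (κ t) ‖c t - q‖ = 0
        rw [sub_eq_zero]
        exact hκs t h2
      have h3 : t ∈ (fun t' => c t' - σ (κ t) ‖c t' - q‖) ⁻¹' {0} ∩ S := this
      rw [hu2 (κ t)] at h3
      exact h3.1
    · rintro ⟨⟨k, hk, htk⟩, h2⟩
      have h3 : t ∈ u k ∩ S := ⟨htk, h2⟩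
      rw [← hu2 k] at h3
      have h4 : c t - σ k ‖c t - q‖ = 0 := h3.1
      rw [hκu t h2 k (sub_eq_zero.1 h4)]
      exact ⟨hk, h2⟩
  refine ⟨κ ((t₀ + b) / 2), t₀, ⟨hat, hlt⟩, fun t ht => ⟨hpos t ht, hlt' t ht, ?_⟩⟩
  have := isPreconnected_Ioo.constant hκc hx₀ ht
  rw [this]
  exact hκs t ht

theorem ga_attach_unique {K : Set ℂ} {a b : ℝ} {c : ℝ → ℂ} (h : IsPar K a b c) {q : ℂ}
    {δ : ℝ} {σ : ℝ → ℂ} {t₀ t₁ : ℝ}
    (ht₀ : t₀ ∈ Ioo a b) (ht₁ : t₁ ∈ Ioo a b) (hr : Tendsto c (𝓝[<] b) (𝓝 q))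
    (hl : Tendsto c (𝓝[>] a) (𝓝 q))
    (h0 : ∀ t ∈ Ioo t₀ b, 0 < ‖c t - q‖ ∧ ‖c t - q‖ < δ ∧ c t = σ ‖c t - q‖)
    (h1 : ∀ t ∈ Ioo a t₁, 0 < ‖c t - q‖ ∧ ‖c t - q‖ < δ ∧ c t = σ ‖c t - q‖) : False := by
  have hcont : ContinuousOn (fun t => ‖c t - q‖) (Ioo a b) :=
    (h.diff.continuousOn.sub continuousOn_const).norm
  set x := (t₀ + b) / 2 with hx
  have hxb : x ∈ Ioo t₀ b := ⟨by rw [hx]; linarith [ht₀.2], by rw [hx]; linarith [ht₀.2]⟩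
  set y := (a + min t₁ x) / 2 with hy
  have hmin : a < min t₁ x := lt_min ht₁.1 (ht₀.1.trans hxb.1)
  have hya : y ∈ Ioo a t₁ := ⟨by rw [hy]; linarith, by
    have := min_le_left t₁ x
    rw [hy]; linarith⟩
  have hyx : y < x := by
    have := min_le_right t₁ x
    rw [hy]; linarith
  obtain ⟨s, hs0, hs1⟩ := exists_between (lt_min (h0 x hxb).1 (h1 y hya).1)
  have hsx : s < ‖c x - q‖ := lt_of_lt_of_le hs1 (min_le_left _ _)
  have hsy : s < ‖c y - q‖ := lt_of_lt_of_le hs1 (min_le_right _ _)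
  have hevr : ∀ᶠ t in 𝓝[<] b, dist (c t) q < s ∧ t ∈ Ioo x b :=
    ((Metric.tendsto_nhds.1 hr) s hs0).and (Ioo_mem_nhdsLT hxb.2)
  obtain ⟨x', hx'1, hx'2⟩ := hevr.exists
  have hevl : ∀ᶠ t in 𝓝[>] a, dist (c t) q < s ∧ t ∈ Ioo a y :=
    ((Metric.tendsto_nhds.1 hl) s hs0).and (Ioo_mem_nhdsGT hya.1)
  obtain ⟨y', hy'1, hy'2⟩ := hevl.exists
  rw [dist_eq_norm] at hx'1 hy'1
  have hcr : ContinuousOn (fun t => ‖c t - q‖) (Icc x x') :=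
    hcont.mono (fun t ht => ⟨(ht₀.1.trans hxb.1).trans_le ht.1, ht.2.trans_lt hx'2.2⟩)
  have hcl : ContinuousOn (fun t => ‖c t - q‖) (Icc y' y) :=
    hcont.mono (fun t ht => ⟨hy'2.1.trans_le ht.1, ht.2.trans_lt (hya.2.trans ht₁.2)⟩)
  obtain ⟨X, hX, hXs⟩ := intermediate_value_Icc' hx'2.1.le hcr
    (⟨hx'1.le, hsx.le⟩ : s ∈ Icc _ _)
  obtain ⟨Y, hY, hYs⟩ := intermediate_value_Icc hy'2.2.le hcl (⟨hy'1.le, hsy.le⟩ : s ∈ Icc _ _)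
  have hX' : X ∈ Ioo t₀ b := ⟨hxb.1.trans_le hX.1, hX.2.trans_lt hx'2.2⟩
  have hY' : Y ∈ Ioo a t₁ := ⟨hy'2.1.trans_le hY.1, hY.2.trans_lt hya.2⟩
  have e1 := (h0 X hX').2.2
  have e2 := (h1 Y hY').2.2
  have hXs' : ‖c X - q‖ = s := hXs
  have hYs' : ‖c Y - q‖ = s := hYs
  rw [hXs'] at e1
  rw [hYs'] at e2
  have := h.inj ⟨ht₀.1.trans hX'.1, hX'.2⟩ ⟨hY'.1, hY'.2.trans ht₁.2⟩ (e1.trans e2.symm)
  have h3 : Y ≤ y := hY.2
  have h4 : x ≤ X := hX.1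
  linarith

/-- a branch is connected and consists of regular points -/
theorem IsStar.branch {K : Set ℂ} {q : ℂ} {n : ℕ} {δ : ℝ} {σ : Fin n → ℝ → ℂ}
    (hs : IsStar K q n δ σ) (k : Fin n) :
    IsPreconnected (σ k '' Ioo 0 δ) ∧ σ k '' Ioo 0 δ ⊆ {z | IsRegPt K z} := by
  refine ⟨isPreconnected_Ioo.image _ (hs.cont k), ?_⟩
  rintro _ ⟨s, hs', rfl⟩
  have hn := hs.norm_sub k s hs'
  have h1 : 0 < ‖σ k s - q‖ := by rw [hn]; exact hs'.1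
  have h2 : ‖σ k s - q‖ < δ := by rw [hn]; exact hs'.2
  exact hs.reg _ ((hs.mem_iff _ h1 h2).2 ⟨k, by rw [hn]⟩) h1 h2

/-- If the branch `k` accumulates at the right end, then the right end is at `q` along this
branch. -/
theorem ga_branch_right {Ω K : Set ℂ} (hΩ : IsOpen Ω) (hc : IsClosed (K ∪ Ωᶜ)) (hKΩ : K ⊆ Ω)
    (hloc : ∀ p ∈ K, IsRegPt K p ∨ ∃ (n : ℕ) (δ : ℝ) (σ : Fin n → ℝ → ℂ), IsStar K p n δ σ)
    {a b : ℝ} {c : ℝ → ℂ} (h : IsPar K a b c) {q : ℂ} {n : ℕ} {δ : ℝ}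
    {σ : Fin n → ℝ → ℂ} (hqK : q ∈ K) (hs : IsStar K q n δ σ) (hq : ¬ IsRegPt K q) {k : Fin n}
    (hf : ∀ ε > 0, ∀ t₀ ∈ Ioo a b, ∃ t ∈ Ioo t₀ b, ∃ s ∈ Ioo 0 (min ε δ), c t = σ k s) :
    Tendsto c (𝓝[<] b) (𝓝 q) ∧ ∃ t₀ ∈ Ioo a b, ∀ t ∈ Ioo t₀ b, 0 < ‖c t - q‖ ∧ ‖c t - q‖ < δ ∧
      c t = σ k ‖c t - q‖ := by
  have hten : Tendsto c (𝓝[<] b) (𝓝 q) := by
    rcases ga_end hc hKΩ hloc h with hM | ⟨q', hq'K, hq'r, hq't⟩
    · obtain ⟨r, hr, hrΩ⟩ := Metric.isOpen_iff.1 hΩ q (hKΩ hqK)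
      obtain ⟨t₀, ht₀, hn⟩ := hM (closedBall q (r / 2)) (isCompact_closedBall _ _)
        ((closedBall_subset_ball (by linarith)).trans hrΩ)
      obtain ⟨t, ht, s, hs', hts⟩ := hf (r / 2) (by positivity) t₀ ht₀
      refine absurd ?_ (hn t ht)
      have h1 : s < r / 2 := lt_of_lt_of_le hs'.2 (min_le_left _ _)
      have h2 : s < δ := lt_of_lt_of_le hs'.2 (min_le_right _ _)
      rw [mem_closedBall, dist_eq_norm, hts, hs.norm_sub k s ⟨hs'.1, h2⟩]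
      exact h1.le
    · have : q' = q := by
        by_contra hne
        have hd : 0 < dist q' q / 2 := by
          have := dist_pos.2 hne
          linarith
        have hev : ∀ᶠ t in 𝓝[<] b, dist (c t) q' < dist q' q / 2 :=
          (Metric.tendsto_nhds.1 hq't) _ hd
        obtain ⟨t₁, ht₁, hsub⟩ := (mem_nhdsLT_iff_exists_Ioo_subset).1 hev
        have hlt : max t₁ ((a + b) / 2) < b := max_lt ht₁ (by linarith [h.lt])
        obtain ⟨t, ht, s, hs', hts⟩ := hf (dist q' q / 2) hd (max t₁ ((a + b) / 2))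
          ⟨lt_of_lt_of_le (by linarith [h.lt]) (le_max_right _ _), hlt⟩
        have h0 : dist (c t) q' < dist q' q / 2 :=
          hsub ⟨lt_of_le_of_lt (le_max_left _ _) ht.1, ht.2⟩
        have h1 : s < dist q' q / 2 := lt_of_lt_of_le hs'.2 (min_le_left _ _)
        have h2 : s < δ := lt_of_lt_of_le hs'.2 (min_le_right _ _)
        have h3 : dist (c t) q = s := by
          rw [dist_eq_norm, hts, hs.norm_sub k s ⟨hs'.1, h2⟩]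
        have h4 := dist_triangle_left q' q (c t)
        linarith
      exact this ▸ hq't
  obtain ⟨k', t₀, ht₀, hatt⟩ := ga_attach h hs hq hten
  refine ⟨hten, t₀, ht₀, ?_⟩
  obtain ⟨t, ht, s, hs', hts⟩ := hf δ hs.pos t₀ ht₀
  have h2 : s < δ := lt_of_lt_of_le hs'.2 (min_le_right _ _)
  have h3 : ‖c t - q‖ = s := by rw [hts, hs.norm_sub k s ⟨hs'.1, h2⟩]
  have h4 := (hatt t ht).2.2
  rw [h3, hts] at h4
  have hk := hs.inj _ _ s ⟨hs'.1, h2⟩ h4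
  rw [hk]
  exact hatt

/-- a branch in the component parametrized by `c` gives an end at `q` -/
theorem ga_branch {Ω K : Set ℂ} (hΩ : IsOpen Ω) (hc : IsClosed (K ∪ Ωᶜ)) (hKΩ : K ⊆ Ω)
    (hloc : ∀ p ∈ K, IsRegPt K p ∨ ∃ (n : ℕ) (δ : ℝ) (σ : Fin n → ℝ → ℂ), IsStar K p n δ σ)
    {a b : ℝ} {c : ℝ → ℂ} (h : IsPar K a b c) {q : ℂ} {n : ℕ} {δ : ℝ}
    {σ : Fin n → ℝ → ℂ} (hqK : q ∈ K) (hs : IsStar K q n δ σ) (hq : ¬ IsRegPt K q) {k : Fin n}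
    (hk : σ k '' Ioo 0 δ ⊆ c '' Ioo a b) :
    (Tendsto c (𝓝[<] b) (𝓝 q) ∧ ∃ t₀ ∈ Ioo a b, ∀ t ∈ Ioo t₀ b, 0 < ‖c t - q‖ ∧ ‖c t - q‖ < δ ∧
      c t = σ k ‖c t - q‖) ∨
    (Tendsto c (𝓝[>] a) (𝓝 q) ∧ ∃ t₀ ∈ Ioo a b, ∀ t ∈ Ioo a t₀, 0 < ‖c t - q‖ ∧ ‖c t - q‖ < δ ∧
      c t = σ k ‖c t - q‖) := by
  by_cases hR : ∀ ε > 0, ∀ t₀ ∈ Ioo a b, ∃ t ∈ Ioo t₀ b, ∃ s ∈ Ioo 0 (min ε δ), c t = σ k s
  · exact Or.inl (ga_branch_right hΩ hc hKΩ hloc h hqK hs hq hR)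
  right
  push Not at hR
  obtain ⟨ε₁, hε₁, t₁, ht₁, hn₁⟩ := hR
  have hL : ∀ ε > 0, ∀ t₀ ∈ Ioo (-b) (-a), ∃ t ∈ Ioo t₀ (-a), ∃ s ∈ Ioo 0 (min ε δ),
      c (-t) = σ k s := by
    intro ε hε t₀ ht₀
    by_contra hcon
    push Not at hcon
    have hcomp : IsCompact (c '' Icc (-t₀) t₁) :=
      isCompact_Icc.image_of_continuousOn (h.diff.continuousOn.mono
        (fun t ht => ⟨by linarith [ht.1, ht₀.2], ht.2.trans_lt ht₁.2⟩))
    have hqn : q ∉ c '' Icc (-t₀) t₁ := by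
      rintro ⟨t, ht, rfl⟩
      exact hq (h.reg t ⟨by linarith [ht.1, ht₀.2], ht.2.trans_lt ht₁.2⟩)
    obtain ⟨d, hd, hdis⟩ := Metric.isOpen_iff.1 hcomp.isClosed.isOpen_compl q hqn
    obtain ⟨s, hs0, hs1⟩ := exists_between (lt_min (lt_min hε hε₁) (lt_min hd hs.pos))
    have hsε : s < ε := lt_of_lt_of_le hs1 ((min_le_left _ _).trans (min_le_left _ _))
    have hsε₁ : s < ε₁ := lt_of_lt_of_le hs1 ((min_le_left _ _).trans (min_le_right _ _))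
    have hsd : s < d := lt_of_lt_of_le hs1 ((min_le_right _ _).trans (min_le_left _ _))
    have hsδ : s < δ := lt_of_lt_of_le hs1 ((min_le_right _ _).trans (min_le_right _ _))
    obtain ⟨t, ht, hts⟩ := hk (mem_image_of_mem _ (⟨hs0, hsδ⟩ : s ∈ Ioo 0 δ))
    rcases lt_or_ge t₁ t with h1 | h1
    · exact hn₁ t ⟨h1, ht.2⟩ s ⟨hs0, lt_min hsε₁ hsδ⟩ hts
    · rcases lt_or_ge t (-t₀) with h2 | h2
      · exact hcon (-t) ⟨by linarith, by linarith [ht.1]⟩ s ⟨hs0, lt_min hsε hsδ⟩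
          (by rw [neg_neg]; exact hts)
      · have h3 : σ k s ∈ ball q d := by
          rw [mem_ball, dist_eq_norm, hs.norm_sub k s ⟨hs0, hsδ⟩]
          exact hsd
        exact hdis h3 (by rw [← hts]; exact mem_image_of_mem _ ⟨h2, h1⟩)
  obtain ⟨hten, t₀, ht₀, hatt⟩ := ga_branch_right hΩ hc hKΩ hloc h.rev hqK hs hq hL
  constructor
  · have h1 : Tendsto (fun t : ℝ => -t) (𝓝[>] a) (𝓝[<] (-a)) := by
      have := tendsto_neg_nhdsGT (a := a)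
      exact this
    have h2 := hten.comp h1
    refine h2.congr (fun t => ?_)
    simp
  · refine ⟨-t₀, ⟨by linarith [ht₀.2], by linarith [ht₀.1]⟩, fun t ht => ?_⟩
    have := hatt (-t) ⟨by linarith [ht.2], by linarith [ht.1]⟩
    simpa using this

end Pool.Agent.MP099f24
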