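import Mathlib
import Pool.Agent.Lib.MP_099f24_an.GA.Defs

/-!
# Arc length charts at regular points
-/

set_option autoImplicit false

namespace Pool.Agent.MP099f24

open MeasureTheory Filter Topology Set Metric
open scoped ENNReal ContDiff

theorem ga_chart_len {A : ℝ → ℝ} (hA : Continuous A) (h1 : ∀ x, 1 ≤ A x) :
    ∃ l m : ℝ → ℝ, (∀ x, HasDerivAt l (A x) x) ∧ l 0 = 0 ∧ StrictMono l ∧ (∀ y, l (m y) = y) ∧
      (∀ x, m (l x) = x) ∧ (∀ y, HasDerivAt m (A (m y))⁻¹ y) := by
  set l : ℝ → ℝ := fun x => ∫ t in (0 : ℝ)..x, A t with hl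
  have hd : ∀ x, HasDerivAt l (A x) x := fun x => (hA.integral_hasStrictDerivAt 0 x).hasDerivAt
  have hl0 : l 0 = 0 := by simp [hl]
  have hmono : Monotone (fun x => l x - x) := by
    refine monotone_of_deriv_nonneg (fun x => ((hd x).sub (hasDerivAt_id x)).differentiableAt) ?_
    intro x
    have : deriv (fun x => l x - x) x = A x - 1 := ((hd x).sub (hasDerivAt_id x)).deriv
    rw [this]
    linarith [h1 x]
  have hstep : ∀ x y, x ≤ y → y - x ≤ l y - l x := by
    intro x y hxy
    have := hmono hxy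
    simp only at this
    linarith
  have hstrict : StrictMono l := by
    intro x y hxy
    have := hstep x y hxy.le
    linarith
  have hc : Continuous l := continuous_iff_continuousAt.2 (fun x => (hd x).continuousAt)
  have hsurj : ∀ y, ∃ x, l x = y := by
    intro y
    refine mem_range_of_exists_le_of_exists_ge hc ⟨min y 0, ?_⟩ ⟨max y 0, ?_⟩
    · have := hstep (min y 0) 0 (min_le_right _ _)
      rw [hl0] at this
      have h2 := min_le_left y 0
      linarith
    · have := hstep 0 (max y 0) (le_max_right _ _)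
      rw [hl0] at this
      have h2 := le_max_left y 0
      linarith
  choose m hm using hsurj
  have hml : ∀ x, m (l x) = x := fun x => hstrict.injective (hm (l x))
  have hlip : ∀ y z, |m y - m z| ≤ |y - z| := by
    intro y z
    rcases le_total (m y) (m z) with h | h
    · have h2 := hstep _ _ h
      rw [hm, hm] at h2
      rw [abs_sub_comm, abs_of_nonneg (by linarith), abs_sub_comm]
      exact h2.trans (le_abs_self _)
    · have h2 := hstep _ _ h
      rw [hm, hm] at h2
      rw [abs_of_nonneg (by linarith)]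
      exact h2.trans (le_abs_self _)
  have hmc : Continuous m := by
    have : LipschitzWith 1 m := LipschitzWith.of_dist_le_mul (fun y z => by
      rw [Real.dist_eq, Real.dist_eq, NNReal.coe_one, one_mul]
      exact hlip y z)
    exact this.continuous
  refine ⟨l, m, hd, hl0, hstrict, hm, hml, fun y => ?_⟩
  exact HasDerivAt.of_local_left_inverse hmc.continuousAt (hd (m y))
    (by linarith [h1 (m y)]) (Eventually.of_forall hm)

theorem ga_chart_sign {a b : ℝ} {g : ℝ → ℝ} (hg : ContinuousOn g (Ioo a b))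
    (h : ∀ t ∈ Ioo a b, g t = 1 ∨ g t = -1) :
    ∃ s : ℝ, (s = 1 ∨ s = -1) ∧ ∀ t ∈ Ioo a b, g t = s := by
  by_cases h1 : ∀ t ∈ Ioo a b, g t = 1
  · exact ⟨1, Or.inl rfl, h1⟩
  push Not at h1
  obtain ⟨t₁, ht₁, hne⟩ := h1
  have e1 : g t₁ = -1 := (h t₁ ht₁).resolve_left hne
  refine ⟨-1, Or.inr rfl, fun t ht => ?_⟩
  rcases h t ht with h2 | h2
  · exfalso
    have hord : (g '' Ioo a b).OrdConnected := (isPreconnected_Ioo.image g hg).ordConnected
    have : (0 : ℝ) ∈ g '' Ioo a b :=
      hord.out ⟨t₁, ht₁, e1⟩ ⟨t, ht, h2⟩ ⟨by norm_num, by norm_num⟩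
    obtain ⟨u, hu, hu0⟩ := this
    rcases h u hu with h3 | h3 <;> rw [h3] at hu0 <;> norm_num at hu0
  · exact h2

theorem ga_chart {K : Set ℂ} {p : ℂ} (h : IsRegPt K p) :
    ∃ (δ : ℝ) (σ : ℝ → ℂ) (D : Set ℂ), IsChart K p δ σ D := by
  obtain ⟨e, r, f, he, hr, hf, hf0, hK⟩ := h
  have hee : e * (starRingEnd ℂ) e = 1 := by
    rw [Complex.mul_conj, Complex.normSq_eq_norm_sq, he]
    norm_num
  have he0 : e ≠ 0 := by
    intro h0
    rw [h0, norm_zero] at he
    exact zero_ne_one he
  -- coordinates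
  set S : ℂ → ℝ := fun z => ((z - p) * (starRingEnd ℂ) e).re with hS
  set T : ℂ → ℝ := fun z => ((z - p) * (starRingEnd ℂ) e).im with hT
  have hSc : Continuous S := by
    rw [hS]
    exact Complex.continuous_re.comp ((continuous_id.sub continuous_const).mul continuous_const)
  have hTc : Continuous T := by
    rw [hT]
    exact Complex.continuous_im.comp ((continuous_id.sub continuous_const).mul continuous_const)
  have hST : ∀ z, z = p + e * (S z + T z * Complex.I) := by
    intro z
    have h1 : ((S z : ℂ) + T z * Complex.I) = (z - p) * (starRingEnd ℂ) e := by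
      rw [hS, hT]
      exact Complex.re_add_im _
    rw [h1]
    linear_combination (-(z - p)) * hee
  have hconj : ∀ s t : ℝ, (p + e * (s + t * Complex.I) - p) * (starRingEnd ℂ) e =
      s + t * Complex.I := by
    intro s t
    linear_combination ((s : ℂ) + t * Complex.I) * hee
  have hS1 : ∀ s t : ℝ, S (p + e * (s + t * Complex.I)) = s := by
    intro s t
    rw [hS]
    simp only
    rw [hconj]
    simp
  have hT1 : ∀ s t : ℝ, T (p + e * (s + t * Complex.I)) = t := by
    intro s t
    rw [hT]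
    simp only
    rw [hconj]
    simp
  -- arc length
  have hf' : ContinuousOn (deriv f) (Ioo (-r) r) := hf.continuousOn_deriv_of_isOpen isOpen_Ioo le_rfl
  have hfd : ∀ x ∈ Ioo (-r) r, HasDerivAt f (deriv f x) x := by
    intro x hx
    exact ((hf.differentiableOn one_ne_zero).differentiableAt (isOpen_Ioo.mem_nhds hx)).hasDerivAt
  set A : ℝ → ℝ := fun x => √(1 + (deriv f (max (-(r / 2)) (min x (r / 2)))) ^ 2) with hA
  have hclamp : ∀ x : ℝ, max (-(r / 2)) (min x (r / 2)) ∈ Ioo (-r) r := by
    intro x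
    constructor
    · exact lt_of_lt_of_le (by linarith) (le_max_left _ _)
    · refine max_lt (by linarith) (lt_of_le_of_lt (min_le_right _ _) (by linarith))
  have hAc : Continuous A := by
    have h1 : Continuous (fun x : ℝ => deriv f (max (-(r / 2)) (min x (r / 2)))) :=
      hf'.comp_continuous (by fun_prop) hclamp
    rw [hA]
    exact (continuous_const.add (h1.pow 2)).sqrt
  have hA1 : ∀ x, 1 ≤ A x := by
    intro x
    rw [hA]
    simp only
    rw [Real.one_le_sqrt]
    nlinarith [sq_nonneg (deriv f (max (-(r / 2)) (min x (r / 2))))]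
  have hAin : ∀ x, |x| ≤ r / 2 → A x = √(1 + (deriv f x) ^ 2) := by
    intro x hx
    rw [abs_le] at hx
    have : max (-(r / 2)) (min x (r / 2)) = x := by
      rw [min_eq_left hx.2, max_eq_right hx.1]
    rw [hA]
    simp only
    rw [this]
  obtain ⟨l, m, hl, hl0, hlm, hlmy, hmlx, hm⟩ := ga_chart_len hAc hA1
  have hm0 : m 0 = 0 := by
    have := hmlx 0
    rwa [hl0] at this
  have hlc : Continuous l := continuous_iff_continuousAt.2 (fun x => (hl x).continuousAt)
  have hmc : Continuous m := continuous_iff_continuousAt.2 (fun x => (hm x).continuousAt)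
  have hmC1 : ContDiff ℝ 1 m := by
    rw [contDiff_one_iff_deriv]
    refine ⟨fun y => (hm y).differentiableAt, ?_⟩
    have : deriv m = fun y => (A (m y))⁻¹ := funext (fun y => (hm y).deriv)
    rw [this]
    refine (hAc.comp hmc).inv₀ (fun y => ?_)
    have := hA1 (m y)
    simp only [Function.comp_apply]
    linarith
  -- the radius
  obtain ⟨ρ, hρ, hρf⟩ : ∃ ρ > 0, ∀ x : ℝ, |x| < ρ → |f x| < r := by
    have hfcont : ContinuousAt f 0 := (hfd 0 ⟨by linarith, hr⟩).continuousAt
    have h1 : Tendsto (fun s : ℝ => |f s|) (𝓝 0) (𝓝 0) := by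
      have := hfcont.tendsto.abs
      simpa [hf0] using this
    have h2 := h1.eventually (gt_mem_nhds hr)
    obtain ⟨ρ, hρ, h3⟩ := Metric.eventually_nhds_iff.1 h2
    exact ⟨ρ, hρ, fun x hx => h3 (by rwa [Real.dist_eq, sub_zero])⟩
  set r₁ : ℝ := min (r / 2) (ρ / 2) with hr₁
  have hr₁0 : 0 < r₁ := lt_min (by linarith) (by linarith)
  have hr₁r : r₁ ≤ r / 2 := min_le_left _ _
  have hr₁ρ : r₁ < ρ := lt_of_le_of_lt (min_le_right _ _) (by linarith)
  have hlpos : 0 < l r₁ := by
    have := hlm hr₁0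
    rwa [hl0] at this
  have hlneg : l (-r₁) < 0 := by
    have := hlm (show -r₁ < 0 by linarith)
    rwa [hl0] at this
  set δ : ℝ := min (l r₁) (-l (-r₁)) with hδ
  have hδ0 : 0 < δ := lt_min hlpos (by linarith)
  have hmlt : ∀ y ∈ Ioo (-δ) δ, |m y| < r₁ := by
    intro y hy
    rw [abs_lt]
    constructor
    · rw [← hlm.lt_iff_lt, hlmy]
      have : δ ≤ -l (-r₁) := min_le_right _ _
      linarith [hy.1]
    · rw [← hlm.lt_iff_lt, hlmy]
      have : δ ≤ l r₁ := min_le_left _ _
      linarith [hy.2]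
  set σ : ℝ → ℂ := fun y => p + e * (m y + f (m y) * Complex.I) with hσ
  set D : Set ℂ := {z | |S z| < r₁ ∧ |T z| < r ∧ |l (S z)| < δ} with hD
  have hmemD : ∀ z, z ∈ D ↔ (|S z| < r₁ ∧ |T z| < r ∧ |l (S z)| < δ) := fun z => Iff.rfl
  have hDo : IsOpen D := by
    have h1 : IsOpen {z | |S z| < r₁} := isOpen_lt hSc.abs continuous_const
    have h2 : IsOpen {z | |T z| < r} := isOpen_lt hTc.abs continuous_const
    have h3 : IsOpen {z | |l (S z)| < δ} := isOpen_lt (hlc.comp hSc).abs continuous_const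
    exact h1.inter (h2.inter h3)
  have hSσ : ∀ y, S (σ y) = m y := fun y => hS1 _ _
  have hTσ : ∀ y, T (σ y) = f (m y) := fun y => hT1 _ _
  have hKD : ∀ z ∈ K ∩ D, T z = f (S z) := by
    intro z hz
    have h1 := (hmemD z).1 hz.2
    have h2 := hK (S z) (T z) (by linarith) h1.2.1
    rw [← hST z] at h2
    exact h2.1 hz.1
  have hKDσ : ∀ z ∈ K ∩ D, l (S z) ∈ Ioo (-δ) δ ∧ z = σ (l (S z)) := by
    intro z hz
    have h1 := (hmemD z).1 hz.2
    refine ⟨abs_lt.1 h1.2.2, ?_⟩
    rw [hσ]
    simp only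
    rw [hmlx, ← hKD z hz]
    exact hST z
  have hσmem : ∀ y ∈ Ioo (-δ) δ, σ y ∈ K ∩ D := by
    intro y hy
    have h1 := hmlt y hy
    have h2 : |f (m y)| < r := hρf _ (h1.trans hr₁ρ)
    refine ⟨(hK (m y) (f (m y)) (by linarith) h2).2 rfl, (hmemD _).2 ?_⟩
    rw [hSσ, hTσ, hlmy]
    exact ⟨h1, h2, abs_lt.2 hy⟩
  have hσd : ∀ y ∈ Ioo (-δ) δ, HasDerivAt σ
      (e * (((A (m y))⁻¹ : ℝ) + ((deriv f (m y) * (A (m y))⁻¹ : ℝ)) * Complex.I)) y := by
    intro y hy
    have h1 := hmlt y hy
    have h2 : m y ∈ Ioo (-r) r := by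
      rw [abs_lt] at h1
      exact ⟨by linarith, by linarith⟩
    have h3 : HasDerivAt (fun y => f (m y)) (deriv f (m y) * (A (m y))⁻¹) y :=
      (hfd _ h2).comp y (hm y)
    exact (((hm y).ofReal_comp.add ((h3.ofReal_comp).mul_const Complex.I)).const_mul e).const_add p
  have hσspeed : ∀ y ∈ Ioo (-δ) δ, ‖deriv σ y‖ = 1 := by
    intro y hy
    rw [(hσd y hy).deriv, norm_mul, he, one_mul]
    have h1 := hmlt y hy
    have h2 : A (m y) = √(1 + (deriv f (m y)) ^ 2) := hAin _ (by linarith)
    have hpos : 0 < A (m y) := by linarith [hA1 (m y)]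
    have h3 : (((A (m y))⁻¹ : ℝ) : ℂ) + ((deriv f (m y) * (A (m y))⁻¹ : ℝ)) * Complex.I =
        (((A (m y))⁻¹ : ℝ) : ℂ) * (1 + (deriv f (m y) : ℝ) * Complex.I) := by
      push_cast
      ring
    rw [h3, norm_mul, Complex.norm_real, Real.norm_eq_abs, abs_of_pos (inv_pos.2 hpos)]
    have h4 : ‖(1 : ℂ) + (deriv f (m y) : ℝ) * Complex.I‖ = A (m y) := by
      have h5 := Complex.norm_add_mul_I 1 (deriv f (m y))
      rw [Complex.ofReal_one] at h5
      rw [h5, h2]
      norm_num
    rw [h4]
    exact inv_mul_cancel₀ hpos.ne'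
  refine ⟨δ, σ, D, ?_⟩
  refine
    { pos := hδ0
      isOpen := hDo
      mem := ?_
      zero := ?_
      diff := ?_
      speed := hσspeed
      inj := ?_
      image := ?_
      reg := ?_
      small := ?_
      uniq := ?_ }
  · have h1 : σ 0 = p := by
      rw [hσ]
      simp only
      rw [hm0, hf0]
      simp
    have h2 := hσmem 0 ⟨by linarith, hδ0⟩
    rw [h1] at h2
    exact h2.2
  · rw [hσ]
    simp only
    rw [hm0, hf0]
    simp
  · have h1 : ContDiffOn ℝ 1 (fun y => f (m y)) (Ioo (-δ) δ) := by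
      refine hf.comp hmC1.contDiffOn ?_
      intro y hy
      have h1 := abs_lt.1 (hmlt y hy)
      exact ⟨by linarith, by linarith⟩
    have h2 : ContDiffOn ℝ 1 (fun y => ((f (m y) : ℝ) : ℂ)) (Ioo (-δ) δ) :=
      Complex.ofRealCLM.contDiff.comp_contDiffOn h1
    have h3 : ContDiffOn ℝ 1 (fun y => ((m y : ℝ) : ℂ)) (Ioo (-δ) δ) :=
      (Complex.ofRealCLM.contDiff.comp hmC1).contDiffOn
    exact contDiffOn_const.add (contDiffOn_const.mul (h3.add (h2.mul contDiffOn_const)))
  · intro y _ z _ hyz
    have h1 := congrArg S hyz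
    rw [hSσ, hSσ] at h1
    rw [← hlmy y, ← hlmy z, h1]
  · apply Subset.antisymm
    · rintro z ⟨y, hy, rfl⟩
      exact hσmem y hy
    · intro z hz
      obtain ⟨h1, h2⟩ := hKDσ z hz
      exact ⟨_, h1, h2.symm⟩
  · intro z hz
    have h1 := (hmemD z).1 hz.2
    have h2 := hKD z hz
    set s₀ := S z with hs₀
    have hs₀r : |s₀| < r := by linarith [h1.1]
    have hfs₀ : |f s₀| < r := by
      rw [← h2]
      exact h1.2.1
    have hz' : z = p + e * (s₀ + f s₀ * Complex.I) := by
      rw [← h2]
      exact hST z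
    refine ⟨e, min (r - |s₀|) (r - |f s₀|), fun s => f (s₀ + s) - f s₀, he,
      lt_min (by linarith) (by linarith), ?_, by simp, ?_⟩
    · refine ContDiffOn.sub ?_ contDiffOn_const
      refine hf.comp (contDiffOn_const.add contDiffOn_id) ?_
      intro s hs
      have h3 : |s| < r - |s₀| := lt_of_lt_of_le (abs_lt.2 hs) (min_le_left _ _)
      have h4 : |s₀ + s| < r := lt_of_le_of_lt (abs_add_le _ _) (by linarith)
      exact abs_lt.1 h4
    · intro s t hs ht
      have h3 : |s| < r - |s₀| := lt_of_lt_of_le hs (min_le_left _ _)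
      have h4 : |s₀ + s| < r := lt_of_le_of_lt (abs_add_le _ _) (by linarith)
      have h5 : |t| < r - |f s₀| := lt_of_lt_of_le ht (min_le_right _ _)
      have h6 : |f s₀ + t| < r := lt_of_le_of_lt (abs_add_le _ _) (by linarith)
      have h7 := hK (s₀ + s) (f s₀ + t) h4 h6
      have h8 : z + e * (s + t * Complex.I) =
          p + e * (((s₀ + s : ℝ) : ℂ) + ((f s₀ + t : ℝ) : ℂ) * Complex.I) := by
        rw [hz']
        push_cast
        ring
      rw [h8, h7]
      constructor
      · intro h9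
        linarith
      · intro h9
        linarith
  · intro ε hε
    refine ⟨{z | |l (S z)| < ε}, ?_, ?_⟩
    · have ho : IsOpen {z | |l (S z)| < ε} := isOpen_lt (hlc.comp hSc).abs continuous_const
      refine ho.mem_nhds ?_
      have h1 : S p = 0 := by
        rw [hS]
        simp
      show |l (S p)| < ε
      rw [h1, hl0, abs_zero]
      exact hε
    · intro y _ hy2
      have h1 : |l (S (σ y))| < ε := hy2
      rwa [hSσ, hlmy] at h1
  · intro γ a b hab hγ hsp hmem
    set y : ℝ → ℝ := fun t => l (S (γ t)) with hy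
    have hγd : ∀ t ∈ Ioo a b, HasDerivAt γ (deriv γ t) t := by
      intro t ht
      exact ((hγ.differentiableOn one_ne_zero).differentiableAt
        (isOpen_Ioo.mem_nhds ht)).hasDerivAt
    have hSd : ∀ t ∈ Ioo a b, HasDerivAt (fun t => S (γ t))
        ((deriv γ t * (starRingEnd ℂ) e).re) t := by
      intro t ht
      have h1 : HasDerivAt (fun t => (γ t - p) * (starRingEnd ℂ) e)
          (deriv γ t * (starRingEnd ℂ) e) t := ((hγd t ht).sub_const p).mul_const _
      exact (Complex.reCLM.hasFDerivAt.comp_hasDerivAt t h1)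
    have hyd : ∀ t ∈ Ioo a b, HasDerivAt y
        (A (S (γ t)) * (deriv γ t * (starRingEnd ℂ) e).re) t := by
      intro t ht
      exact (hl (S (γ t))).comp t (hSd t ht)
    have hyγ : ∀ t ∈ Ioo a b, y t ∈ Ioo (-δ) δ ∧ γ t = σ (y t) := fun t ht => hKDσ _ (hmem t ht)
    have hg1 : ∀ t ∈ Ioo a b, |deriv y t| = 1 := by
      intro t ht
      have h1 : HasDerivAt σ (deriv σ (y t)) (y t) :=
        (hσd _ (hyγ t ht).1).differentiableAt.hasDerivAt
      have h2 : HasDerivAt (fun t => σ (y t)) (deriv y t • deriv σ (y t)) t :=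
        h1.scomp t (hyd t ht).differentiableAt.hasDerivAt
      have h3 : HasDerivAt γ (deriv y t • deriv σ (y t)) t := by
        refine h2.congr_of_eventuallyEq ?_
        filter_upwards [isOpen_Ioo.mem_nhds ht] with u hu
        exact (hyγ u hu).2
      have h4 := hsp t ht
      rw [h3.deriv, norm_smul, hσspeed _ (hyγ t ht).1, mul_one, Real.norm_eq_abs] at h4
      exact h4
    have hgc : ContinuousOn (deriv y) (Ioo a b) := by
      have h1 : ContinuousOn (fun t => A (S (γ t)) * (deriv γ t * (starRingEnd ℂ) e).re)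
          (Ioo a b) := by
        have h2 : ContinuousOn (deriv γ) (Ioo a b) :=
          hγ.continuousOn_deriv_of_isOpen isOpen_Ioo le_rfl
        refine ContinuousOn.mul ?_ ?_
        · exact (hAc.comp hSc).comp_continuousOn hγ.continuousOn
        · exact Complex.continuous_re.comp_continuousOn (h2.mul continuousOn_const)
      exact h1.congr (fun t ht => (hyd t ht).deriv)
    obtain ⟨s, hs, hgs⟩ := ga_chart_sign hgc (fun t ht => by
      have h1 := hg1 t ht
      rcases abs_eq (zero_le_one (α := ℝ)) |>.1 h1 with h2 | h2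
      · exact Or.inl h2
      · exact Or.inr h2)
    have hmid : (a + b) / 2 ∈ Ioo a b := ⟨by linarith, by linarith⟩
    refine ⟨s, y ((a + b) / 2) - s * ((a + b) / 2), hs, ?_⟩
    intro t ht
    have hconst : y t - s * t = y ((a + b) / 2) - s * ((a + b) / 2) := by
      have hd : ∀ u ∈ Ioo a b, HasDerivAt (fun u => y u - s * u) (deriv y u - s) u := by
        intro u hu
        have h1 := (hyd u hu).differentiableAt.hasDerivAt
        have h2 : HasDerivAt (fun u : ℝ => s * u) s u := by
          simpa using (hasDerivAt_id u).const_mul s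
        exact h1.sub h2
      have := isOpen_Ioo.is_const_of_deriv_eq_zero (s := Ioo a b) (f := fun u => y u - s * u)
        isPreconnected_Ioo (fun u hu => (hd u hu).differentiableAt.differentiableWithinAt)
        (fun u hu => by rw [(hd u hu).deriv, hgs u hu, sub_self]; rfl) ht hmid
      exact this
    have hyt : s * t + (y ((a + b) / 2) - s * ((a + b) / 2)) = y t := by linarith
    rw [hyt]
    exact hyγ t ht

end Pool.Agent.MP099f24
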