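import Mathlib
import Pool.Agent.Lib.MP_099f24_an.GA.Defs

/-!
# Separation by loops

A compact set which is an arc near a point `x₀` and is connected after removing `x₀` has a bounded
complementary component.
-/

set_option autoImplicit false

namespace Pool.Agent.MP099f24

open MeasureTheory Filter Topology Set Metric
open scoped ENNReal ContDiff

/-- The exterior of a ball in the plane is preconnected. -/
theorem ga_jordan_ext (R : ℝ) : IsPreconnected {z : ℂ | R ≤ ‖z‖} := by
  have h1 : IsPreconnected (Ici (max R 0) ×ˢ (univ : Set ℝ)) :=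
    isPreconnected_Ici.prod isPreconnected_univ
  have h2 : ContinuousOn (fun p : ℝ × ℝ => (p.1 : ℂ) * Complex.exp (p.2 * Complex.I))
      (Ici (max R 0) ×ˢ (univ : Set ℝ)) := by
    apply Continuous.continuousOn
    fun_prop
  have h3 := h1.image _ h2
  have e : {z : ℂ | R ≤ ‖z‖} = (fun p : ℝ × ℝ => (p.1 : ℂ) * Complex.exp (p.2 * Complex.I)) ''
      (Ici (max R 0) ×ˢ (univ : Set ℝ)) := by
    ext z
    simp only [mem_ofPred_eq, mem_image, mem_prod, mem_Ici, mem_univ, and_true, Prod.exists]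
    constructor
    · intro hz
      exact ⟨‖z‖, Complex.arg z, max_le hz (norm_nonneg z), Complex.norm_mul_exp_arg_mul_I z⟩
    · rintro ⟨r, t, hr, rfl⟩
      have hr0 : 0 ≤ r := le_trans (le_max_right _ _) hr
      rw [norm_mul, Complex.norm_exp_ofReal_mul_I, mul_one, Complex.norm_real, Real.norm_eq_abs,
        abs_of_nonneg hr0]
      exact le_trans (le_max_left _ _) hr
  rw [e]
  exact h3

/-- There is a continuous logarithm of `(z - a) / (z - b)` on `J`. -/
def GAJordanLog (J : Set ℂ) (a b : ℂ) : Prop :=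
  ∃ L : ℂ → ℂ, ContinuousOn L J ∧ ∀ z ∈ J, Complex.exp (L z) = (z - a) / (z - b)

theorem ga_jordan_log_symm {J : Set ℂ} {a b : ℂ} (h : GAJordanLog J a b) : GAJordanLog J b a := by
  obtain ⟨L, hL, h⟩ := h
  refine ⟨fun z => -L z, hL.neg, fun z hz => ?_⟩
  rw [Complex.exp_neg, h z hz, inv_div]

theorem ga_jordan_log_trans {J : Set ℂ} {a b c : ℂ} (hb : b ∉ J) (h : GAJordanLog J a b)
    (h' : GAJordanLog J b c) : GAJordanLog J a c := by
  obtain ⟨L, hL, h⟩ := h
  obtain ⟨L', hL', h'⟩ := h'
  refine ⟨fun z => L z + L' z, hL.add hL', fun z hz => ?_⟩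
  have : z - b ≠ 0 := fun e => hb (by rw [sub_eq_zero] at e; rwa [← e])
  rw [Complex.exp_add, h z hz, h' z hz, div_mul_div_cancel₀ this]

theorem ga_jordan_log_near {J : Set ℂ} (hJ : IsClosed J) {b : ℂ} (hb : b ∉ J) :
    ∀ᶠ a in 𝓝 b, GAJordanLog J a b := by
  obtain ⟨ε, hε, hball⟩ := Metric.isOpen_iff.1 hJ.isOpen_compl b hb
  filter_upwards [Metric.ball_mem_nhds b hε] with a ha
  have key : ∀ z ∈ J, (z - a) / (z - b) ∈ Complex.slitPlane := by
    intro z hz
    have h1 : ε ≤ ‖z - b‖ := by
      by_contra hlt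
      push Not at hlt
      exact hball (by rwa [mem_ball, dist_eq_norm]) hz
    have h2 : z - b ≠ 0 := by
      intro e
      rw [e, norm_zero] at h1
      linarith
    have h3 : ‖(b - a) / (z - b)‖ < 1 := by
      rw [norm_div, div_lt_one (norm_pos_iff.2 h2)]
      rw [mem_ball, dist_eq_norm] at ha
      rw [norm_sub_rev b a]
      linarith
    have h4 : (z - a) / (z - b) = 1 + (b - a) / (z - b) := by
      field_simp
      ring
    rw [h4]
    left
    have h5 := (abs_le.1 (Complex.abs_re_le_norm ((b - a) / (z - b)))).1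
    simp only [Complex.add_re, Complex.one_re]
    linarith
  refine ⟨fun z => Complex.log ((z - a) / (z - b)), ?_, ?_⟩
  · refine ContinuousOn.clog ?_ key
    refine (continuousOn_id.sub continuousOn_const).div (continuousOn_id.sub continuousOn_const) ?_
    intro z hz e
    exact hb (by
      have : z = b := by rw [sub_eq_zero] at e; exact e
      rwa [← this])
  · intro z hz
    refine Complex.exp_log ?_
    exact Complex.slitPlane_ne_zero (key z hz)

theorem ga_jordan_log_of_preconnected {J S : Set ℂ} (hJ : IsClosed J) (hS : IsPreconnected S)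
    (hSJ : S ⊆ Jᶜ) {a b : ℂ} (ha : a ∈ S) (hb : b ∈ S) : GAJordanLog J a b := by
  refine hS.induction₂ (GAJordanLog J) ?_ ?_ ?_ ha hb
  · intro x hx
    refine nhdsWithin_le_nhds ?_
    filter_upwards [ga_jordan_log_near hJ (hSJ hx)] with y hy
    exact ga_jordan_log_symm hy
  · intro x y z _ hy _ h1 h2
    exact ga_jordan_log_trans (hSJ hy) h1 h2
  · intro x y _ _ h
    exact ga_jordan_log_symm h

/-- A continuous function on a preconnected set, all of whose values are integral multiples of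
`2πi`, is constant. -/
theorem ga_jordan_const {S : Set ℂ} (hS : IsPreconnected S) {h : ℂ → ℂ} (hc : ContinuousOn h S)
    (hexp : ∀ z ∈ S, Complex.exp (h z) = 1) {x y : ℂ} (hx : x ∈ S) (hy : y ∈ S) : h x = h y := by
  have hint : ∀ z ∈ S, ∃ n : ℤ, h z = n * (2 * Real.pi * Complex.I) := by
    intro z hz
    exact Complex.exp_eq_one_iff.1 (hexp z hz)
  set g : ℂ → ℝ := fun z => (h z).im / (2 * Real.pi) with hg
  have hgc : ContinuousOn g S := (Complex.continuous_im.comp_continuousOn hc).div_const _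
  have hpi : (0 : ℝ) < 2 * Real.pi := by positivity
  have hgn : ∀ z ∈ S, ∀ n : ℤ, h z = n * (2 * Real.pi * Complex.I) → g z = n := by
    intro z hz n hn
    simp only [hg, hn]
    have : ((n : ℂ) * (2 * Real.pi * Complex.I)).im = n * (2 * Real.pi) := by
      simp
    rw [this]
    field_simp
  have hord : (g '' S).OrdConnected := (hS.image g hgc).ordConnected
  have aux : ∀ u ∈ S, ∀ v ∈ S, ¬ g u < g v := by
    intro u hu v hv huv
    obtain ⟨m, hm⟩ := hint u hu
    obtain ⟨n, hn⟩ := hint v hv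
    have e1 := hgn u hu m hm
    have e2 := hgn v hv n hn
    have hmn : m < n := by
      rw [e1, e2] at huv
      exact_mod_cast huv
    have hmn' : (m : ℝ) + 1 ≤ n := by exact_mod_cast hmn
    have hmem : (m : ℝ) + 1 / 2 ∈ g '' S := by
      refine hord.out ⟨u, hu, e1⟩ ⟨v, hv, e2⟩ ⟨by linarith, by linarith⟩
    obtain ⟨w, hw, hwe⟩ := hmem
    obtain ⟨k, hk⟩ := hint w hw
    rw [hgn w hw k hk] at hwe
    have h1 : (m : ℝ) < k := by linarith
    have h2 : (k : ℝ) < m + 1 := by linarith
    have h1' : m < k := by exact_mod_cast h1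
    have h2' : k < m + 1 := by exact_mod_cast h2
    omega
  have hgxy : g x = g y := le_antisymm (not_lt.1 (aux y hy x hx)) (not_lt.1 (aux x hx y hy))
  obtain ⟨m, hm⟩ := hint x hx
  obtain ⟨n, hn⟩ := hint y hy
  rw [hgn x hx m hm, hgn y hy n hn] at hgxy
  have : m = n := by exact_mod_cast hgxy
  rw [hm, hn, this]

theorem ga_jordan {K J : Set ℂ} {x₀ : ℂ} (hJ : IsCompact J) (hJK : J ⊆ K) (hx : IsRegPt K x₀)
    (hx₀ : x₀ ∈ J) (hU : ∃ U ∈ 𝓝 x₀, K ∩ U ⊆ J) (hcon : IsPreconnected (J \ {x₀})) :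
    ∃ W : Set ℂ, IsOpen W ∧ W.Nonempty ∧ Bornology.IsBounded W ∧ IsPreconnected W ∧
      frontier W ⊆ J ∧ Disjoint W J := by
  obtain ⟨e, r, f, he, hr, hf, hf0, hK⟩ := hx
  obtain ⟨U, hUn, hUJ⟩ := hU
  obtain ⟨ρ, hρ, hρU⟩ := Metric.mem_nhds_iff.1 hUn
  have he0 : e ≠ 0 := by
    intro h
    rw [h, norm_zero] at he
    exact zero_ne_one he
  -- membership in `J` near `x₀`
  set r₁ : ℝ := min r (ρ / 2) with hr₁
  have hr₁0 : 0 < r₁ := lt_min hr (by linarith)
  have hJ1 : ∀ s t : ℝ, |s| < r₁ → |t| < r₁ →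
      (x₀ + e * (s + t * Complex.I) ∈ J ↔ t = f s) := by
    intro s t hs ht
    have hs' : |s| < r := lt_of_lt_of_le hs (min_le_left _ _)
    have ht' : |t| < r := lt_of_lt_of_le ht (min_le_left _ _)
    rw [← hK s t hs' ht']
    refine ⟨fun h => hJK h, fun h => hUJ ⟨h, hρU ?_⟩⟩
    rw [mem_ball, dist_eq_norm, add_sub_cancel_left, norm_mul, he, one_mul]
    have h1 : ‖(s : ℂ) + t * Complex.I‖ ≤ |s| + |t| := by
      refine (norm_add_le _ _).trans ?_
      rw [norm_mul, Complex.norm_I, mul_one, Complex.norm_real, Complex.norm_real,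
        Real.norm_eq_abs, Real.norm_eq_abs]
    have h2 : |s| < ρ / 2 := lt_of_lt_of_le hs (min_le_right _ _)
    have h3 : |t| < ρ / 2 := lt_of_lt_of_le ht (min_le_right _ _)
    linarith
  set η : ℝ := r₁ / 2 with hη
  have hη0 : 0 < η := by positivity
  have hηr : η < r₁ := by rw [hη]; linarith
  set a : ℂ := x₀ + e * (η * Complex.I) with ha
  set b : ℂ := x₀ + e * (-η * Complex.I) with hb
  -- the points of the segment
  have hseg : ∀ τ : ℝ, |τ| ≤ η → x₀ + e * (τ * Complex.I) ∈ J → τ = 0 := by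
    intro τ hτ hmem
    have h1 : |(0 : ℝ)| < r₁ := by simpa using hr₁0
    have h2 := (hJ1 0 τ h1 (lt_of_le_of_lt hτ hηr)).1 (by simpa using hmem)
    rw [h2, hf0]
  have haJ : a ∉ J := by
    intro h
    have := hseg η (by rw [abs_of_pos hη0]) h
    linarith
  have hbJ : b ∉ J := by
    intro h
    have := hseg (-η) (by rw [abs_neg, abs_of_pos hη0]) (by push_cast; exact h)
    linarith
  have hzb : ∀ z ∈ J, z - b ≠ 0 := by
    intro z hz h
    exact hbJ (by rw [sub_eq_zero] at h; rwa [← h])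
  have hza : ∀ z ∈ J, z - a ≠ 0 := by
    intro z hz h
    exact haJ (by rw [sub_eq_zero] at h; rwa [← h])
  -- the quotient is in the slit plane off `x₀`
  have hslit : ∀ z ∈ J, z ≠ x₀ → (z - a) / (z - b) ∈ Complex.slitPlane := by
    intro z hz hzx
    by_contra hns
    rw [Complex.mem_slitPlane_iff_not_le_zero, not_not] at hns
    obtain ⟨hre, him⟩ := Complex.le_def.1 hns
    simp only [Complex.zero_re, Complex.zero_im] at hre him
    set k : ℝ := -((z - a) / (z - b)).re with hk
    have hk0 : 0 ≤ k := by rw [hk]; linarith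
    have hq : (z - a) / (z - b) = ((-k : ℝ) : ℂ) := by
      apply Complex.ext
      · rw [Complex.ofReal_re, hk, neg_neg]
      · rw [Complex.ofReal_im, him]
    rw [div_eq_iff (hzb z hz)] at hq
    have h1k : ((1 + k : ℝ) : ℂ) ≠ 0 := by
      rw [Complex.ofReal_ne_zero]
      linarith
    have hzz : z = x₀ + e * (((1 - k) / (1 + k) * η : ℝ) * Complex.I) := by
      have h2 : ((1 + k : ℝ) : ℂ) * (z - x₀) = ((1 - k : ℝ) : ℂ) * (e * (η * Complex.I)) := by
        have h3 : z - (x₀ + e * (η * Complex.I)) = ((-k : ℝ) : ℂ) * (z - (x₀ + e * (-η * Complex.I))) := hq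
        push_cast at h3 ⊢
        linear_combination h3
      have h4 : z - x₀ = ((1 - k : ℝ) : ℂ) * (e * (η * Complex.I)) / ((1 + k : ℝ) : ℂ) := by
        rw [eq_div_iff h1k, mul_comm]
        exact h2
      have h5 : z = x₀ + (z - x₀) := by ring
      rw [h5, h4]
      push_cast
      push_cast at h1k
      field_simp
    have habs : |(1 - k) / (1 + k) * η| ≤ η := by
      rw [abs_mul, abs_of_pos hη0, abs_div, abs_of_pos (by linarith : (0 : ℝ) < 1 + k)]
      have : |1 - k| ≤ 1 + k := by
        rw [abs_le]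
        constructor <;> linarith
      have h6 : |1 - k| / (1 + k) ≤ 1 := by
        rw [div_le_one (by linarith)]
        exact this
      nlinarith [abs_nonneg ((1 - k) / (1 + k))]
    have h0 := hseg _ habs (by rw [← hzz]; exact hz)
    apply hzx
    rw [hzz, h0]
    simp
  -- no continuous logarithm
  have hno : ¬ GAJordanLog J a b := by
    rintro ⟨L, hL, hexp⟩
    set F : ℂ → ℂ := fun z => (z - a) / (z - b) with hF
    set h : ℂ → ℂ := fun z => L z - Complex.log (F z) with hh
    have hFc : ContinuousOn F J := by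
      refine (continuousOn_id.sub continuousOn_const).div (continuousOn_id.sub continuousOn_const) ?_
      intro z hz
      exact hzb z hz
    have hhc : ContinuousOn h (J \ {x₀}) := by
      refine (hL.mono sdiff_subset).sub (ContinuousOn.clog (hFc.mono sdiff_subset) ?_)
      intro z hz
      exact hslit z hz.1 hz.2
    have hh1 : ∀ z ∈ J \ {x₀}, Complex.exp (h z) = 1 := by
      intro z hz
      have h0 : F z ≠ 0 := Complex.slitPlane_ne_zero (hslit z hz.1 hz.2)
      rw [hh]
      simp only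
      rw [Complex.exp_sub, hexp z hz.1, Complex.exp_log h0]
      exact div_self h0
    -- the curve
    set ζ : ℝ → ℂ := fun s => x₀ + e * (s + f s * Complex.I) with hζ
    have hζ0 : ζ 0 = x₀ := by simp [hζ, hf0]
    have hfcont : ContinuousAt f 0 := by
      refine (hf.continuousOn).continuousAt (Ioo_mem_nhds (by linarith) hr)
    have hζc : ContinuousAt ζ 0 := by
      rw [hζ]
      have : ContinuousAt (fun s : ℝ => ((f s : ℝ) : ℂ)) 0 :=
        Complex.continuous_ofReal.continuousAt.comp hfcont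
      fun_prop
    have hf0' : Tendsto f (𝓝 0) (𝓝 0) := by
      have := hfcont.tendsto
      rwa [hf0] at this
    have hev : ∀ᶠ s in 𝓝 (0 : ℝ), |s| < r₁ ∧ |f s| < r₁ ∧ |f s| < η := by
      have h1 : ∀ᶠ s in 𝓝 (0 : ℝ), |s| < r₁ := by
        have : Tendsto (fun s : ℝ => |s|) (𝓝 0) (𝓝 0) := by
          simpa using (continuous_abs.tendsto (0 : ℝ))
        exact this.eventually (gt_mem_nhds hr₁0)
      have h2 : Tendsto (fun s : ℝ => |f s|) (𝓝 0) (𝓝 0) := by
        simpa using hf0'.abs
      exact h1.and ((h2.eventually (gt_mem_nhds hr₁0)).and (h2.eventually (gt_mem_nhds hη0)))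
    have hζJ : ∀ᶠ s in 𝓝 (0 : ℝ), ζ s ∈ J := by
      filter_upwards [hev] with s hs
      exact (hJ1 s (f s) hs.1 hs.2.1).2 rfl
    have hζne : ∀ s : ℝ, s ≠ 0 → ζ s ≠ x₀ := by
      intro s hs hs2
      have h1 : e * ((s : ℂ) + f s * Complex.I) = 0 := by
        have : ζ s = x₀ + e * ((s : ℂ) + f s * Complex.I) := rfl
        rw [this] at hs2
        linear_combination hs2
      rcases mul_eq_zero.1 h1 with h2 | h2
      · exact he0 h2
      · have := congrArg Complex.re h2
        simp at this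
        exact hs this
    have hFζ : ∀ s : ℝ, F (ζ s) = ((s : ℂ) + (f s - η : ℝ) * Complex.I) /
        ((s : ℂ) + (f s + η : ℝ) * Complex.I) := by
      intro s
      rw [hF]
      simp only
      have h1 : ζ s - a = e * ((s : ℂ) + (f s - η : ℝ) * Complex.I) := by
        rw [hζ, ha]
        push_cast
        ring
      have h2 : ζ s - b = e * ((s : ℂ) + (f s + η : ℝ) * Complex.I) := by
        rw [hζ, hb]
        push_cast
        ring
      rw [h1, h2, mul_div_mul_left _ _ he0]
    have hFlim : Tendsto (fun s => F (ζ s)) (𝓝 0) (𝓝 (-1)) := by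
      have h1 : ContinuousAt F x₀ := by
        rw [hF]
        refine (continuousAt_id.sub continuousAt_const).div (continuousAt_id.sub continuousAt_const) ?_
        exact hzb x₀ hx₀
      have h2 : Tendsto ζ (𝓝 0) (𝓝 x₀) := by
        have := hζc.tendsto
        rwa [hζ0] at this
      have h3 := h1.tendsto.comp h2
      have h4 : F x₀ = -1 := by
        have h5 := hFζ 0
        rw [hζ0] at h5
        rw [h5, hf0]
        have hηc : (η : ℂ) ≠ 0 := by
          rw [Complex.ofReal_ne_zero]
          exact hη0.ne'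
        push_cast
        field_simp
        ring
      rw [h4] at h3
      exact h3
    have him : ∀ s : ℝ, (F (ζ s)).im = -(2 * η * s) /
        Complex.normSq ((s : ℂ) + (f s + η : ℝ) * Complex.I) := by
      intro s
      rw [hFζ, Complex.div_im]
      have h1 : ((s : ℂ) + (f s - η : ℝ) * Complex.I).im = f s - η := by simp
      have h2 : ((s : ℂ) + (f s + η : ℝ) * Complex.I).im = f s + η := by simp
      have h3 : ((s : ℂ) + (f s - η : ℝ) * Complex.I).re = s := by simp
      have h4 : ((s : ℂ) + (f s + η : ℝ) * Complex.I).re = s := by simp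
      rw [h1, h2, h3, h4, ← sub_div]
      congr 1
      ring
    have hns : ∀ s : ℝ, s ≠ 0 → 0 < Complex.normSq ((s : ℂ) + (f s + η : ℝ) * Complex.I) := by
      intro s hs
      rw [Complex.normSq_pos]
      intro h0
      have := congrArg Complex.re h0
      simp at this
      exact hs this
    have hLlim : Tendsto (fun s => L (ζ s)) (𝓝 0) (𝓝 (L x₀)) := by
      have h1 : ContinuousWithinAt L J x₀ := hL x₀ hx₀
      have h2 : Tendsto ζ (𝓝 0) (𝓝[J] x₀) := by
        refine tendsto_nhdsWithin_iff.2 ⟨?_, hζJ⟩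
        have := hζc.tendsto
        rwa [hζ0] at this
      exact h1.tendsto.comp h2
    -- right limit
    have hright : Tendsto (fun s => h (ζ s)) (𝓝[>] 0) (𝓝 (L x₀ - (Real.log ‖(-1 : ℂ)‖ - Real.pi * Complex.I))) := by
      refine (hLlim.mono_left nhdsWithin_le_nhds).sub ?_
      have h1 := Complex.tendsto_log_nhdsWithin_im_neg_of_re_neg_of_im_zero (z := (-1 : ℂ))
        (by simp) (by simp)
      refine h1.comp (tendsto_nhdsWithin_iff.2 ⟨hFlim.mono_left nhdsWithin_le_nhds, ?_⟩)
      filter_upwards [self_mem_nhdsWithin] with s hs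
      have hs0 : (0 : ℝ) < s := hs
      rw [him, neg_div, neg_lt_zero]
      have := hns s hs0.ne'
      positivity
    have hleft : Tendsto (fun s => h (ζ s)) (𝓝[<] 0) (𝓝 (L x₀ - (Real.log ‖(-1 : ℂ)‖ + Real.pi * Complex.I))) := by
      refine (hLlim.mono_left nhdsWithin_le_nhds).sub ?_
      have h1 := Complex.tendsto_log_nhdsWithin_im_nonneg_of_re_neg_of_im_zero (z := (-1 : ℂ))
        (by simp) (by simp)
      refine h1.comp (tendsto_nhdsWithin_iff.2 ⟨hFlim.mono_left nhdsWithin_le_nhds, ?_⟩)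
      filter_upwards [self_mem_nhdsWithin] with s hs
      have hs0 : s < (0 : ℝ) := hs
      rw [him]
      have := hns s hs0.ne
      have h2 : 0 ≤ -(2 * η * s) := by nlinarith
      positivity
    -- constancy
    obtain ⟨s₁, hs₁⟩ : ∃ s₁ : ℝ, ζ s₁ ∈ J \ {x₀} := by
      have h1 : ∀ᶠ s in 𝓝[>] (0 : ℝ), ζ s ∈ J := nhdsWithin_le_nhds hζJ
      have h2 : ∀ᶠ s in 𝓝[>] (0 : ℝ), ζ s ≠ x₀ := by
        filter_upwards [self_mem_nhdsWithin] with s hs
        exact hζne s (ne_of_gt hs)
      obtain ⟨s, hs⟩ := (h1.and h2).exists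
      exact ⟨s, hs.1, hs.2⟩
    have hconstR : ∀ᶠ s in 𝓝[>] (0 : ℝ), h (ζ s) = h (ζ s₁) := by
      filter_upwards [nhdsWithin_le_nhds hζJ, self_mem_nhdsWithin] with s hs hs2
      exact ga_jordan_const hcon hhc hh1 ⟨hs, hζne s (ne_of_gt hs2)⟩ hs₁
    have hconstL : ∀ᶠ s in 𝓝[<] (0 : ℝ), h (ζ s) = h (ζ s₁) := by
      filter_upwards [nhdsWithin_le_nhds hζJ, self_mem_nhdsWithin] with s hs hs2
      exact ga_jordan_const hcon hhc hh1 ⟨hs, hζne s (ne_of_lt hs2)⟩ hs₁
    have eR : L x₀ - (Real.log ‖(-1 : ℂ)‖ - Real.pi * Complex.I) = h (ζ s₁) :=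
      tendsto_nhds_unique (hright.congr' hconstR) tendsto_const_nhds
    have eL : L x₀ - (Real.log ‖(-1 : ℂ)‖ + Real.pi * Complex.I) = h (ζ s₁) :=
      tendsto_nhds_unique (hleft.congr' hconstL) tendsto_const_nhds
    have e3 : (2 * Real.pi * Complex.I : ℂ) = 0 := by linear_combination eR - eL
    exact Complex.two_pi_I_ne_zero e3
  -- the components
  have hJo : IsOpen Jᶜ := hJ.isClosed.isOpen_compl
  have hgen : ∀ w ∈ Jᶜ, Bornology.IsBounded (connectedComponentIn Jᶜ w) →
      ∃ W : Set ℂ, IsOpen W ∧ W.Nonempty ∧ Bornology.IsBounded W ∧ IsPreconnected W ∧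
      frontier W ⊆ J ∧ Disjoint W J := by
    intro w hw hbd
    refine ⟨connectedComponentIn Jᶜ w, hJo.connectedComponentIn,
      ⟨w, mem_connectedComponentIn hw⟩, hbd, isPreconnected_connectedComponentIn, ?_, ?_⟩
    · intro z hz
      by_contra hzJ
      have hz1 : z ∈ connectedComponentIn Jᶜ z := mem_connectedComponentIn hzJ
      have hz2 : IsOpen (connectedComponentIn Jᶜ z) := hJo.connectedComponentIn
      have hzc : z ∈ closure (connectedComponentIn Jᶜ w) := frontier_subset_closure hz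
      obtain ⟨v, hv1, hv2⟩ := mem_closure_iff.1 hzc _ hz2 hz1
      have e1 := connectedComponentIn_eq hv1
      have e2 := connectedComponentIn_eq hv2
      have e3 : connectedComponentIn Jᶜ z = connectedComponentIn Jᶜ w := by rw [e1, e2]
      rw [e3] at hz1
      have h4 : z ∉ interior (connectedComponentIn Jᶜ w) := hz.2
      rw [(hJo.connectedComponentIn).interior_eq] at h4
      exact h4 hz1
    · rw [Set.disjoint_left]
      intro z hz hzJ
      exact connectedComponentIn_subset _ _ hz hzJ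
  by_cases hA : Bornology.IsBounded (connectedComponentIn Jᶜ a)
  · exact hgen a haJ hA
  by_cases hB : Bornology.IsBounded (connectedComponentIn Jᶜ b)
  · exact hgen b hbJ hB
  exfalso
  obtain ⟨R₀, hR₀⟩ := hJ.isBounded.subset_ball (0 : ℂ)
  have hext : {z : ℂ | R₀ ≤ ‖z‖} ⊆ Jᶜ := by
    intro z hz hzJ
    have h1 := hR₀ hzJ
    rw [mem_ball_zero_iff] at h1
    exact absurd hz (not_le.2 h1)
  have hmeet : ∀ w, ¬ Bornology.IsBounded (connectedComponentIn Jᶜ w) →
      {z : ℂ | R₀ ≤ ‖z‖} ⊆ connectedComponentIn Jᶜ w := by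
    intro w hw
    have : ∃ z ∈ connectedComponentIn Jᶜ w, R₀ ≤ ‖z‖ := by
      by_contra hcon2
      push Not at hcon2
      apply hw
      refine (Metric.isBounded_ball (x := (0 : ℂ)) (r := R₀)).subset ?_
      intro z hz
      rw [mem_ball_zero_iff]
      exact hcon2 z hz
    obtain ⟨z, hz1, hz2⟩ := this
    rw [connectedComponentIn_eq hz1]
    exact (ga_jordan_ext R₀).subset_connectedComponentIn hz2 hext
  have hR1 : ((|R₀| : ℝ) : ℂ) ∈ {z : ℂ | R₀ ≤ ‖z‖} := by
    show R₀ ≤ ‖((|R₀| : ℝ) : ℂ)‖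
    rw [Complex.norm_real, Real.norm_eq_abs, abs_abs]
    exact le_abs_self R₀
  have m1 := hmeet a hA hR1
  have m2 := hmeet b hB hR1
  have e1 := connectedComponentIn_eq m1
  have e2 := connectedComponentIn_eq m2
  have hab : b ∈ connectedComponentIn Jᶜ a := by
    rw [e1, ← e2]
    exact mem_connectedComponentIn hbJ
  exact hno (ga_jordan_log_of_preconnected hJ.isClosed isPreconnected_connectedComponentIn
    (connectedComponentIn_subset _ _) (mem_connectedComponentIn haJ) hab)

theorem ga_noloop {Ω K J : Set ℂ} {x₀ : ℂ} (hKΩ : K ⊆ Ω) (hH : NoHoles Ω)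
    (hN : NoRegion Ω K) (hJ : IsCompact J) (hJK : J ⊆ K) (hx : IsRegPt K x₀)
    (hx₀ : x₀ ∈ J) (hU : ∃ U ∈ 𝓝 x₀, K ∩ U ⊆ J) (hcon : IsPreconnected (J \ {x₀})) : False := by
  obtain ⟨W, hWo, hWne, hWb, hWc, hWf, hWJ⟩ := ga_jordan hJ hJK hx hx₀ hU hcon
  refine hN W hWo hWne hWb ?_ (hWf.trans hJK)
  intro z hz
  by_contra hzΩ
  have hzJ : z ∉ J := fun h => hzΩ (hKΩ (hJK h))
  have hzW : z ∈ W := by
    by_contra hzW
    have : z ∈ frontier W := by
      refine ⟨hz, ?_⟩
      rw [hWo.interior_eq]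
      exact hzW
    exact hzJ (hWf this)
  have hpc : IsPreconnected (connectedComponentIn Ωᶜ z) := isPreconnected_connectedComponentIn
  have hzc : z ∈ connectedComponentIn Ωᶜ z := mem_connectedComponentIn hzΩ
  have hsub : connectedComponentIn Ωᶜ z ⊆ W := by
    have hfr : Disjoint (connectedComponentIn Ωᶜ z) (frontier W) := by
      rw [Set.disjoint_left]
      intro v hv hvf
      exact connectedComponentIn_subset _ _ hv (hKΩ (hJK (hWf hvf)))
    have hcov : connectedComponentIn Ωᶜ z ⊆ W ∪ (closure W)ᶜ := by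
      intro v hv
      by_cases hvW : v ∈ W
      · exact Or.inl hvW
      · right
        intro hvc
        refine (Set.disjoint_left.1 hfr hv) ⟨hvc, ?_⟩
        rw [hWo.interior_eq]
        exact hvW
    have hdis : Disjoint W (closure W)ᶜ := by
      rw [Set.disjoint_left]
      intro v hv hv2
      exact hv2 (subset_closure hv)
    exact hpc.subset_left_of_subset_union hWo isClosed_closure.isOpen_compl hdis hcov ⟨z, hzc, hzW⟩
  exact hH z hzΩ (hWb.subset hsub)

end Pool.Agent.MP099f24
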