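import Mathlib
import Pool.Agent.Lib.MP_099f24_an.GA.Att

/-!
# Global assembly: the arc belonging to a component of the set of regular points
-/

namespace Pool.Agent.MP099f24

open MeasureTheory Filter Topology Set Metric
open scoped ENNReal ContDiff

/-- the right end of the component parametrized by `c` is at the vertex `q` -/
def EndR (K : Set ℂ) (b : ℝ) (c : ℝ → ℂ) (q : ℂ) : Prop :=
  q ∈ K ∧ ¬ IsRegPt K q ∧ Tendsto c (𝓝[<] b) (𝓝 q)

/-- the left end of the component parametrized by `c` is at the vertex `q` -/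
def EndL (K : Set ℂ) (a : ℝ) (c : ℝ → ℂ) (q : ℂ) : Prop :=
  q ∈ K ∧ ¬ IsRegPt K q ∧ Tendsto c (𝓝[>] a) (𝓝 q)

/-- the domain of definition of the arc -/
def arcI (K : Set ℂ) (a b : ℝ) (c : ℝ → ℂ) : Set ℝ :=
  Ioo a b ∪ ({t | t = b ∧ ∃ q, EndR K b c q} ∪ {t | t = a ∧ ∃ q, EndL K a c q})

/-- the arc -/
noncomputable def arcG (a b : ℝ) (c : ℝ → ℂ) : ℝ → ℂ := extendFrom (Ioo a b) c

theorem EndR.unique {K : Set ℂ} {b : ℝ} {c : ℝ → ℂ} {q q' : ℂ} (h : EndR K b c q)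
    (h' : EndR K b c q') : q = q' := tendsto_nhds_unique h.2.2 h'.2.2

theorem EndL.unique {K : Set ℂ} {a : ℝ} {c : ℝ → ℂ} {q q' : ℂ} (h : EndL K a c q)
    (h' : EndL K a c q') : q = q' := tendsto_nhds_unique h.2.2 h'.2.2

theorem tendsto_neg_left {a : ℝ} : Tendsto (fun t : ℝ => -t) (𝓝[>] a) (𝓝[<] (-a)) :=
  tendsto_neg_nhdsGT (a := a)

theorem tendsto_neg_right {a : ℝ} : Tendsto (fun t : ℝ => -t) (𝓝[<] a) (𝓝[>] (-a)) :=
  tendsto_neg_nhdsLT (a := a)

theorem EndR.rev {K : Set ℂ} {b : ℝ} {c : ℝ → ℂ} {q : ℂ} :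
    EndL K (-b) (fun t => c (-t)) q ↔ EndR K b c q := by
  constructor
  · rintro ⟨h1, h2, h3⟩
    refine ⟨h1, h2, ?_⟩
    have := h3.comp (tendsto_neg_right (a := b))
    refine this.congr (fun t => ?_)
    simp
  · rintro ⟨h1, h2, h3⟩
    refine ⟨h1, h2, ?_⟩
    have h4 : Tendsto (fun t : ℝ => -t) (𝓝[>] (-b)) (𝓝[<] (-(-b))) := tendsto_neg_left
    rw [neg_neg] at h4
    exact h3.comp h4

theorem EndL.rev {K : Set ℂ} {a : ℝ} {c : ℝ → ℂ} {q : ℂ} :
    EndR K (-a) (fun t => c (-t)) q ↔ EndL K a c q := by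
  constructor
  · rintro ⟨h1, h2, h3⟩
    refine ⟨h1, h2, ?_⟩
    have := h3.comp (tendsto_neg_left (a := a))
    refine this.congr (fun t => ?_)
    simp
  · rintro ⟨h1, h2, h3⟩
    refine ⟨h1, h2, ?_⟩
    have h4 : Tendsto (fun t : ℝ => -t) (𝓝[<] (-a)) (𝓝[>] (-(-a))) := tendsto_neg_right
    rw [neg_neg] at h4
    exact h3.comp h4

section

variable {K : Set ℂ} {a b : ℝ} {c : ℝ → ℂ}

theorem arcG_eq (h : IsPar K a b c) {t : ℝ} (ht : t ∈ Ioo a b) : arcG a b c t = c t := by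
  refine extendFrom_eq (subset_closure ht) ?_
  exact (h.diff.continuousOn t ht)

theorem arcG_right (h : IsPar K a b c) {q : ℂ} (hq : EndR K b c q) : arcG a b c b = q := by
  exact eq_lim_at_right_extendFrom_Ioo h.lt hq.2.2

theorem arcG_left (h : IsPar K a b c) {q : ℂ} (hq : EndL K a c q) : arcG a b c a = q := by
  exact eq_lim_at_left_extendFrom_Ioo h.lt hq.2.2

theorem Ioo_subset_arcI : Ioo a b ⊆ arcI K a b c := subset_union_left

theorem arcI_subset_Icc (h : IsPar K a b c) : arcI K a b c ⊆ Icc a b := by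
  rintro t (ht | ⟨rfl, _⟩ | ⟨rfl, _⟩)
  · exact Ioo_subset_Icc_self ht
  · exact right_mem_Icc.2 h.lt.le
  · exact left_mem_Icc.2 h.lt.le

theorem mem_arcI_cases (h : IsPar K a b c) {t : ℝ} (ht : t ∈ arcI K a b c) :
    (t ∈ Ioo a b ∧ arcG a b c t = c t ∧ IsRegPt K (arcG a b c t)) ∨
    (t = b ∧ EndR K b c (arcG a b c t)) ∨ (t = a ∧ EndL K a c (arcG a b c t)) := by
  rcases ht with ht | ⟨rfl, q, hq⟩ | ⟨rfl, q, hq⟩
  · refine Or.inl ⟨ht, arcG_eq h ht, ?_⟩
    rw [arcG_eq h ht]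
    exact h.reg t ht
  · refine Or.inr (Or.inl ⟨rfl, ?_⟩)
    rw [arcG_right h hq]
    exact hq
  · refine Or.inr (Or.inr ⟨rfl, ?_⟩)
    rw [arcG_left h hq]
    exact hq

theorem right_mem_arcI (h : IsPar K a b c) : b ∈ arcI K a b c ↔ ∃ q, EndR K b c q := by
  constructor
  · intro hb
    rcases mem_arcI_cases h hb with ⟨h1, _⟩ | ⟨_, h2⟩ | ⟨h1, _⟩
    · exact absurd h1.2 (lt_irrefl _)
    · exact ⟨_, h2⟩
    · exact absurd h1 h.lt.ne'
  · exact fun hq => Or.inr (Or.inl ⟨rfl, hq⟩)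

theorem left_mem_arcI (h : IsPar K a b c) : a ∈ arcI K a b c ↔ ∃ q, EndL K a c q := by
  constructor
  · intro hb
    rcases mem_arcI_cases h hb with ⟨h1, _⟩ | ⟨h1, _⟩ | ⟨_, h2⟩
    · exact absurd h1.1 (lt_irrefl _)
    · exact absurd h1 h.lt.ne
    · exact ⟨_, h2⟩
  · exact fun hq => Or.inr (Or.inr ⟨rfl, hq⟩)

theorem ordConnected_arcI (h : IsPar K a b c) : (arcI K a b c).OrdConnected := by
  refine ⟨fun x hx y hy t ht => ?_⟩
  have hx' := arcI_subset_Icc h hx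
  have hy' := arcI_subset_Icc h hy
  rcases eq_or_lt_of_le (hx'.1.trans ht.1) with h1 | h1
  · have : x = t := le_antisymm ht.1 (h1 ▸ hx'.1)
    exact this ▸ hx
  rcases eq_or_lt_of_le (ht.2.trans hy'.2) with h2 | h2
  · have : y = t := le_antisymm (h2 ▸ hy'.2) ht.2
    exact this ▸ hy
  · exact Ioo_subset_arcI ⟨h1, h2⟩

theorem interior_arcI (h : IsPar K a b c) : interior (arcI K a b c) = Ioo a b := by
  refine subset_antisymm ?_ (interior_maximal Ioo_subset_arcI isOpen_Ioo)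
  have := interior_mono (arcI_subset_Icc h)
  rwa [interior_Icc] at this

theorem continuousOn_arcG (h : IsPar K a b c) : ContinuousOn (arcG a b c) (arcI K a b c) := by
  have hc := h.diff.continuousOn
  by_cases hR : ∃ q, EndR K b c q
  · obtain ⟨q, hq⟩ := hR
    by_cases hL : ∃ q, EndL K a c q
    · obtain ⟨q', hq'⟩ := hL
      exact (continuousOn_Icc_extendFrom_Ioo hc hq'.2.2 hq.2.2).mono (arcI_subset_Icc h)
    · refine (continuousOn_Ioc_extendFrom_Ioo hc hq.2.2).mono (fun t ht => ?_)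
      have h1 := arcI_subset_Icc h ht
      refine ⟨lt_of_le_of_ne h1.1 ?_, h1.2⟩
      rintro rfl
      exact hL ((left_mem_arcI h).1 ht)
  · by_cases hL : ∃ q, EndL K a c q
    · obtain ⟨q', hq'⟩ := hL
      refine (continuousOn_Ico_extendFrom_Ioo hc hq'.2.2).mono (fun t ht => ?_)
      have h1 := arcI_subset_Icc h ht
      refine ⟨h1.1, lt_of_le_of_ne h1.2 ?_⟩
      rintro rfl
      exact hR ((right_mem_arcI h).1 ht)
    · refine hc.congr_mono (fun t ht => arcG_eq h ht) ?_ |>.mono ?_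
      · exact subset_rfl
      · intro t ht
        have h1 := arcI_subset_Icc h ht
        refine ⟨lt_of_le_of_ne h1.1 ?_, lt_of_le_of_ne h1.2 ?_⟩
        · rintro rfl
          exact hL ((left_mem_arcI h).1 ht)
        · rintro rfl
          exact hR ((right_mem_arcI h).1 ht)

theorem arcG_mem (h : IsPar K a b c) {t : ℝ} (ht : t ∈ arcI K a b c) : arcG a b c t ∈ K := by
  rcases mem_arcI_cases h ht with ⟨_, _, h2⟩ | ⟨_, h2⟩ | ⟨_, h2⟩
  · exact h2.mem
  · exact h2.1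
  · exact h2.1

theorem injOn_arcG (h : IsPar K a b c) (hne : ∀ q, EndL K a c q → EndR K b c q → False) :
    InjOn (arcG a b c) (arcI K a b c) := by
  intro x hx y hy hxy
  rcases mem_arcI_cases h hx with ⟨x1, x2, x3⟩ | ⟨x1, x2⟩ | ⟨x1, x2⟩ <;>
  rcases mem_arcI_cases h hy with ⟨y1, y2, y3⟩ | ⟨y1, y2⟩ | ⟨y1, y2⟩
  · exact h.inj x1 y1 (by rw [← x2, ← y2, hxy])
  · exact absurd (hxy ▸ x3) y2.2.1
  · exact absurd (hxy ▸ x3) y2.2.1
  · exact absurd (hxy ▸ y3) x2.2.1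
  · rw [x1, y1]
  · exact (hne _ y2 (hxy ▸ x2)).elim
  · exact absurd (hxy ▸ y3) x2.2.1
  · exact (hne _ x2 (hxy ▸ y2)).elim
  · rw [x1, y1]

theorem isGreatest_arcI (h : IsPar K a b c) {m : ℝ} (hm : IsGreatest (arcI K a b c) m) :
    m = b ∧ EndR K b c (arcG a b c m) := by
  have h1 := arcI_subset_Icc h hm.1
  rcases mem_arcI_cases h hm.1 with ⟨h2, _, _⟩ | h2 | ⟨h2, _⟩
  · exfalso
    obtain ⟨t, ht1, ht2⟩ := exists_between h2.2
    have := hm.2 (Ioo_subset_arcI (K := K) (c := c) (⟨h2.1.trans ht1, ht2⟩ : t ∈ Ioo a b))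
    linarith
  · exact h2
  · exfalso
    have := hm.2 (Ioo_subset_arcI (K := K) (c := c)
      (⟨by linarith [h.lt], by linarith [h.lt]⟩ : (a + b) / 2 ∈ Ioo a b))
    linarith [h.lt]

theorem isLeast_arcI (h : IsPar K a b c) {m : ℝ} (hm : IsLeast (arcI K a b c) m) :
    m = a ∧ EndL K a c (arcG a b c m) := by
  have h1 := arcI_subset_Icc h hm.1
  rcases mem_arcI_cases h hm.1 with ⟨h2, _, _⟩ | ⟨h2, _⟩ | h2
  · exfalso
    obtain ⟨t, ht1, ht2⟩ := exists_between h2.1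
    have := hm.2 (Ioo_subset_arcI (K := K) (c := c) (⟨ht1, ht2.trans h2.2⟩ : t ∈ Ioo a b))
    linarith
  · exfalso
    have := hm.2 (Ioo_subset_arcI (K := K) (c := c)
      (⟨by linarith [h.lt], by linarith [h.lt]⟩ : (a + b) / 2 ∈ Ioo a b))
    linarith [h.lt]
  · exact h2

theorem EndR.isGreatest (h : IsPar K a b c) {q : ℂ} (hq : EndR K b c q) :
    IsGreatest (arcI K a b c) b :=
  ⟨(right_mem_arcI h).2 ⟨q, hq⟩, fun _ ht => (arcI_subset_Icc h ht).2⟩

theorem EndL.isLeast (h : IsPar K a b c) {q : ℂ} (hq : EndL K a c q) :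
    IsLeast (arcI K a b c) a :=
  ⟨(left_mem_arcI h).2 ⟨q, hq⟩, fun _ ht => (arcI_subset_Icc h ht).1⟩

theorem isEndpoint_arc (h : IsPar K a b c) {p : ℂ} :
    IsEndpoint (arcI K a b c) (arcG a b c) p ↔ EndR K b c p ∨ EndL K a c p := by
  constructor
  · rintro ⟨m, hm | hm, rfl⟩
    · obtain ⟨rfl, h2⟩ := isLeast_arcI h hm
      exact Or.inr h2
    · obtain ⟨rfl, h2⟩ := isGreatest_arcI h hm
      exact Or.inl h2
  · rintro (hp | hp)
    · exact ⟨b, Or.inr (hp.isGreatest h), arcG_right h hp⟩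
    · exact ⟨a, Or.inl (hp.isLeast h), arcG_left h hp⟩

theorem isArc_arc {Ω : Set ℂ} (hc : IsClosed (K ∪ Ωᶜ)) (hKΩ : K ⊆ Ω)
    (hloc : ∀ p ∈ K, IsRegPt K p ∨ ∃ (n : ℕ) (δ : ℝ) (σ : Fin n → ℝ → ℂ), IsStar K p n δ σ)
    (h : IsPar K a b c) (hne : ∀ q, EndL K a c q → EndR K b c q → False) :
    IsArc Ω (arcI K a b c) (arcG a b c) where
  ordConnected := ordConnected_arcI h
  nontrivial := by
    refine (Set.Ioo_infinite h.lt).nontrivial.mono Ioo_subset_arcI
  mapsTo := fun t ht => hKΩ (arcG_mem h ht)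
  continuousOn := continuousOn_arcG h
  injOn := injOn_arcG h hne
  contDiffOn := by
    rw [interior_arcI h]
    exact h.diff.congr (fun t ht => arcG_eq h ht)
  leaves_right := by
    intro hn M hM hMΩ
    rcases ga_end hc hKΩ hloc h with h1 | ⟨q, hq1, hq2, hq3⟩
    · obtain ⟨t₀, ht₀, h2⟩ := h1 M hM hMΩ
      have hm : (t₀ + b) / 2 ∈ Ioo a b := ⟨by linarith [ht₀.1, ht₀.2], by linarith [ht₀.2]⟩
      refine ⟨(t₀ + b) / 2, Ioo_subset_arcI hm, fun t ht htt => ?_⟩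
      have htb : t < b := by
        refine lt_of_le_of_ne (arcI_subset_Icc h ht).2 ?_
        rintro rfl
        obtain ⟨s, hs, hst⟩ := hn t ht
        exact absurd (arcI_subset_Icc h hs).2 (not_le.2 hst)
      have hta : a < t := hm.1.trans_le htt
      rw [arcG_eq h ⟨hta, htb⟩]
      exact h2 t ⟨by linarith [ht₀.2], htb⟩
    · exfalso
      have hb : b ∈ arcI K a b c := (right_mem_arcI h).2 ⟨q, hq1, hq2, hq3⟩
      obtain ⟨s, hs, hst⟩ := hn b hb
      exact absurd (arcI_subset_Icc h hs).2 (not_le.2 hst)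
  leaves_left := by
    intro hn M hM hMΩ
    rcases ga_end hc hKΩ hloc h.rev with h1 | ⟨q, hq1, hq2, hq3⟩
    · obtain ⟨t₀, ht₀, h2⟩ := h1 M hM hMΩ
      have hm : (a - t₀) / 2 ∈ Ioo a b := ⟨by linarith [ht₀.1, ht₀.2],
        by linarith [ht₀.1, ht₀.2, h.lt]⟩
      refine ⟨(a - t₀) / 2, Ioo_subset_arcI hm, fun t ht htt => ?_⟩
      have hta : a < t := by
        refine lt_of_le_of_ne (arcI_subset_Icc h ht).1 ?_
        rintro rfl
        obtain ⟨s, hs, hst⟩ := hn a ht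
        exact absurd (arcI_subset_Icc h hs).1 (not_le.2 hst)
      have htb : t < b := htt.trans_lt hm.2
      rw [arcG_eq h ⟨hta, htb⟩]
      have := h2 (-t) ⟨by linarith [ht₀.2], by linarith⟩
      simpa using this
    · exfalso
      have hq : EndL K a c q := EndL.rev.1 ⟨hq1, hq2, hq3⟩
      have hb : a ∈ arcI K a b c := (left_mem_arcI h).2 ⟨q, hq⟩
      obtain ⟨s, hs, hst⟩ := hn a hb
      exact absurd (arcI_subset_Icc h hs).1 (not_le.2 hst)

/-- the image of the closed arc between two vertices is compact and connected -/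
theorem arc_compact (h : IsPar K a b c) {q q' : ℂ} (hl : EndL K a c q) (hr : EndR K b c q') :
    IsCompact (c '' Ioo a b ∪ {q, q'}) ∧ IsPreconnected (c '' Ioo a b ∪ {q, q'}) := by
  have h1 : c '' Ioo a b ∪ {q, q'} = arcG a b c '' Icc a b := by
    rw [← Ioo_union_both h.lt.le, image_union, image_pair, arcG_left h hl, arcG_right h hr]
    congr 1
    exact image_congr (fun t ht => (arcG_eq h ht).symm)
  have h2 : ContinuousOn (arcG a b c) (Icc a b) :=
    continuousOn_Icc_extendFrom_Ioo h.diff.continuousOn hl.2.2 hr.2.2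
  rw [h1]
  exact ⟨isCompact_Icc.image_of_continuousOn h2, isPreconnected_Icc.image _ h2⟩

end

end Pool.Agent.MP099f24
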