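import Mathlib
import Pool.Agent.Lib.MP_099f24_an.GA.Defs

/-!
# Global assembly: the image of a maximal curve is a component; bounded parametrization
-/

set_option autoImplicit false

namespace Pool.Agent.MP099f24

open MeasureTheory Filter Topology Set Metric
open scoped ENNReal ContDiff

theorem compo_mem {K : Set ℂ} {p : ℂ} (h : IsRegPt K p) : p ∈ K := by
  obtain ⟨e, r, f, he, hr, hf, hf0, hh⟩ := h
  have := (hh 0 0 (by simpa) (by simpa)).2 (by simp [hf0])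
  simpa using this

theorem ga_compo {K : Set ℂ} {I : Set ℝ} {γ : ℝ → ℂ} (h : IsMaxUC K I γ) {t : ℝ} (ht : t ∈ I) :
    connectedComponentIn {z | IsRegPt K z} (γ t) = γ '' I := by
  have hcont : ContinuousOn γ I := h.diff.continuousOn
  have hsub : γ '' I ⊆ {z | IsRegPt K z} := by
    rintro _ ⟨s, hs, rfl⟩
    exact h.reg s hs
  have hpre : IsPreconnected (γ '' I) := (h.ord.isPreconnected).image γ hcont
  apply Subset.antisymm
  · have hconn : IsPreconnected (connectedComponentIn {z | IsRegPt K z} (γ t)) :=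
      isPreconnected_connectedComponentIn
    have hCR : connectedComponentIn {z | IsRegPt K z} (γ t) ⊆ {z | IsRegPt K z} :=
      connectedComponentIn_subset _ _
    have hclo : ∀ q, IsRegPt K q → q ∈ closure (γ '' I) → q ∈ γ '' I := by
      intro q hq hqc
      obtain ⟨δ, hδ, hh⟩ := h.ext q hq
      obtain ⟨U, hU, hUU⟩ := hh δ hδ
      obtain ⟨y, hyU, ⟨s, hs, rfl⟩⟩ := mem_closure_iff_nhds.1 hqc U hU
      obtain ⟨-, t', ht', -, h'⟩ := hUU s hs hyU
      exact ⟨t', ht', h'⟩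
    intro z hz
    by_contra hne
    have hO : IsOpen (⋃₀ {U : Set ℂ | IsOpen U ∧ K ∩ U ⊆ γ '' I}) :=
      isOpen_sUnion (fun U hU => hU.1)
    have hAO : γ '' I ⊆ ⋃₀ {U : Set ℂ | IsOpen U ∧ K ∩ U ⊆ γ '' I} := by
      rintro _ ⟨s, hs, rfl⟩
      obtain ⟨U, hU, hKU⟩ := h.opn s hs 1 one_pos
      obtain ⟨V, hVU, hVo, hV⟩ := _root_.mem_nhds_iff.1 hU
      refine mem_sUnion.2 ⟨V, ⟨hVo, ?_⟩, hV⟩
      intro w hw
      obtain ⟨s', hs', rfl⟩ := hKU ⟨hw.1, hVU hw.2⟩
      exact ⟨s', hs'.1, rfl⟩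
    obtain ⟨w, hwC, hwO, hwA⟩ := hconn _ (closure (γ '' I))ᶜ hO isClosed_closure.isOpen_compl
      (by
        intro w hw
        by_cases hwc : w ∈ closure (γ '' I)
        · exact Or.inl (hAO (hclo w (hCR hw) hwc))
        · exact Or.inr hwc)
      ⟨γ t, mem_connectedComponentIn (h.reg t ht), hAO ⟨t, ht, rfl⟩⟩
      ⟨z, hz, fun hzc => hne (hclo z (hCR hz) hzc)⟩
    obtain ⟨U, ⟨-, hU⟩, hwU⟩ := mem_sUnion.1 hwO
    exact hwA (subset_closure (hU ⟨compo_mem (hCR hwC), hwU⟩))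
  · exact hpre.subset_connectedComponentIn ⟨t, ht, rfl⟩ hsub

theorem ga_par {K : Set ℂ} {I : Set ℝ} {γ : ℝ → ℂ} (h : IsMaxUC K I γ) (hi : InjOn γ I) :
    ∃ (a b : ℝ) (c : ℝ → ℂ), IsPar K a b c ∧ c '' Ioo a b = γ '' I := by
  -- the set of parameters
  obtain ⟨J, hJdef⟩ : ∃ J : Set ℝ, J = Real.arctan '' I := ⟨_, rfl⟩
  have hatan : Continuous Real.arctan := Real.continuous_arctan
  have hJtan : ∀ x ∈ J, Real.tan x ∈ I ∧ x ∈ Ioo (-(Real.pi / 2)) (Real.pi / 2) := by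
    intro x hx
    rw [hJdef] at hx
    obtain ⟨s, hs, rfl⟩ := hx
    exact ⟨by rwa [Real.tan_arctan], Real.arctan_mem_Ioo s⟩
  have hJtan' : ∀ x ∈ Ioo (-(Real.pi / 2)) (Real.pi / 2), Real.tan x ∈ I → x ∈ J := by
    intro x hx hxI
    rw [hJdef]
    exact ⟨Real.tan x, hxI, Real.arctan_tan hx.1 hx.2⟩
  have hJne : J.Nonempty := by
    rw [hJdef]
    exact h.nonempty.image _
  have hJpre : IsPreconnected J := by
    rw [hJdef]
    exact (h.ord.isPreconnected).image _ hatan.continuousOn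
  have hJopen : ∀ x ∈ J, ∃ ε > 0, x - ε ∈ J ∧ x + ε ∈ J := by
    intro x hx
    obtain ⟨hxI, hx2⟩ := hJtan x hx
    have hct : ContinuousAt Real.tan x := by
      apply Real.continuousAt_tan.2
      exact (Real.cos_pos_of_mem_Ioo hx2).ne'
    have h1 : ∀ᶠ y in 𝓝 x, Real.tan y ∈ I := hct (h.isOpen.mem_nhds hxI)
    have h2 : ∀ᶠ y in 𝓝 x, y ∈ Ioo (-(Real.pi / 2)) (Real.pi / 2) := isOpen_Ioo.mem_nhds hx2
    obtain ⟨ε, hε, hball⟩ := Metric.eventually_nhds_iff.1 (h1.and h2)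
    refine ⟨ε / 2, by positivity, ?_, ?_⟩
    · have := hball (y := x - ε / 2) (by rw [Real.dist_eq]; rw [abs_lt]; constructor <;> linarith)
      exact hJtan' _ this.2 this.1
    · have := hball (y := x + ε / 2) (by rw [Real.dist_eq]; rw [abs_lt]; constructor <;> linarith)
      exact hJtan' _ this.2 this.1
  have hbb : BddBelow J := ⟨-(Real.pi / 2), fun x hx => (hJtan x hx).2.1.le⟩
  have hba : BddAbove J := ⟨Real.pi / 2, fun x hx => (hJtan x hx).2.2.le⟩
  have hJeq : J = Ioo (sInf J) (sSup J) := by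
    apply Subset.antisymm
    · intro x hx
      obtain ⟨ε, hε, h1, h2⟩ := hJopen x hx
      constructor
      · have := csInf_le hbb h1
        linarith
      · have := le_csSup hba h2
        linarith
    · exact IsConnected.Ioo_csInf_csSup_subset ⟨hJne, hJpre⟩ hbb hba
  obtain ⟨a, ha⟩ : ∃ a, a = sInf J := ⟨_, rfl⟩
  obtain ⟨b, hb⟩ : ∃ b, b = sSup J := ⟨_, rfl⟩
  rw [← ha, ← hb] at hJeq
  have hmem : ∀ x, x ∈ Ioo a b ↔ x ∈ J := fun x => by rw [← hJeq]
  have hcos : ∀ x ∈ Ioo a b, Real.cos x ≠ 0 := by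
    intro x hx
    exact (Real.cos_pos_of_mem_Ioo (hJtan x ((hmem x).1 hx)).2).ne'
  have hmaps : MapsTo Real.tan (Ioo a b) I := fun x hx => (hJtan x ((hmem x).1 hx)).1
  have himg : (fun x => γ (Real.tan x)) '' Ioo a b = γ '' I := by
    ext z
    constructor
    · rintro ⟨x, hx, rfl⟩
      exact ⟨Real.tan x, hmaps hx, rfl⟩
    · rintro ⟨s, hs, rfl⟩
      refine ⟨Real.arctan s, (hmem _).2 (by rw [hJdef]; exact ⟨s, hs, rfl⟩), ?_⟩
      simp only [Real.tan_arctan]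
  have hlt : a < b := by
    obtain ⟨x, hx⟩ := hJne
    have := (hmem x).2 hx
    exact this.1.trans this.2
  -- the two ends
  have hend : ∀ q, IsRegPt K q → ∃ δ > 0, ∃ U ∈ 𝓝 q, ∀ s₁ ∈ I, ∀ s₂ ∈ I, γ s₁ ∈ U → γ s₂ ∈ U →
      |s₁ - s₂| < δ / 2 ∧ Ioo (s₁ - δ) (s₁ + δ) ⊆ I := by
    intro q hq
    obtain ⟨δ, hδ, hh⟩ := h.ext q hq
    obtain ⟨U, hU, hUU⟩ := hh (δ / 4) (by positivity)
    refine ⟨δ, hδ, U, hU, ?_⟩
    intro s₁ h₁ s₂ h₂ hU₁ hU₂
    obtain ⟨hI1, t₁, ht₁, hd1, hq1⟩ := hUU s₁ h₁ hU₁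
    obtain ⟨hI2, t₂, ht₂, hd2, hq2⟩ := hUU s₂ h₂ hU₂
    refine ⟨?_, hI1⟩
    have : t₁ = t₂ := hi ht₁ ht₂ (hq1.trans hq2.symm)
    subst this
    rw [abs_lt] at *
    constructor <;> linarith [hd1.1, hd1.2, hd2.1, hd2.2]
  have hatan_mono : StrictMono Real.arctan := Real.arctan_strictMono
  refine ⟨a, b, fun x => γ (Real.tan x), ?_, himg⟩
  refine
    { lt := hlt
      diff := ?_
      deriv_ne := ?_
      inj := ?_
      reg := fun t ht => h.reg _ (hmaps ht)
      opn := ?_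
      right := ?_
      left := ?_ }
  · refine ContDiffOn.comp h.diff ?_ hmaps
    intro x hx
    exact (Real.contDiffAt_tan.2 (hcos x hx)).contDiffWithinAt
  · intro t ht
    have h1 : HasDerivAt γ (deriv γ (Real.tan t)) (Real.tan t) := by
      apply DifferentiableAt.hasDerivAt
      exact ((h.diff.differentiableOn one_ne_zero) _ (hmaps ht)).differentiableAt
        (h.isOpen.mem_nhds (hmaps ht))
    have h2 : HasDerivAt Real.tan (1 / Real.cos t ^ 2) t := Real.hasDerivAt_tan (hcos t ht)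
    have h3 := h1.scomp t h2
    have h4 : deriv (fun x => γ (Real.tan x)) t = (1 / Real.cos t ^ 2) • deriv γ (Real.tan t) :=
      h3.deriv
    rw [h4]
    apply smul_ne_zero
    · have := hcos t ht
      positivity
    · intro h0
      have := h.speed _ (hmaps ht)
      rw [h0, norm_zero] at this
      exact zero_ne_one this
  · intro x hx y hy hxy
    have h1 := hi (hmaps hx) (hmaps hy) hxy
    have hx' := (hJtan x ((hmem x).1 hx)).2
    have hy' := (hJtan y ((hmem y).1 hy)).2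
    rw [← Real.arctan_tan hx'.1 hx'.2, h1, Real.arctan_tan hy'.1 hy'.2]
  · intro t ht ε hε
    have ht' := (hJtan t ((hmem t).1 ht)).2
    have hca : ContinuousAt Real.arctan (Real.tan t) := hatan.continuousAt
    obtain ⟨ε', hε', hh⟩ := Metric.continuousAt_iff.1 hca ε hε
    obtain ⟨U, hU, hKU⟩ := h.opn (Real.tan t) (hmaps ht) ε' hε'
    refine ⟨U, hU, ?_⟩
    intro z hz
    obtain ⟨s, ⟨hsI, hs⟩, rfl⟩ := hKU hz
    have h1 : dist s (Real.tan t) < ε' := by
      rw [Real.dist_eq, abs_lt]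
      constructor <;> linarith [hs.1, hs.2]
    have h2 := hh h1
    rw [Real.arctan_tan ht'.1 ht'.2, Real.dist_eq, abs_lt] at h2
    refine ⟨Real.arctan s, ⟨(hmem _).2 (by rw [hJdef]; exact ⟨s, hsI, rfl⟩), ?_⟩, ?_⟩
    · constructor <;> linarith [h2.1, h2.2]
    · simp only [Real.tan_arctan]
  · intro q hq
    obtain ⟨δ, hδ, U, hU, hUU⟩ := hend q hq
    refine ⟨U, hU, ?_⟩
    by_cases hex : ∃ x ∈ Ioo a b, γ (Real.tan x) ∈ U
    · obtain ⟨x, hx, hxU⟩ := hex
      -- the interval around `tan x` is in `I`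
      have hI := (hUU _ (hmaps hx) _ (hmaps hx) hxU hxU).2
      have h0 : Real.arctan (Real.tan x + 3 * δ / 4) ∈ Ioo a b := by
        rw [hmem, hJdef]
        exact ⟨_, hI ⟨by linarith, by linarith⟩, rfl⟩
      refine ⟨_, h0.2, ?_⟩
      intro t ht htU
      have htab : t ∈ Ioo a b := ⟨h0.1.trans ht.1, ht.2⟩
      have h1 := (hUU _ (hmaps hx) _ (hmaps htab) hxU htU).1
      have ht' := (hJtan t ((hmem t).1 htab)).2
      have h2 : Real.arctan (Real.tan x + 3 * δ / 4) < Real.arctan (Real.tan t) := by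
        rw [Real.arctan_tan ht'.1 ht'.2]
        exact ht.1
      have h3 := hatan_mono.lt_iff_lt.1 h2
      rw [abs_lt] at h1
      linarith [h1.1, h1.2]
    · refine ⟨a, hlt, ?_⟩
      intro t ht htU
      exact hex ⟨t, ht, htU⟩
  · intro q hq
    obtain ⟨δ, hδ, U, hU, hUU⟩ := hend q hq
    refine ⟨U, hU, ?_⟩
    by_cases hex : ∃ x ∈ Ioo a b, γ (Real.tan x) ∈ U
    · obtain ⟨x, hx, hxU⟩ := hex
      have hI := (hUU _ (hmaps hx) _ (hmaps hx) hxU hxU).2
      have h0 : Real.arctan (Real.tan x - 3 * δ / 4) ∈ Ioo a b := by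
        rw [hmem, hJdef]
        exact ⟨_, hI ⟨by linarith, by linarith⟩, rfl⟩
      refine ⟨_, h0.1, ?_⟩
      intro t ht htU
      have htab : t ∈ Ioo a b := ⟨ht.1, ht.2.trans h0.2⟩
      have h1 := (hUU _ (hmaps hx) _ (hmaps htab) hxU htU).1
      have ht' := (hJtan t ((hmem t).1 htab)).2
      have h2 : Real.arctan (Real.tan t) < Real.arctan (Real.tan x - 3 * δ / 4) := by
        rw [Real.arctan_tan ht'.1 ht'.2]
        exact ht.2
      have h3 := hatan_mono.lt_iff_lt.1 h2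
      rw [abs_lt] at h1
      linarith [h1.1, h1.2]
    · refine ⟨b, hlt, ?_⟩
      intro t ht htU
      exact hex ⟨t, ht, htU⟩

end Pool.Agent.MP099f24
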