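import Mathlib
import Pool.Agent.Lib.MP_099f24_an.GA.Defs
import Pool.Agent.Lib.MP_099f24_an.GA.Chart

/-!
# Global assembly: maximal curves of unit speed in the set of regular points
-/

namespace Pool.Agent.MP099f24

open MeasureTheory Filter Topology Set Metric
open scoped ENNReal ContDiff

theorem maxc_mem {K : Set ℂ} {p : ℂ} (h : IsRegPt K p) : p ∈ K := by
  obtain ⟨e, r, f, _, hr, _, hf0, hiff⟩ := h
  have h1 := (hiff 0 0 (by simpa using hr) (by simpa using hr)).mpr hf0.symm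
  simpa using h1

theorem maxc_diffAt {K : Set ℂ} {I : Set ℝ} {g : ℝ → ℂ} (h : IsUC K I g) {t : ℝ} (ht : t ∈ I) :
    DifferentiableAt ℝ g t :=
  (h.diff.contDiffAt (h.isOpen.mem_nhds ht)).differentiableAt one_ne_zero

theorem maxc_contAt {K : Set ℂ} {I : Set ℝ} {g : ℝ → ℂ} (h : IsUC K I g) {t : ℝ} (ht : t ∈ I) :
    ContinuousAt g t := (maxc_diffAt h ht).continuousAt

theorem maxc_deriv_cont {K : Set ℂ} {I : Set ℝ} {g : ℝ → ℂ} (h : IsUC K I g) {t : ℝ}
    (ht : t ∈ I) : ContinuousAt (deriv g) t :=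
  ((h.diff.continuousOn_deriv_of_isOpen h.isOpen le_rfl) t ht).continuousAt
    (h.isOpen.mem_nhds ht)

theorem maxc_chart_uc {K : Set ℂ} {p : ℂ} {δ : ℝ} {σ : ℝ → ℂ} {D : Set ℂ}
    (h : IsChart K p δ σ D) : IsUC K (Ioo (-δ) δ) σ where
  isOpen := isOpen_Ioo
  ord := ordConnected_Ioo
  diff := h.diff
  speed := h.speed
  reg := fun t ht => h.reg _ (h.image ▸ mem_image_of_mem σ ht)

theorem maxc_sq {s : ℝ} (hs : s = 1 ∨ s = -1) : s * s = 1 := by
  rcases hs with rfl | rfl <;> norm_num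

theorem maxc_abs {s : ℝ} (hs : s = 1 ∨ s = -1) : |s| = 1 := by
  rcases hs with rfl | rfl <;> norm_num

/-- a curve of unit speed at a chart point -/
theorem maxc_loc {K : Set ℂ} {p : ℂ} {δ : ℝ} {σ : ℝ → ℂ} {D : Set ℂ}
    (hch : IsChart K p δ σ D) {I : Set ℝ} {g : ℝ → ℂ} (h : IsUC K I g) {t : ℝ} (ht : t ∈ I)
    (hp : g t = p) : ∃ s : ℝ, (s = 1 ∨ s = -1) ∧ ∃ η > 0, ∀ x, |x| < η →
      t + x ∈ I ∧ s * x ∈ Ioo (-δ) δ ∧ g (t + x) = σ (s * x) := by
  have h1 : I ∩ g ⁻¹' D ∈ 𝓝 t := by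
    apply inter_mem (h.isOpen.mem_nhds ht)
    apply (maxc_contAt h ht).preimage_mem_nhds
    rw [hp]
    exact hch.isOpen.mem_nhds hch.mem
  obtain ⟨η, hη, hball⟩ := Metric.mem_nhds_iff.mp h1
  have hsub : Ioo (t - η) (t + η) ⊆ I ∩ g ⁻¹' D := by
    rw [← Real.ball_eq_Ioo]
    exact hball
  obtain ⟨s, c, hs, hsc⟩ := hch.uniq g (t - η) (t + η) (by linarith)
    (h.diff.mono (fun x hx => (hsub hx).1)) (fun x hx => h.speed x (hsub hx).1)
    (fun x hx => ⟨maxc_mem (h.reg x (hsub hx).1), (hsub hx).2⟩)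
  have htm : t ∈ Ioo (t - η) (t + η) := ⟨by linarith, by linarith⟩
  have h0 : s * t + c = 0 := by
    apply hch.inj (hsc t htm).1 ⟨by linarith [hch.pos], hch.pos⟩
    rw [← (hsc t htm).2, hch.zero, hp]
  refine ⟨s, hs, η, hη, ?_⟩
  intro x hx
  rw [abs_lt] at hx
  have hxm : t + x ∈ Ioo (t - η) (t + η) := ⟨by linarith, by linarith⟩
  have h2 := hsc (t + x) hxm
  have h3 : s * (t + x) + c = s * x := by linear_combination h0
  rw [h3] at h2
  exact ⟨(hsub hxm).1, h2.1, h2.2⟩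

/-- local uniqueness -/
theorem maxc_lu {K : Set ℂ} {I₁ I₂ : Set ℝ} {g₁ g₂ : ℝ → ℂ} (h₁ : IsUC K I₁ g₁)
    (h₂ : IsUC K I₂ g₂) {t₁ t₂ : ℝ} (ht₁ : t₁ ∈ I₁) (ht₂ : t₂ ∈ I₂) (he : g₁ t₁ = g₂ t₂) :
    ∃ s : ℝ, (s = 1 ∨ s = -1) ∧ ∃ η > 0, ∀ x, |x| < η →
      t₁ + x ∈ I₁ ∧ t₂ + s * x ∈ I₂ ∧ g₁ (t₁ + x) = g₂ (t₂ + s * x) := by
  obtain ⟨δ, σ, D, hch⟩ := ga_chart (h₁.reg t₁ ht₁)
  obtain ⟨s₁, hs₁, η₁, hη₁, hl₁⟩ := maxc_loc hch h₁ ht₁ rfl
  obtain ⟨s₂, hs₂, η₂, hη₂, hl₂⟩ := maxc_loc hch h₂ ht₂ he.symm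
  refine ⟨s₂ * s₁, ?_, min η₁ η₂, lt_min hη₁ hη₂, ?_⟩
  · rcases hs₁ with rfl | rfl <;> rcases hs₂ with rfl | rfl <;> norm_num
  · intro x hx
    have hx1 := hx.trans_le (min_le_left _ _)
    have hx2 : |s₂ * s₁ * x| < η₂ := by
      rw [abs_mul, abs_mul, maxc_abs hs₁, maxc_abs hs₂]
      simpa using hx.trans_le (min_le_right _ _)
    obtain ⟨a1, _, a3⟩ := hl₁ x hx1
    obtain ⟨b1, _, b3⟩ := hl₂ _ hx2
    refine ⟨a1, b1, ?_⟩
    rw [a3, b3]
    congr 1
    have := maxc_sq hs₂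
    calc s₁ * x = (s₂ * s₂) * (s₁ * x) := by rw [this, one_mul]
      _ = s₂ * (s₂ * s₁ * x) := by ring

/-- composition with an isometry of the line -/
theorem maxc_comp {K : Set ℂ} {I : Set ℝ} {g : ℝ → ℂ} (h : IsUC K I g) {s : ℝ}
    (hs : s = 1 ∨ s = -1) (c : ℝ) :
    IsUC K ((fun t => s * t + c) ⁻¹' I) (fun t => g (s * t + c)) := by
  have hder : ∀ t, s * t + c ∈ I → HasDerivAt (fun t => g (s * t + c)) (s • deriv g (s * t + c)) t := by
    intro t ht
    have h1 : HasDerivAt (fun t : ℝ => s * t + c) s t := by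
      simpa using ((hasDerivAt_id t).const_mul s).add_const c
    exact (maxc_diffAt h ht).hasDerivAt.scomp t h1
  refine ⟨?_, ?_, ?_, ?_, ?_⟩
  · exact h.isOpen.preimage (by fun_prop)
  · rcases hs with rfl | rfl
    · have := h.ord
      exact this.preimage_mono (fun a b hab => by
        show 1 * a + c ≤ 1 * b + c
        linarith)
    · have := h.ord
      exact this.preimage_anti (fun a b hab => by
        show -1 * b + c ≤ -1 * a + c
        linarith)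
  · apply h.diff.comp
    · exact (ContDiff.contDiffOn (by fun_prop))
    · exact fun t ht => ht
  · intro t ht
    rw [(hder t ht).deriv, norm_smul, h.speed _ ht, Real.norm_eq_abs, maxc_abs hs, one_mul]
  · exact fun t ht => h.reg _ ht

/-- relation between the derivatives under local agreement -/
theorem maxc_deriv_rel {K : Set ℂ} {I₂ : Set ℝ} {g₁ g₂ : ℝ → ℂ} (h₂ : IsUC K I₂ g₂)
    {t₁ t₂ s η : ℝ} (hη : 0 < η) (ht₂ : t₂ ∈ I₂)
    (he : ∀ x, |x| < η → g₁ (t₁ + x) = g₂ (t₂ + s * x)) :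
    deriv g₁ t₁ = s • deriv g₂ t₂ := by
  have h1 : HasDerivAt (fun t : ℝ => s * t + (t₂ - s * t₁)) s t₁ := by
    simpa using ((hasDerivAt_id t₁).const_mul s).add_const (t₂ - s * t₁)
  have h0 : s * t₁ + (t₂ - s * t₁) = t₂ := by ring
  have h2 : HasDerivAt (fun t => g₂ (s * t + (t₂ - s * t₁))) (s • deriv g₂ t₂) t₁ := by
    have h3 : HasDerivAt g₂ (deriv g₂ t₂) (s * t₁ + (t₂ - s * t₁)) := by
      rw [h0]; exact (maxc_diffAt h₂ ht₂).hasDerivAt
    exact h3.scomp t₁ h1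
  have h4 : g₁ =ᶠ[𝓝 t₁] (fun t => g₂ (s * t + (t₂ - s * t₁))) := by
    filter_upwards [Metric.ball_mem_nhds t₁ hη] with y hy
    rw [Real.ball_eq_Ioo] at hy
    have h5 := he (y - t₁) (by rw [abs_lt]; constructor <;> linarith [hy.1, hy.2])
    rw [show t₁ + (y - t₁) = y by ring] at h5
    rw [h5]
    congr 1
    ring
  exact (h2.congr_of_eventuallyEq h4).deriv

theorem maxc_deriv_ne {K : Set ℂ} {I : Set ℝ} {g : ℝ → ℂ} (h : IsUC K I g) {t : ℝ} (ht : t ∈ I) :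
    deriv g t ≠ 0 := by
  intro h0
  have := h.speed t ht
  rw [h0, norm_zero] at this
  exact zero_ne_one this

/-- global uniqueness -/
theorem maxc_gu {K : Set ℂ} {I₁ I₂ : Set ℝ} {g₁ g₂ : ℝ → ℂ} (h₁ : IsUC K I₁ g₁)
    (h₂ : IsUC K I₂ g₂) {t₀ : ℝ} (ht₁ : t₀ ∈ I₁) (ht₂ : t₀ ∈ I₂) (he : g₁ t₀ = g₂ t₀)
    (hd : deriv g₁ t₀ = deriv g₂ t₀) : EqOn g₁ g₂ (I₁ ∩ I₂) := by
  set A : Set ℝ := {t | t ∈ I₁ ∩ I₂ ∧ g₁ t = g₂ t ∧ deriv g₁ t = deriv g₂ t} with hA
  have hpre : IsPreconnected (I₁ ∩ I₂) := (h₁.ord.inter h₂.ord).isPreconnected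
  have hAo : IsOpen A := by
    rw [isOpen_iff_mem_nhds]
    rintro t ⟨⟨hm1, hm2⟩, hv, hdv⟩
    obtain ⟨s, hs, η, hη, hx⟩ := maxc_lu h₁ h₂ hm1 hm2 hv
    have hrel := maxc_deriv_rel h₂ hη hm2 (fun x hx' => (hx x hx').2.2)
    have hs1 : s = 1 := by
      rcases hs with rfl | rfl
      · rfl
      · exfalso
        rw [hdv, neg_one_smul] at hrel
        exact maxc_deriv_ne h₂ hm2 (self_eq_neg.mp hrel)
    subst hs1
    have hev : g₁ =ᶠ[𝓝 t] g₂ := by
      filter_upwards [Metric.ball_mem_nhds t hη] with y hy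
      rw [Real.ball_eq_Ioo] at hy
      have h5 := (hx (y - t) (by rw [abs_lt]; constructor <;> linarith [hy.1, hy.2])).2.2
      rw [one_mul, show t + (y - t) = y by ring] at h5
      exact h5
    filter_upwards [hev, hev.eventuallyEq_nhds.mono (fun y hy => hy.deriv_eq),
      (h₁.isOpen.inter h₂.isOpen).mem_nhds ⟨hm1, hm2⟩] with y hy1 hy2 hy3
    exact ⟨hy3, hy1, hy2⟩
  have hsub : I₁ ∩ I₂ ⊆ A := by
    apply hpre.subset_of_closure_inter_subset hAo ⟨t₀, ⟨ht₁, ht₂⟩, ⟨ht₁, ht₂⟩, he, hd⟩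
    rintro t ⟨htc, htm⟩
    have hne : (𝓝[A] t).NeBot := mem_closure_iff_nhdsWithin_neBot.mp htc
    refine ⟨htm, ?_, ?_⟩
    · apply tendsto_nhds_unique_of_eventuallyEq
        ((maxc_contAt h₁ htm.1).tendsto.mono_left (nhdsWithin_le_nhds (s := A)))
        ((maxc_contAt h₂ htm.2).tendsto.mono_left (nhdsWithin_le_nhds (s := A)))
      filter_upwards [self_mem_nhdsWithin] with y hy using hy.2.1
    · apply tendsto_nhds_unique_of_eventuallyEq
        ((maxc_deriv_cont h₁ htm.1).tendsto.mono_left (nhdsWithin_le_nhds (s := A)))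
        ((maxc_deriv_cont h₂ htm.2).tendsto.mono_left (nhdsWithin_le_nhds (s := A)))
      filter_upwards [self_mem_nhdsWithin] with y hy using hy.2.2
  exact fun t ht => (hsub ht).2.1

/-- gluing -/
theorem maxc_union {K : Set ℂ} {I₁ I₂ : Set ℝ} {g₁ g₂ : ℝ → ℂ} [DecidablePred (· ∈ I₁)]
    (h₁ : IsUC K I₁ g₁) (h₂ : IsUC K I₂ g₂) (hne : (I₁ ∩ I₂).Nonempty)
    (he : EqOn g₁ g₂ (I₁ ∩ I₂)) :
    IsUC K (I₁ ∪ I₂) (fun x => if x ∈ I₁ then g₁ x else g₂ x) := by
  set g : ℝ → ℂ := fun x => if x ∈ I₁ then g₁ x else g₂ x with hg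
  have e1 : ∀ t ∈ I₁, g =ᶠ[𝓝 t] g₁ := by
    intro t ht
    filter_upwards [h₁.isOpen.mem_nhds ht] with y hy
    rw [hg]; simp only; rw [if_pos hy]
  have e2 : ∀ t ∈ I₂, g =ᶠ[𝓝 t] g₂ := by
    intro t ht
    filter_upwards [h₂.isOpen.mem_nhds ht] with y hy
    rw [hg]; simp only
    split_ifs with h
    · exact he ⟨h, hy⟩
    · rfl
  refine ⟨h₁.isOpen.union h₂.isOpen, ?_, ?_, ?_, ?_⟩
  · exact (h₁.ord.isPreconnected.union' hne h₂.ord.isPreconnected).ordConnected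
  · rintro t (ht | ht)
    · exact ((h₁.diff.contDiffAt (h₁.isOpen.mem_nhds ht)).congr_of_eventuallyEq
        (e1 t ht)).contDiffWithinAt
    · exact ((h₂.diff.contDiffAt (h₂.isOpen.mem_nhds ht)).congr_of_eventuallyEq
        (e2 t ht)).contDiffWithinAt
  · rintro t (ht | ht)
    · rw [(e1 t ht).deriv_eq]; exact h₁.speed t ht
    · rw [(e2 t ht).deriv_eq]; exact h₂.speed t ht
  · rintro t (ht | ht)
    · rw [(e1 t ht).eq_of_nhds]; exact h₁.reg t ht
    · rw [(e2 t ht).eq_of_nhds]; exact h₂.reg t ht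

/-- existence of a curve that cannot be extended -/
theorem maxc_exists {K : Set ℂ} {p : ℂ} (hp : IsRegPt K p) :
    ∃ (I : Set ℝ) (g : ℝ → ℂ), IsUC K I g ∧ (0 : ℝ) ∈ I ∧ g 0 = p ∧
      ∀ (J : Set ℝ) (β : ℝ → ℂ), IsUC K J β → ∀ t ∈ I, t ∈ J → g t = β t →
        deriv g t = deriv β t → J ⊆ I ∧ EqOn β g J := by
  classical
  obtain ⟨δ, σ, D, hch⟩ := ga_chart hp
  have hσ := maxc_chart_uc hch
  have h0δ : (0 : ℝ) ∈ Ioo (-δ) δ := ⟨by linarith [hch.pos], hch.pos⟩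
  set CC : Set (Set ℝ × (ℝ → ℂ)) :=
    {P | IsUC K P.1 P.2 ∧ (0 : ℝ) ∈ P.1 ∧ P.2 0 = p ∧ deriv P.2 0 = deriv σ 0} with hCC
  have hσC : (Ioo (-δ) δ, σ) ∈ CC := ⟨hσ, h0δ, hch.zero, rfl⟩
  set I : Set ℝ := {t | ∃ P ∈ CC, t ∈ P.1} with hI
  set g : ℝ → ℂ := fun t => if h : ∃ P ∈ CC, t ∈ P.1 then h.choose.2 t else 0 with hg
  have hagree : ∀ P ∈ CC, EqOn g P.2 P.1 := by
    intro P hP t ht
    have hex : ∃ P ∈ CC, t ∈ P.1 := ⟨P, hP, ht⟩
    have h1 : g t = hex.choose.2 t := by rw [hg]; simp only; rw [dif_pos hex]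
    rw [h1]
    have hQ := hex.choose_spec
    exact maxc_gu hQ.1.1 hP.1 hQ.1.2.1 hP.2.1 (hQ.1.2.2.1.trans hP.2.2.1.symm)
      (hQ.1.2.2.2.trans hP.2.2.2.symm) ⟨hQ.2, ht⟩
  have hsubI : ∀ P ∈ CC, P.1 ⊆ I := fun P hP t ht => ⟨P, hP, ht⟩
  have hIU : I = ⋃₀ {S | ∃ P ∈ CC, P.1 = S} := by
    ext t
    constructor
    · rintro ⟨P, hP, ht⟩
      exact ⟨P.1, ⟨P, hP, rfl⟩, ht⟩
    · rintro ⟨S, ⟨P, hP, rfl⟩, ht⟩
      exact ⟨P, hP, ht⟩
  have hev : ∀ P ∈ CC, ∀ t ∈ P.1, g =ᶠ[𝓝 t] P.2 := by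
    intro P hP t ht
    filter_upwards [hP.1.isOpen.mem_nhds ht] with y hy using hagree P hP hy
  have h0I : (0 : ℝ) ∈ I := hsubI _ hσC h0δ
  have hUC : IsUC K I g := by
    refine ⟨?_, ?_, ?_, ?_, ?_⟩
    · rw [hIU]
      apply isOpen_sUnion
      rintro S ⟨P, hP, rfl⟩
      exact hP.1.isOpen
    · rw [hIU]
      apply IsPreconnected.ordConnected
      apply isPreconnected_sUnion 0
      · rintro S ⟨P, hP, rfl⟩
        exact hP.2.1
      · rintro S ⟨P, hP, rfl⟩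
        exact hP.1.ord.isPreconnected
    · rintro t ⟨P, hP, ht⟩
      exact ((hP.1.diff.contDiffAt (hP.1.isOpen.mem_nhds ht)).congr_of_eventuallyEq
        (hev P hP t ht)).contDiffWithinAt
    · rintro t ⟨P, hP, ht⟩
      rw [(hev P hP t ht).deriv_eq]; exact hP.1.speed t ht
    · rintro t ⟨P, hP, ht⟩
      rw [hagree P hP ht]; exact hP.1.reg t ht
  refine ⟨I, g, hUC, h0I, ?_, ?_⟩
  · exact (hagree _ hσC h0δ).trans hch.zero
  · intro J β hJ t htI htJ hv hd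
    have heq := maxc_gu hUC hJ htI htJ hv hd
    have hun := maxc_union hUC hJ ⟨t, htI, htJ⟩ heq
    set g' : ℝ → ℂ := fun x => if x ∈ I then g x else β x with hg'
    have hev' : g' =ᶠ[𝓝 0] g := by
      filter_upwards [hUC.isOpen.mem_nhds h0I] with y hy
      rw [hg']; simp only; rw [if_pos hy]
    have hmem : (I ∪ J, g') ∈ CC := by
      refine ⟨hun, Or.inl h0I, ?_, ?_⟩
      · show g' 0 = p
        rw [hev'.eq_of_nhds]
        exact (hagree _ hσC h0δ).trans hch.zero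
      · show deriv g' 0 = _
        rw [hev'.deriv_eq, (hev _ hσC 0 h0δ).deriv_eq]
    have hJI : J ⊆ I := fun x hx => hsubI _ hmem (Or.inr hx)
    exact ⟨hJI, fun x hx => (heq ⟨hJI hx, hx⟩).symm⟩

theorem ga_maxc {K : Set ℂ} {p : ℂ} (h : IsRegPt K p) :
    ∃ (I : Set ℝ) (γ : ℝ → ℂ), IsMaxUC K I γ ∧ p ∈ γ '' I := by
  obtain ⟨I, g, hUC, h0I, hg0, hext⟩ := maxc_exists h
  -- extension from local agreement
  have hext' : ∀ (J : Set ℝ) (β : ℝ → ℂ), IsUC K J β → ∀ t ∈ I, t ∈ J → ∀ η > 0,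
      (∀ x, |x| < η → g (t + x) = β (t + x)) → J ⊆ I ∧ EqOn β g J := by
    intro J β hJ t htI htJ η hη hx
    have hv : g t = β t := by simpa using hx 0 (by simpa using hη)
    have hd : deriv g t = deriv β t := by
      have := maxc_deriv_rel (g₁ := g) (t₁ := t) (s := 1) hJ hη htJ
        (fun x hx' => by rw [one_mul]; exact hx x hx')
      rwa [one_smul] at this
    exact hext J β hJ t htI htJ hv hd
  -- the alternative for a pair of equal values
  have hpair : ∀ s₀ ∈ I, ∀ t₀ ∈ I, s₀ < t₀ → g s₀ = g t₀ →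
      I = univ ∧ ∀ t, g (t + (t₀ - s₀)) = g t := by
    intro s₀ hs₀ t₀ ht₀ hlt he
    obtain ⟨s, hs, η, hη, hx⟩ := maxc_lu hUC hUC hs₀ ht₀ he
    rcases hs with rfl | rfl
    · -- translation
      set T := t₀ - s₀ with hT
      have h1 := maxc_comp hUC (s := 1) (Or.inl rfl) T
      have h2 := maxc_comp hUC (s := 1) (Or.inl rfl) (-T)
      obtain ⟨a1, a2⟩ := hext' _ _ h1 s₀ hs₀ (by
        show 1 * s₀ + T ∈ I
        rw [hT, one_mul, show s₀ + (t₀ - s₀) = t₀ by ring]; exact ht₀) η hη (by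
        intro x hx'
        rw [(hx x hx').2.2]
        congr 1
        rw [hT]; ring)
      obtain ⟨b1, b2⟩ := hext' _ _ h2 t₀ ht₀ (by
        show 1 * t₀ + (-T) ∈ I
        rw [hT, one_mul, show t₀ + -(t₀ - s₀) = s₀ by ring]; exact hs₀) η hη (by
        intro x hx'
        have h3 := (hx x hx').2.2
        rw [one_mul] at h3
        rw [← h3]
        congr 1
        rw [hT]; ring)
      have hsubT : ∀ x ∈ I, x - T ∈ I := by
        intro x hx'
        apply a1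
        show 1 * (x - T) + T ∈ I
        rw [one_mul, sub_add_cancel]; exact hx'
      have haddT : ∀ x ∈ I, x + T ∈ I := by
        intro x hx'
        apply b1
        show 1 * (x + T) + (-T) ∈ I
        rw [one_mul, show x + T + -T = x by ring]; exact hx'
      have hTpos : 0 < T := by rw [hT]; linarith
      have hup : ∀ m : ℕ, (m : ℝ) * T ∈ I := by
        intro m
        induction m with
        | zero => simpa using h0I
        | succ m ih =>
          have := haddT _ ih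
          rwa [show (m : ℝ) * T + T = ((m + 1 : ℕ) : ℝ) * T by push_cast; ring] at this
      have hdown : ∀ m : ℕ, -((m : ℝ) * T) ∈ I := by
        intro m
        induction m with
        | zero => simpa using h0I
        | succ m ih =>
          have := hsubT _ ih
          rwa [show -((m : ℝ) * T) - T = -(((m + 1 : ℕ) : ℝ) * T) by push_cast; ring] at this
      have huniv : I = univ := by
        apply eq_univ_of_forall
        intro x
        obtain ⟨m, hm⟩ := exists_nat_gt (|x| / T)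
        rw [div_lt_iff₀ hTpos] at hm
        have := abs_lt.mp hm
        exact hUC.ord.out (hdown m) (hup m) ⟨this.1.le, this.2.le⟩
      refine ⟨huniv, fun t => ?_⟩
      have h4 := a2 (show t ∈ (fun t => 1 * t + T) ⁻¹' I by rw [huniv]; trivial)
      simp only [one_mul] at h4
      exact h4
    · -- reflection
      exfalso
      have h1 := maxc_comp hUC (s := -1) (Or.inr rfl) (s₀ + t₀)
      obtain ⟨a1, a2⟩ := hext' _ _ h1 s₀ hs₀ (by
        show -1 * s₀ + (s₀ + t₀) ∈ I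
        rw [show -1 * s₀ + (s₀ + t₀) = t₀ by ring]; exact ht₀) η hη (by
        intro x hx'
        rw [(hx x hx').2.2]
        congr 1
        ring)
      set m := (s₀ + t₀) / 2 with hm
      have hmI : m ∈ I := hUC.ord.out hs₀ ht₀ ⟨by rw [hm]; linarith, by rw [hm]; linarith⟩
      have hmJ : m ∈ (fun t => -1 * t + (s₀ + t₀)) ⁻¹' I := by
        show -1 * m + (s₀ + t₀) ∈ I
        rw [show -1 * m + (s₀ + t₀) = m by rw [hm]; ring]; exact hmI
      obtain ⟨r, hr, hball⟩ := Metric.mem_nhds_iff.mp (h1.isOpen.mem_nhds hmJ)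
      have hrel := maxc_deriv_rel (g₁ := g) (t₁ := m) (s := -1) hUC hr hmI (by
        intro x hx'
        have h5 : m + x ∈ (fun t => -1 * t + (s₀ + t₀)) ⁻¹' I := by
          apply hball
          rw [Real.ball_eq_Ioo]
          rw [abs_lt] at hx'
          exact ⟨by linarith, by linarith⟩
        rw [← a2 h5]
        simp only
        congr 1
        rw [hm]; ring)
      rw [neg_one_smul] at hrel
      exact maxc_deriv_ne hUC hmI (self_eq_neg.mp hrel)
  refine ⟨I, g, ?_, ⟨0, h0I, hg0⟩⟩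
  refine { toIsUC := hUC, nonempty := ⟨0, h0I⟩, ext := ?_, opn := ?_, dich := ?_ }
  · -- extension near a regular point
    intro q hq
    obtain ⟨d, σ, D, hch⟩ := ga_chart hq
    have hd := hch.pos
    refine ⟨d / 2, by linarith, ?_⟩
    intro ε hε
    obtain ⟨U₀, hU₀, hsmall⟩ := hch.small (min ε (d / 2)) (lt_min hε (by linarith))
    refine ⟨U₀ ∩ D, inter_mem hU₀ (hch.isOpen.mem_nhds hch.mem), ?_⟩
    rintro t ht ⟨htU, htD⟩
    have h1 : g t ∈ K ∩ D := ⟨maxc_mem (hUC.reg t ht), htD⟩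
    rw [← hch.image] at h1
    obtain ⟨c₀, hc₀, hgc⟩ := h1
    have hc1 : |c₀| < min ε (d / 2) := hsmall c₀ hc₀ (by rw [hgc]; exact htU)
    obtain ⟨s, hs, η, hη, hx⟩ := maxc_lu hUC (maxc_chart_uc hch) ht hc₀ hgc.symm
    have h2 := maxc_comp (maxc_chart_uc hch) hs (c₀ - s * t)
    obtain ⟨a1, a2⟩ := hext' _ _ h2 t ht (by
      show s * t + (c₀ - s * t) ∈ Ioo (-d) d
      rw [show s * t + (c₀ - s * t) = c₀ by ring]; exact hc₀) η hη (by
      intro x hx'
      rw [(hx x hx').2.2]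
      congr 1
      ring)
    have hJ : ∀ x, |c₀ + s * (x - t)| < d → x ∈ (fun t' => s * t' + (c₀ - s * t)) ⁻¹' Ioo (-d) d := by
      intro x hx'
      show s * x + (c₀ - s * t) ∈ Ioo (-d) d
      rw [show s * x + (c₀ - s * t) = c₀ + s * (x - t) by ring]
      exact abs_lt.mp hx'
    constructor
    · intro x hx'
      apply a1
      apply hJ
      have h3 : |x - t| < d / 2 := by rw [abs_lt]; constructor <;> linarith [hx'.1, hx'.2]
      calc |c₀ + s * (x - t)| ≤ |c₀| + |s * (x - t)| := abs_add_le _ _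
        _ = |c₀| + |x - t| := by rw [abs_mul, maxc_abs hs, one_mul]
        _ < d / 2 + d / 2 := add_lt_add (hc1.trans_le (min_le_right _ _)) h3
        _ = d := by ring
    · have h0 : c₀ + s * ((t - s * c₀) - t) = 0 := by
        have := maxc_sq hs
        calc c₀ + s * ((t - s * c₀) - t) = c₀ - (s * s) * c₀ := by ring
          _ = 0 := by rw [this]; ring
      have hm := hJ (t - s * c₀) (by rw [h0, abs_zero]; exact hd)
      refine ⟨t - s * c₀, a1 hm, ?_, ?_⟩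
      · rw [show t - s * c₀ - t = -(s * c₀) by ring, abs_neg, abs_mul, maxc_abs hs, one_mul]
        exact hc1.trans_le (min_le_left _ _)
      · rw [← a2 hm]
        show σ (s * (t - s * c₀) + (c₀ - s * t)) = q
        rw [show s * (t - s * c₀) + (c₀ - s * t) = c₀ + s * ((t - s * c₀) - t) by ring, h0, hch.zero]
  · -- openness
    intro t ht ε hε
    obtain ⟨d, σ, D, hch⟩ := ga_chart (hUC.reg t ht)
    obtain ⟨s, hs, η, hη, hx⟩ := maxc_loc hch hUC ht rfl
    obtain ⟨U₀, hU₀, hsmall⟩ := hch.small (min ε η) (lt_min hε hη)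
    refine ⟨U₀ ∩ D, inter_mem hU₀ (hch.isOpen.mem_nhds hch.mem), ?_⟩
    rintro z ⟨hzK, hzU, hzD⟩
    have h1 : z ∈ K ∩ D := ⟨hzK, hzD⟩
    rw [← hch.image] at h1
    obtain ⟨c, hc, rfl⟩ := h1
    have hc1 := hsmall c hc hzU
    have hsc : |s * c| = |c| := by rw [abs_mul, maxc_abs hs, one_mul]
    have h2 := hx (s * c) (by rw [hsc]; exact hc1.trans_le (min_le_right _ _))
    refine ⟨t + s * c, ⟨h2.1, ?_⟩, ?_⟩
    · have h3 : |s * c| < ε := by rw [hsc]; exact hc1.trans_le (min_le_left _ _)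
      rw [abs_lt] at h3
      exact ⟨by linarith, by linarith⟩
    · rw [h2.2.2]
      congr 1
      rw [← mul_assoc, maxc_sq hs, one_mul]
  · -- dichotomy
    by_cases hinj : InjOn g I
    · exact Or.inl hinj
    right
    have hex : ∃ s₀ ∈ I, ∃ t₀ ∈ I, s₀ < t₀ ∧ g s₀ = g t₀ := by
      unfold InjOn at hinj
      push Not at hinj
      obtain ⟨a, ha, b, hb, hab, hne⟩ := hinj
      rcases lt_or_gt_of_ne hne with h1 | h1
      · exact ⟨a, ha, b, hb, h1, hab⟩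
      · exact ⟨b, hb, a, ha, h1, hab.symm⟩
    obtain ⟨s₀, hs₀, t₀, ht₀, hlt, he⟩ := hex
    obtain ⟨huniv, hper⟩ := hpair s₀ hs₀ t₀ ht₀ hlt he
    refine ⟨huniv, ?_⟩
    set P : Set ℝ := {T | 0 < T ∧ ∀ t, g (t + T) = g t} with hP
    have hne : P.Nonempty := ⟨t₀ - s₀, by linarith, hper⟩
    -- lower bound for the periods
    obtain ⟨d, σ, D, hch⟩ := ga_chart (hUC.reg 0 h0I)
    obtain ⟨s, hs, η, hη, hx⟩ := maxc_loc hch hUC h0I rfl
    have hlow : ∀ T ∈ P, η ≤ T := by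
      rintro T ⟨hT0, hT⟩
      by_contra hcon
      push Not at hcon
      have h1 := hx T (by rw [abs_of_pos hT0]; exact hcon)
      have h2 := hx 0 (by rw [abs_zero]; exact hη)
      have h3 : σ (s * T) = σ (s * 0) := by
        rw [← h1.2.2, ← h2.2.2, add_zero]
        exact hT 0
      have h4 := hch.inj h1.2.1 h2.2.1 h3
      have h5 : s * (s * T) = s * (s * 0) := by rw [h4]
      rw [← mul_assoc, ← mul_assoc, maxc_sq hs, one_mul, one_mul] at h5
      exact hT0.ne' h5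
    have hbdd : BddBelow P := ⟨η, hlow⟩
    have hsub : ∀ T ∈ P, ∀ T' ∈ P, T' < T → T - T' ∈ P := by
      rintro T ⟨hT0, hT⟩ T' ⟨hT'0, hT'⟩ hlt'
      refine ⟨by linarith, fun t => ?_⟩
      have h1 := hT' (t + (T - T'))
      rw [show t + (T - T') + T' = t + T by ring, hT] at h1
      exact h1.symm
    obtain ⟨T, hTP, hTlt⟩ := exists_lt_of_csInf_lt hne (show sInf P < sInf P + η by linarith)
    have hmin : ∀ T' ∈ P, T ≤ T' := by
      intro T' hT'
      by_contra hcon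
      push Not at hcon
      have h1 := hlow _ (hsub T hTP T' hT' hcon)
      have h2 := csInf_le hbdd hT'
      linarith
    refine ⟨T, hTP.1, hTP.2, ?_⟩
    have hkey : ∀ a ∈ Ico 0 T, ∀ b ∈ Ico 0 T, a < b → g a ≠ g b := by
      intro a ha b hb hab heq
      have h1 := hpair a (by rw [huniv]; trivial) b (by rw [huniv]; trivial) hab heq
      have h2 := hmin (b - a) ⟨by linarith, h1.2⟩
      linarith [ha.1, hb.2]
    intro a ha b hb heq
    rcases lt_trichotomy a b with h1 | h1 | h1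
    · exact absurd heq (hkey a ha b hb h1)
    · exact h1
    · exact absurd heq.symm (hkey b hb a ha h1)

end Pool.Agent.MP099f24
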