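import Mathlib
import Pool.Agent.Lib.MP_099f24_an.GA.Arc
import Pool.Agent.Lib.MP_099f24_an.GA.Jordan
import Pool.Agent.Lib.MP_099f24_an.GA.Maxc
import Pool.Agent.Lib.MP_099f24_an.GA.Compo

/-!
# Global assembly: there are no loops
-/

namespace Pool.Agent.MP099f24

open MeasureTheory Filter Topology Set Metric
open scoped ENNReal ContDiff

/-- the periodic case is excluded -/
theorem ga_no_circle {Ω K : Set ℂ} (hKΩ : K ⊆ Ω) (hH : NoHoles Ω) (hN : NoRegion Ω K)
    {γ : ℝ → ℂ} (h : IsMaxUC K univ γ) {T : ℝ} (hT : 0 < T) (hper : ∀ t, γ (t + T) = γ t)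
    (hinj : InjOn γ (Ico 0 T)) : False := by
  have hcont : Continuous γ := by
    have := h.diff.continuousOn
    rwa [continuousOn_univ] at this
  have himg : γ '' univ = γ '' Icc 0 T := by
    refine subset_antisymm ?_ (image_mono (subset_univ _))
    rintro _ ⟨t, -, rfl⟩
    have hp : Function.Periodic γ T := hper
    obtain ⟨y, hy, hyt⟩ := hp.exists_mem_Ico₀ hT t
    exact ⟨y, ⟨hy.1, hy.2.le⟩, hyt.symm⟩
  have hT0 : γ T = γ 0 := by simpa using hper 0
  refine ga_noloop (x₀ := γ 0) (J := γ '' Icc 0 T) hKΩ hH hN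
    (isCompact_Icc.image hcont) ?_ (h.reg 0 trivial) ⟨0, ⟨le_refl _, hT.le⟩, rfl⟩ ?_ ?_
  · rintro _ ⟨t, -, rfl⟩
    exact (h.reg t trivial).mem
  · obtain ⟨U, hU, hsub⟩ := h.opn 0 trivial 1 one_pos
    refine ⟨U, hU, hsub.trans ?_⟩
    rw [← himg]
    exact image_mono (subset_univ _)
  · have : γ '' Icc 0 T \ {γ 0} = γ '' Ioo 0 T := by
      ext z
      constructor
      · rintro ⟨⟨t, ht, rfl⟩, hz⟩
        refine ⟨t, ⟨lt_of_le_of_ne ht.1 ?_, lt_of_le_of_ne ht.2 ?_⟩, rfl⟩
        · rintro rfl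
          exact hz rfl
        · rintro rfl
          exact hz hT0
      · rintro ⟨t, ht, rfl⟩
        refine ⟨⟨t, Ioo_subset_Icc_self ht, rfl⟩, fun he => ?_⟩
        have := hinj ⟨ht.1.le, ht.2⟩ ⟨le_refl _, hT⟩ he
        exact absurd this ht.1.ne'
    rw [this]
    exact isPreconnected_Ioo.image _ hcont.continuousOn

/-- a component together with a compact connected set joining its ends is excluded -/
theorem ga_no_theta {Ω K : Set ℂ} (hKΩ : K ⊆ Ω) (hH : NoHoles Ω) (hN : NoRegion Ω K)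
    {a b : ℝ} {c : ℝ → ℂ} (h : IsPar K a b c) {q q' : ℂ} (hl : EndL K a c q)
    (hr : EndR K b c q') {A : Set ℂ} (hAc : IsCompact A) (hAp : IsPreconnected A) (hAK : A ⊆ K)
    (hqA : q ∈ A) (hqA' : q' ∈ A) (hdis : Disjoint A (c '' Ioo a b)) : False := by
  set m := (a + b) / 2 with hm
  have hmI : m ∈ Ioo a b := ⟨by rw [hm]; linarith [h.lt], by rw [hm]; linarith [h.lt]⟩
  obtain ⟨hc1, hc2⟩ := arc_compact h hl hr
  have hmA : c m ∉ A := fun hx => Set.disjoint_left.1 hdis hx (mem_image_of_mem _ hmI)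
  have hJ : IsCompact (A ∪ c '' Ioo a b) := by
    have : A ∪ c '' Ioo a b = A ∪ (c '' Ioo a b ∪ {q, q'}) := by
      ext z
      simp only [mem_union, mem_insert_iff, mem_singleton_iff]
      constructor
      · rintro (hz | hz)
        · exact Or.inl hz
        · exact Or.inr (Or.inl hz)
      · rintro (hz | hz | rfl | rfl)
        · exact Or.inl hz
        · exact Or.inr hz
        · exact Or.inl hqA
        · exact Or.inl hqA'
    rw [this]
    exact hAc.union hc1
  refine ga_noloop (x₀ := c m) (J := A ∪ c '' Ioo a b) hKΩ hH hN hJ ?_ (h.reg m hmI)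
    (Or.inr (mem_image_of_mem _ hmI)) ?_ ?_
  · rintro z (hz | ⟨t, ht, rfl⟩)
    · exact hAK hz
    · exact h.mem ht
  · obtain ⟨U, hU, hsub⟩ := h.opn m hmI 1 one_pos
    exact ⟨U, hU, hsub.trans (subset_union_of_subset_right (image_mono inter_subset_left) _)⟩
  · have hpl : IsPreconnected (insert q (c '' Ioo a m)) := by
      refine IsPreconnected.subset_closure
        (isPreconnected_Ioo.image _ (h.diff.continuousOn.mono (Ioo_subset_Ioo_right hmI.2.le)))
        (subset_insert _ _) (insert_subset ?_ subset_closure)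
      have h1 : Tendsto c (𝓝[Ioo a m] a) (𝓝 q) := by
        rw [nhdsWithin_Ioo_eq_nhdsGT hmI.1]
        exact hl.2.2
      have : (𝓝[Ioo a m] a).NeBot := by
        rw [nhdsWithin_Ioo_eq_nhdsGT hmI.1]
        infer_instance
      exact mem_closure_of_tendsto h1 (eventually_mem_nhdsWithin.mono
        (fun t ht => mem_image_of_mem _ ht))
    have hpr : IsPreconnected (insert q' (c '' Ioo m b)) := by
      refine IsPreconnected.subset_closure
        (isPreconnected_Ioo.image _ (h.diff.continuousOn.mono (Ioo_subset_Ioo_left hmI.1.le)))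
        (subset_insert _ _) (insert_subset ?_ subset_closure)
      have h1 : Tendsto c (𝓝[Ioo m b] b) (𝓝 q') := by
        rw [nhdsWithin_Ioo_eq_nhdsLT hmI.2]
        exact hr.2.2
      have : (𝓝[Ioo m b] b).NeBot := by
        rw [nhdsWithin_Ioo_eq_nhdsLT hmI.2]
        infer_instance
      exact mem_closure_of_tendsto h1 (eventually_mem_nhdsWithin.mono
        (fun t ht => mem_image_of_mem _ ht))
    have heq : (A ∪ c '' Ioo a b) \ {c m} =
        (A ∪ insert q (c '' Ioo a m)) ∪ insert q' (c '' Ioo m b) := by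
      ext z
      simp only [Set.mem_sdiff, mem_union, mem_insert_iff, mem_singleton_iff]
      constructor
      · rintro ⟨hz | ⟨t, ht, rfl⟩, hne⟩
        · exact Or.inl (Or.inl hz)
        · rcases lt_trichotomy t m with h1 | h1 | h1
          · exact Or.inl (Or.inr (Or.inr ⟨t, ⟨ht.1, h1⟩, rfl⟩))
          · exact absurd (by rw [h1]) hne
          · exact Or.inr (Or.inr ⟨t, ⟨h1, ht.2⟩, rfl⟩)
      · rintro ((hz | rfl | ⟨t, ht, rfl⟩) | rfl | ⟨t, ht, rfl⟩)
        · exact ⟨Or.inl hz, fun he => hmA (he ▸ hz)⟩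
        · exact ⟨Or.inl hqA, fun he => hmA (he ▸ hqA)⟩
        · refine ⟨Or.inr ⟨t, ⟨ht.1, ht.2.trans hmI.2⟩, rfl⟩, fun he => ?_⟩
          exact absurd (h.inj ⟨ht.1, ht.2.trans hmI.2⟩ hmI he) ht.2.ne
        · exact ⟨Or.inl hqA', fun he => hmA (he ▸ hqA')⟩
        · refine ⟨Or.inr ⟨t, ⟨hmI.1.trans ht.1, ht.2⟩, rfl⟩, fun he => ?_⟩
          exact absurd (h.inj ⟨hmI.1.trans ht.1, ht.2⟩ hmI he) ht.1.ne'
    rw [heq]
    exact (hAp.union q hqA (mem_insert _ _) hpl).union q' (Or.inl hqA') (mem_insert _ _) hpr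

/-- a component with both ends at the same vertex is excluded -/
theorem ga_no_lollipop {Ω K : Set ℂ} (hKΩ : K ⊆ Ω) (hH : NoHoles Ω) (hN : NoRegion Ω K)
    {a b : ℝ} {c : ℝ → ℂ} (h : IsPar K a b c) (q : ℂ) (hl : EndL K a c q)
    (hr : EndR K b c q) : False := by
  refine ga_no_theta hKΩ hH hN h hl hr isCompact_singleton isPreconnected_singleton
    (singleton_subset_iff.2 hl.1) rfl rfl ?_
  rw [disjoint_singleton_left]
  rintro ⟨t, ht, he⟩
  exact hl.2.1 (he ▸ h.reg t ht)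

/-- two components with the same two ends are excluded -/
theorem ga_no_digon {Ω K : Set ℂ} (hKΩ : K ⊆ Ω) (hH : NoHoles Ω) (hN : NoRegion Ω K)
    {a b a' b' : ℝ} {c c' : ℝ → ℂ} (h : IsPar K a b c) (h' : IsPar K a' b' c') {p q : ℂ}
    (hpq : p ≠ q) (hdis : Disjoint (c '' Ioo a b) (c' '' Ioo a' b'))
    (hp : EndR K b c p ∨ EndL K a c p) (hq : EndR K b c q ∨ EndL K a c q)
    (hp' : EndR K b' c' p ∨ EndL K a' c' p) (hq' : EndR K b' c' q ∨ EndL K a' c' q) : False := by
  -- the ends of both components, up to order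
  have h1 : (EndL K a c p ∧ EndR K b c q) ∨ (EndL K a c q ∧ EndR K b c p) := by
    rcases hp with hp | hp <;> rcases hq with hq | hq
    · exact absurd (hp.unique hq) hpq
    · exact Or.inr ⟨hq, hp⟩
    · exact Or.inl ⟨hp, hq⟩
    · exact absurd (hp.unique hq) hpq
  have h2 : (EndL K a' c' p ∧ EndR K b' c' q) ∨ (EndL K a' c' q ∧ EndR K b' c' p) := by
    rcases hp' with hp | hp <;> rcases hq' with hq | hq
    · exact absurd (hp.unique hq) hpq
    · exact Or.inr ⟨hq, hp⟩
    · exact Or.inl ⟨hp, hq⟩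
    · exact absurd (hp.unique hq) hpq
  have hA : IsCompact (c' '' Ioo a' b' ∪ {p, q}) ∧ IsPreconnected (c' '' Ioo a' b' ∪ {p, q}) := by
    rcases h2 with ⟨h3, h4⟩ | ⟨h3, h4⟩
    · exact arc_compact h' h3 h4
    · rw [pair_comm]
      exact arc_compact h' h3 h4
  have hpK : p ∈ K := by rcases hp with hp | hp <;> exact hp.1
  have hqK : q ∈ K := by rcases hq with hp | hp <;> exact hp.1
  have hpr : ¬ IsRegPt K p := by rcases hp with hp | hp <;> exact hp.2.1
  have hqr : ¬ IsRegPt K q := by rcases hq with hp | hp <;> exact hp.2.1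
  have hAK : c' '' Ioo a' b' ∪ {p, q} ⊆ K := by
    rintro z (⟨t, ht, rfl⟩ | rfl | rfl)
    · exact h'.mem ht
    · exact hpK
    · exact hqK
  have hd : Disjoint (c' '' Ioo a' b' ∪ {p, q}) (c '' Ioo a b) := by
    rw [Set.disjoint_left]
    rintro z (hz | rfl | rfl) ⟨t, ht, he⟩
    · exact Set.disjoint_left.1 hdis ⟨t, ht, he⟩ hz
    · exact hpr (he ▸ h.reg t ht)
    · exact hqr (he ▸ h.reg t ht)
  have hpm : p ∈ c' '' Ioo a' b' ∪ {p, q} := Or.inr (mem_insert _ _)
  have hqm : q ∈ c' '' Ioo a' b' ∪ {p, q} := Or.inr (mem_insert_of_mem _ rfl)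
  rcases h1 with ⟨h3, h4⟩ | ⟨h3, h4⟩
  · exact ga_no_theta hKΩ hH hN h h3 h4 hA.1 hA.2 hAK hpm hqm hd
  · exact ga_no_theta hKΩ hH hN h h3 h4 hA.1 hA.2 hAK hqm hpm hd

end Pool.Agent.MP099f24
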