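import Mathlib
import Pool.Agent.Lib.MP_099f24_an.GA.Loop

/-!
# Global assembly: a set with the local structure of a network is an admissible union of arcs
-/

namespace Pool.Agent.MP099f24

open MeasureTheory Filter Topology Set Metric
open scoped ENNReal ContDiff

/-- the components of the set of regular points -/
def RComp (K : Set ℂ) : Type :=
  {C : Set ℂ // ∃ p, IsRegPt K p ∧ C = connectedComponentIn {z | IsRegPt K z} p}

/-- the component of a regular point -/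
def RComp.mk {K : Set ℂ} (p : ℂ) (h : IsRegPt K p) : RComp K :=
  ⟨connectedComponentIn {z | IsRegPt K z} p, p, h, rfl⟩

theorem RComp.mem_mk {K : Set ℂ} (p : ℂ) (h : IsRegPt K p) : p ∈ (RComp.mk p h).1 :=
  mem_connectedComponentIn h

theorem RComp.eq_of_mem {K : Set ℂ} {i k : RComp K} {z : ℂ} (hi : z ∈ i.1) (hk : z ∈ k.1) :
    i = k := by
  obtain ⟨C, p, hp, rfl⟩ := i
  obtain ⟨D, q, hq, rfl⟩ := k
  refine Subtype.ext ?_
  have h1 := connectedComponentIn_eq hi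
  have h2 := connectedComponentIn_eq hk
  exact h1.trans h2.symm

theorem RComp.reg {K : Set ℂ} {i : RComp K} {z : ℂ} (hi : z ∈ i.1) : IsRegPt K z := by
  obtain ⟨C, p, hp, rfl⟩ := i
  have : z ∈ {z | IsRegPt K z} := connectedComponentIn_subset {z | IsRegPt K z} p hi
  exact this

/-- a preconnected set of regular points which meets a component is contained in it -/
theorem RComp.subset {K : Set ℂ} {i : RComp K} {B : Set ℂ} (hB : IsPreconnected B)
    (hBr : B ⊆ {z | IsRegPt K z}) {z : ℂ} (hz : z ∈ B) (hi : z ∈ i.1) : B ⊆ i.1 := by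
  obtain ⟨C, p, hp, rfl⟩ := i
  have h1 := connectedComponentIn_eq hi
  simp only at h1 ⊢
  rw [h1]
  exact hB.subset_connectedComponentIn hz hBr

/-- every component is parametrized by a bounded open interval -/
theorem ga_exists_par {Ω K : Set ℂ} (hKΩ : K ⊆ Ω) (hH : NoHoles Ω) (hN : NoRegion Ω K)
    (i : RComp K) : ∃ (a b : ℝ) (c : ℝ → ℂ), IsPar K a b c ∧ c '' Ioo a b = i.1 := by
  obtain ⟨C, p, hp, rfl⟩ := i
  obtain ⟨I, γ, hm, t, ht, htp⟩ := ga_maxc hp
  have hcomp := ga_compo hm ht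
  rw [htp] at hcomp
  rcases hm.dich with hi | ⟨rfl, T, hT, hper, hinj⟩
  · obtain ⟨a, b, c, hc, himg⟩ := ga_par hm hi
    exact ⟨a, b, c, hc, himg.trans hcomp.symm⟩
  · exact (ga_no_circle hKΩ hH hN hm hT hper hinj).elim

section

variable {Ω K : Set ℂ} {a b : RComp K → ℝ} {c : RComp K → ℝ → ℂ}

/-- a vertex of a component -/
def VEnd (K : Set ℂ) (a b : ℝ) (c : ℝ → ℂ) (p : ℂ) : Prop := EndR K b c p ∨ EndL K a c p

theorem VEnd.mem {a b : ℝ} {c : ℝ → ℂ} {p : ℂ} (h : VEnd K a b c p) : p ∈ K := by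
  rcases h with h | h <;> exact h.1

theorem VEnd.not_reg {a b : ℝ} {c : ℝ → ℂ} {p : ℂ} (h : VEnd K a b c p) : ¬ IsRegPt K p := by
  rcases h with h | h <;> exact h.2.1

/-- an end at a star point is attached to a branch -/
theorem VEnd.attach {a b : ℝ} {c : ℝ → ℂ} (hp : IsPar K a b c) {p : ℂ} (h : VEnd K a b c p)
    {n : ℕ} {δ : ℝ} {σ : Fin n → ℝ → ℂ} (hs : IsStar K p n δ σ) :
    ∃ k, ∃ t ∈ Ioo a b, c t ∈ σ k '' Ioo 0 δ := by
  rcases h with h | h
  · obtain ⟨k, t₀, ht₀, hatt⟩ := ga_attach hp hs h.2.1 h.2.2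
    have hm : (t₀ + b) / 2 ∈ Ioo t₀ b := ⟨by linarith [ht₀.2], by linarith [ht₀.2]⟩
    obtain ⟨h1, h2, h3⟩ := hatt _ hm
    exact ⟨k, _, ⟨ht₀.1.trans hm.1, hm.2⟩, _, ⟨h1, h2⟩, h3.symm⟩
  · have h' : EndR K (-a) (fun t => c (-t)) p := EndL.rev.2 h
    obtain ⟨k, t₀, ht₀, hatt⟩ := ga_attach hp.rev hs h'.2.1 h'.2.2
    have hm : (t₀ + -a) / 2 ∈ Ioo t₀ (-a) := ⟨by linarith [ht₀.2], by linarith [ht₀.2]⟩
    obtain ⟨h1, h2, h3⟩ := hatt _ hm
    exact ⟨k, -((t₀ + -a) / 2), ⟨by linarith [hm.2], by linarith [hm.1, ht₀.1]⟩, _,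
      ⟨h1, h2⟩, h3.symm⟩

theorem ga_isEndpoint {a b : ℝ} {c : ℝ → ℂ} (hp : IsPar K a b c) {p : ℂ} :
    IsEndpoint (arcI K a b c) (arcG a b c) p ↔ VEnd K a b c p := isEndpoint_arc hp

/-- the direction at an end -/
theorem ga_direction (hΩ : IsOpen Ω) (hc : IsClosed (K ∪ Ωᶜ)) (hKΩ : K ⊆ Ω)
    (hloc : ∀ p ∈ K, IsRegPt K p ∨ ∃ (n : ℕ) (δ : ℝ) (σ : Fin n → ℝ → ℂ), IsStar K p n δ σ)
    {a b : ℝ} {c : ℝ → ℂ} (hp : IsPar K a b c) {p : ℂ} (hpK : p ∈ K) (hpr : ¬ IsRegPt K p)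
    {n : ℕ} {δ : ℝ} {σ : Fin n → ℝ → ℂ} (hs : IsStar K p n δ σ) {k : Fin n}
    (hk : σ k '' Ioo 0 δ ⊆ c '' Ioo a b) {τ : ℂ}
    (hτ : Tendsto (fun s : ℝ => (s⁻¹ : ℝ) • (σ k s - p)) (𝓝[>] 0) (𝓝 τ)) :
    HasEndDirection (arcI K a b c) (arcG a b c) p τ := by
  rcases ga_branch hΩ hc hKΩ hloc hp hpK hs hpr hk with ⟨hten, t₀, ht₀, hatt⟩ | ⟨hten, t₀, ht₀, hatt⟩
  · have hend : EndR K b c p := ⟨hpK, hpr, hten⟩
    refine ⟨b, Or.inr (hend.isGreatest hp), arcG_right hp hend, ?_⟩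
    have hsub : arcI K a b c \ {b} ⊆ Iio b := fun t ht =>
      lt_of_le_of_ne (arcI_subset_Icc hp ht.1).2 ht.2
    refine Tendsto.mono_left ?_ (nhdsWithin_mono b hsub)
    have h0 : Tendsto (fun t => ‖c t - p‖) (𝓝[<] b) (𝓝[>] 0) := by
      refine tendsto_nhdsWithin_iff.2 ⟨?_, ?_⟩
      · have := (hten.sub_const p).norm
        simpa using this
      · filter_upwards [Ioo_mem_nhdsLT ht₀.2] with t ht using (hatt t ht).1
    refine (hτ.comp h0).congr' ?_
    filter_upwards [Ioo_mem_nhdsLT ht₀.2] with t ht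
    have h1 := (hatt t ht).2.2
    have h2 : arcG a b c t = c t := arcG_eq hp ⟨ht₀.1.trans ht.1, ht.2⟩
    simp only [Function.comp]
    rw [← h1, h2]
  · have hend : EndL K a c p := ⟨hpK, hpr, hten⟩
    refine ⟨a, Or.inl (hend.isLeast hp), arcG_left hp hend, ?_⟩
    have hsub : arcI K a b c \ {a} ⊆ Ioi a := fun t ht =>
      lt_of_le_of_ne (arcI_subset_Icc hp ht.1).1 (fun he => ht.2 he.symm)
    refine Tendsto.mono_left ?_ (nhdsWithin_mono a hsub)
    have h0 : Tendsto (fun t => ‖c t - p‖) (𝓝[>] a) (𝓝[>] 0) := by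
      refine tendsto_nhdsWithin_iff.2 ⟨?_, ?_⟩
      · have := (hten.sub_const p).norm
        simpa using this
      · filter_upwards [Ioo_mem_nhdsGT ht₀.1] with t ht using (hatt t ht).1
    refine (hτ.comp h0).congr' ?_
    filter_upwards [Ioo_mem_nhdsGT ht₀.1] with t ht
    have h1 := (hatt t ht).2.2
    have h2 : arcG a b c t = c t := arcG_eq hp ⟨ht.1, ht.2.trans ht₀.2⟩
    simp only [Function.comp]
    rw [← h1, h2]

/-- two different branches cannot lie in the same component -/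
theorem ga_branch_ne (hΩ : IsOpen Ω) (hc : IsClosed (K ∪ Ωᶜ)) (hKΩ : K ⊆ Ω)
    (hloc : ∀ p ∈ K, IsRegPt K p ∨ ∃ (n : ℕ) (δ : ℝ) (σ : Fin n → ℝ → ℂ), IsStar K p n δ σ)
    (hH : NoHoles Ω) (hN : NoRegion Ω K)
    {a b : ℝ} {c : ℝ → ℂ} (hp : IsPar K a b c) {p : ℂ} (hpK : p ∈ K) (hpr : ¬ IsRegPt K p)
    {n : ℕ} {δ : ℝ} {σ : Fin n → ℝ → ℂ} (hs : IsStar K p n δ σ) {k l : Fin n}
    (hk : σ k '' Ioo 0 δ ⊆ c '' Ioo a b) (hl : σ l '' Ioo 0 δ ⊆ c '' Ioo a b) : k = l := by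
  rcases ga_branch hΩ hc hKΩ hloc hp hpK hs hpr hk with ⟨hten, t₀, ht₀, hatt⟩ | ⟨hten, t₀, ht₀, hatt⟩ <;>
  rcases ga_branch hΩ hc hKΩ hloc hp hpK hs hpr hl with ⟨hten', t₁, ht₁, hatt'⟩ | ⟨hten', t₁, ht₁, hatt'⟩
  · have hm : (max t₀ t₁ + b) / 2 ∈ Ioo (max t₀ t₁) b := by
      have := max_lt ht₀.2 ht₁.2
      exact ⟨by linarith, by linarith⟩
    obtain ⟨h1, h2, h3⟩ := hatt _ ⟨(le_max_left _ _).trans_lt hm.1, hm.2⟩
    obtain ⟨h1', h2', h3'⟩ := hatt' _ ⟨(le_max_right _ _).trans_lt hm.1, hm.2⟩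
    exact hs.inj _ _ _ ⟨h1, h2⟩ (h3.symm.trans h3')
  · exact (ga_no_lollipop hKΩ hH hN hp p ⟨hpK, hpr, hten'⟩ ⟨hpK, hpr, hten⟩).elim
  · exact (ga_no_lollipop hKΩ hH hN hp p ⟨hpK, hpr, hten⟩ ⟨hpK, hpr, hten'⟩).elim
  · have hm : (a + min t₀ t₁) / 2 ∈ Ioo a (min t₀ t₁) := by
      have := lt_min ht₀.1 ht₁.1
      exact ⟨by linarith, by linarith⟩
    obtain ⟨h1, h2, h3⟩ := hatt _ ⟨hm.1, hm.2.trans_le (min_le_left _ _)⟩
    obtain ⟨h1', h2', h3'⟩ := hatt' _ ⟨hm.1, hm.2.trans_le (min_le_right _ _)⟩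
    exact hs.inj _ _ _ ⟨h1, h2⟩ (h3.symm.trans h3')

end

/-- The component containing the branch `k` of a star. -/
noncomputable def bcomp {K : Set ℂ} {p : ℂ} {n : ℕ} {δ : ℝ} {σ : Fin n → ℝ → ℂ}
    (hs : IsStar K p n δ σ) (k : Fin n) : RComp K :=
  RComp.mk (σ k (δ / 2)) ((hs.branch k).2 (mem_image_of_mem _
    ⟨by linarith [hs.pos], by linarith [hs.pos]⟩))

theorem bcomp_subset {K : Set ℂ} {p : ℂ} {n : ℕ} {δ : ℝ} {σ : Fin n → ℝ → ℂ}
    (hs : IsStar K p n δ σ) (k : Fin n) : σ k '' Ioo 0 δ ⊆ (bcomp hs k).1 :=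
  RComp.subset (hs.branch k).1 (hs.branch k).2
    (mem_image_of_mem _ ⟨by linarith [hs.pos], by linarith [hs.pos]⟩) (RComp.mem_mk _ _)

theorem eq_bcomp {K : Set ℂ} {p : ℂ} {n : ℕ} {δ : ℝ} {σ : Fin n → ℝ → ℂ}
    (hs : IsStar K p n δ σ) (k : Fin n) {i : RComp K} {z : ℂ} (hz : z ∈ σ k '' Ioo 0 δ)
    (hi : z ∈ i.1) : i = bcomp hs k :=
  RComp.eq_of_mem hi (bcomp_subset hs k hz)

/-- **Global assembly.** -/
theorem ga_assembly_strong {Ω K : Set ℂ} (hΩ : IsOpen Ω) (hKΩ : K ⊆ Ω) (hc : IsClosed (K ∪ Ωᶜ))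
    (hloc : ∀ p ∈ K, IsRegPt K p ∨ IsTip K p ∨ IsTriple K p) (hN : NoRegion Ω K)
    (hH : NoHoles Ω) : ∃ (ι : Type) (I : ι → Set ℝ) (γ : ι → ℝ → ℂ), IsAdmissible Ω I γ ∧
      K = ⋃ i, γ i '' I i ∧ (∀ i, ∀ t ∈ interior (I i), deriv (γ i) t ≠ 0) := by
  have hloc' : ∀ p ∈ K, IsRegPt K p ∨ ∃ (n : ℕ) (δ : ℝ) (σ : Fin n → ℝ → ℂ), IsStar K p n δ σ := by
    intro p hp
    rcases hloc p hp with h | ⟨δ, σ, h⟩ | ⟨δ, σ, τ, h, _⟩
    · exact Or.inl h
    · exact Or.inr ⟨1, δ, σ, h⟩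
    · exact Or.inr ⟨3, δ, σ, h⟩
  choose a b c hpar himg using fun i : RComp K => ga_exists_par hKΩ hH hN i
  have hlol : ∀ i q, EndL K (a i) (c i) q → EndR K (b i) (c i) q → False := fun i q hl hr =>
    ga_no_lollipop hKΩ hH hN (hpar i) q hl hr
  have hmemi : ∀ i t, t ∈ Ioo (a i) (b i) → c i t ∈ i.1 := fun i t ht => by
    rw [← himg i]
    exact mem_image_of_mem _ ht
  have hsubc : ∀ {p : ℂ} {n : ℕ} {δ : ℝ} {σ : Fin n → ℝ → ℂ} (hs : IsStar K p n δ σ) (k : Fin n),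
      σ k '' Ioo 0 δ ⊆ c (bcomp hs k) '' Ioo (a (bcomp hs k)) (b (bcomp hs k)) := by
    intro p n δ σ hs k
    rw [himg]
    exact bcomp_subset hs k
  -- the components with an end at a star point
  have hends : ∀ {p : ℂ} {n : ℕ} {δ : ℝ} {σ : Fin n → ℝ → ℂ} (hs : IsStar K p n δ σ) (i : RComp K),
      VEnd K (a i) (b i) (c i) p → ∃ k, i = bcomp hs k := by
    intro p n δ σ hs i hv
    obtain ⟨k, t, ht, hk⟩ := hv.attach (hpar i) hs
    exact ⟨k, eq_bcomp hs k hk (hmemi i t ht)⟩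
  have hends' : ∀ {p : ℂ} {n : ℕ} {δ : ℝ} {σ : Fin n → ℝ → ℂ} (hs : IsStar K p n δ σ) (k : Fin n),
      p ∈ K → ¬ IsRegPt K p →
      VEnd K (a (bcomp hs k)) (b (bcomp hs k)) (c (bcomp hs k)) p := by
    intro p n δ σ hs k hpK hpr
    rcases ga_branch hΩ hc hKΩ hloc' (hpar (bcomp hs k)) hpK hs hpr (hsubc hs k) with h | h
    · exact Or.inl ⟨hpK, hpr, h.1⟩
    · exact Or.inr ⟨hpK, hpr, h.1⟩
  -- points of the arcs
  have hpts : ∀ i, ∀ z ∈ arcG (a i) (b i) (c i) '' arcI K (a i) (b i) (c i),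
      (IsRegPt K z ∧ z ∈ i.1) ∨ VEnd K (a i) (b i) (c i) z := by
    rintro i _ ⟨t, ht, rfl⟩
    rcases mem_arcI_cases (hpar i) ht with ⟨h1, h2, h3⟩ | ⟨_, h2⟩ | ⟨_, h2⟩
    · refine Or.inl ⟨h3, ?_⟩
      rw [h2]
      exact hmemi i t h1
    · exact Or.inr (Or.inl h2)
    · exact Or.inr (Or.inr h2)
  have hptsK : ∀ i, arcG (a i) (b i) (c i) '' arcI K (a i) (b i) (c i) ⊆ K := by
    rintro i _ ⟨t, ht, rfl⟩
    exact arcG_mem (hpar i) ht
  -- local finiteness
  have hlocfin : ∀ M : Set ℂ, IsCompact M → M ⊆ Ω →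
      {i : RComp K | (arcG (a i) (b i) (c i) '' arcI K (a i) (b i) (c i) ∩ M).Nonempty}.Finite := by
    intro M hM hMΩ
    refine hM.induction_on (p := fun M => {i : RComp K |
      (arcG (a i) (b i) (c i) '' arcI K (a i) (b i) (c i) ∩ M).Nonempty}.Finite) ?_ ?_ ?_ ?_
    · simp
    · intro s t hst ht
      exact ht.subset (fun i hi => hi.mono (inter_subset_inter_right _ hst))
    · intro s t hs ht
      refine (hs.union ht).subset (fun i hi => ?_)
      obtain ⟨z, hz1, hz2 | hz2⟩ := hi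
      · exact Or.inl ⟨z, hz1, hz2⟩
      · exact Or.inr ⟨z, hz1, hz2⟩
    · intro x hx
      have hxΩ := hMΩ hx
      by_cases hxK : x ∈ K
      · by_cases hreg : IsRegPt K x
        · set i₀ := RComp.mk x hreg with hi₀
          have hx₀ : x ∈ i₀.1 := RComp.mem_mk x hreg
          rw [← himg i₀] at hx₀
          obtain ⟨t, ht, htx⟩ := hx₀
          obtain ⟨U, hU, hsub⟩ := (hpar i₀).opn t ht 1 one_pos
          rw [htx] at hU
          refine ⟨U, mem_nhdsWithin_of_mem_nhds hU, (Set.finite_singleton i₀).subset ?_⟩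
          rintro i ⟨z, hz1, hz2⟩
          obtain ⟨t', ht', htz⟩ := hsub ⟨hptsK i hz1, hz2⟩
          have hzr : z ∈ i₀.1 := by
            rw [← htz]
            exact hmemi i₀ t' ht'.1
          rcases hpts i z hz1 with h1 | h1
          · exact RComp.eq_of_mem h1.2 hzr
          · exact absurd (RComp.reg hzr) h1.not_reg
        · obtain ⟨n, δ, σ, hs⟩ := (hloc' x hxK).resolve_left hreg
          refine ⟨ball x δ, mem_nhdsWithin_of_mem_nhds (ball_mem_nhds x hs.pos),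
            (Set.finite_range (fun k => bcomp hs k)).subset ?_⟩
          rintro i ⟨z, hz1, hz2⟩
          rcases eq_or_ne z x with rfl | hne
          · rcases hpts i z hz1 with h1 | h1
            · exact absurd h1.1 hreg
            · obtain ⟨k, hk⟩ := hends hs i h1
              exact ⟨k, hk.symm⟩
          · have hz0 : 0 < ‖z - x‖ := by
              rw [norm_pos_iff, sub_ne_zero]
              exact hne
            have hz3 : ‖z - x‖ < δ := by
              rwa [mem_ball, dist_eq_norm] at hz2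
            obtain ⟨k, hk⟩ := (hs.mem_iff z hz0 hz3).1 (hptsK i hz1)
            have hzb : z ∈ σ k '' Ioo 0 δ := ⟨‖z - x‖, ⟨hz0, hz3⟩, hk.symm⟩
            have hzr : IsRegPt K z := hs.reg z (hptsK i hz1) hz0 hz3
            rcases hpts i z hz1 with h1 | h1
            · exact ⟨k, (eq_bcomp hs k hzb h1.2).symm⟩
            · exact absurd hzr h1.not_reg
      · refine ⟨(K ∪ Ωᶜ)ᶜ, mem_nhdsWithin_of_mem_nhds (hc.isOpen_compl.mem_nhds ?_), ?_⟩
        · rintro (h | h)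
          · exact hxK h
          · exact h hxΩ
        · convert Set.finite_empty
          ext i
          simp only [Set.mem_ofPred_eq, mem_empty_iff_false, iff_false]
          rintro ⟨z, hz1, hz2⟩
          exact hz2 (Or.inl (hptsK i hz1))
  -- the union
  have hunion : K = ⋃ i, arcG (a i) (b i) (c i) '' arcI K (a i) (b i) (c i) := by
    refine subset_antisymm (fun p hp => ?_) (iUnion_subset hptsK)
    rw [mem_iUnion]
    by_cases hreg : IsRegPt K p
    · have h0 : p ∈ (RComp.mk p hreg).1 := RComp.mem_mk p hreg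
      rw [← himg] at h0
      obtain ⟨t, ht, htp⟩ := h0
      exact ⟨_, t, Ioo_subset_arcI ht, by rw [arcG_eq (hpar _) ht, htp]⟩
    · have hv : ∃ i, VEnd K (a i) (b i) (c i) p := by
        rcases (hloc p hp).resolve_left hreg with ⟨δ, σ, hs⟩ | ⟨δ, σ, τ, hs, _⟩
        · exact ⟨_, hends' hs 0 hp hreg⟩
        · exact ⟨_, hends' hs 0 hp hreg⟩
      obtain ⟨i, hi⟩ := hv
      obtain ⟨m, hm, hmp⟩ := (ga_isEndpoint (hpar i)).2 hi
      exact ⟨i, m, by rcases hm with hm | hm <;> exact hm.1, hmp⟩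
  -- common points
  have hcommon : ∀ i k, i ≠ k → ∀ p, p ∈ arcG (a i) (b i) (c i) '' arcI K (a i) (b i) (c i) →
      p ∈ arcG (a k) (b k) (c k) '' arcI K (a k) (b k) (c k) →
      VEnd K (a i) (b i) (c i) p ∧ VEnd K (a k) (b k) (c k) p := by
    intro i k hik p hpi hpk
    rcases hpts i p hpi with h1 | h1 <;> rcases hpts k p hpk with h2 | h2
    · exact absurd (RComp.eq_of_mem h1.2 h2.2) hik
    · exact absurd h1.1 h2.not_reg
    · exact absurd h2.1 h1.not_reg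
    · exact ⟨h1, h2⟩
  have htriple : ∀ i k, i ≠ k → ∀ p, VEnd K (a i) (b i) (c i) p → VEnd K (a k) (b k) (c k) p →
      IsTriple K p := by
    intro i k hik p hi hk
    rcases (hloc p hi.mem).resolve_left hi.not_reg with ⟨δ, σ, hs⟩ | h
    · exfalso
      obtain ⟨k1, h1⟩ := hends hs i hi
      obtain ⟨k2, h2⟩ := hends hs k hk
      exact hik (by rw [h1, h2, Subsingleton.elim k1 k2])
    · exact h
  have hcountable : Countable (RComp K) := by
    obtain ⟨F, hF1, hF2, _, hF3⟩ : ∃ F : ℕ → Set ℂ, (∀ n, IsClosed (F n)) ∧ (∀ n, F n ⊆ Ω) ∧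
        True ∧ (⋃ n, F n) = Ω := by
      obtain ⟨F, h1, h2, h3, _⟩ := hΩ.exists_iUnion_isClosed
      exact ⟨F, h1, h2, trivial, h3⟩
    rw [← Set.countable_univ_iff]
    have : (univ : Set (RComp K)) ⊆ ⋃ n : ℕ, ⋃ m : ℕ, {i : RComp K |
        (arcG (a i) (b i) (c i) '' arcI K (a i) (b i) (c i) ∩
          (F n ∩ closedBall 0 m)).Nonempty} := by
      intro i _
      have ht : (a i + b i) / 2 ∈ Ioo (a i) (b i) :=
        ⟨by linarith [(hpar i).lt], by linarith [(hpar i).lt]⟩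
      set z := arcG (a i) (b i) (c i) ((a i + b i) / 2) with hz
      have hzm : z ∈ arcG (a i) (b i) (c i) '' arcI K (a i) (b i) (c i) :=
        mem_image_of_mem _ (Ioo_subset_arcI ht)
      have hzΩ : z ∈ ⋃ n, F n := by
        rw [hF3]
        exact hKΩ (hptsK i hzm)
      obtain ⟨n, hn⟩ := mem_iUnion.1 hzΩ
      obtain ⟨m, hm⟩ := exists_nat_ge ‖z‖
      exact mem_iUnion.2 ⟨n, mem_iUnion.2 ⟨m, z, hzm, hn, by simpa using hm⟩⟩
    refine Set.Countable.mono this ?_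
    refine Set.countable_iUnion (fun n => Set.countable_iUnion (fun m => Set.Finite.countable ?_))
    exact hlocfin _ ((isCompact_closedBall 0 (m : ℝ)).inter_left (hF1 n))
      (inter_subset_left.trans (hF2 n))
  refine ⟨RComp K, fun i => arcI K (a i) (b i) (c i), fun i => arcG (a i) (b i) (c i), ?_,
    hunion, ?_⟩
  · refine ⟨hcountable, fun i => isArc_arc hc hKΩ hloc' (hpar i) (hlol i), hlocfin, ?_, ?_, ?_, ?_⟩
    · -- two arcs share at most one point
      intro i k hik p hp q hq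
      by_contra hne
      obtain ⟨h1, h2⟩ := hcommon i k hik p hp.1 hp.2
      obtain ⟨h3, h4⟩ := hcommon i k hik q hq.1 hq.2
      refine ga_no_digon hKΩ hH hN (hpar i) (hpar k) hne ?_ h1 h3 h2 h4
      rw [himg, himg, Set.disjoint_left]
      exact fun z hz1 hz2 => hik (RComp.eq_of_mem hz1 hz2)
    · intro i k hik p hp
      obtain ⟨h1, h2⟩ := hcommon i k hik p hp.1 hp.2
      exact ⟨(ga_isEndpoint (hpar i)).2 h1, (ga_isEndpoint (hpar k)).2 h2⟩
    · intro i k hik p hp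
      obtain ⟨h1, h2⟩ := hcommon i k hik p hp.1 hp.2
      obtain ⟨δ, σ, τ, hs, hτ, hang⟩ := htriple i k hik p h1 h2
      have hset : {l | IsEndpoint (arcI K (a l) (b l) (c l)) (arcG (a l) (b l) (c l)) p} =
          range (fun k => bcomp hs k) := by
        ext l
        rw [Set.mem_ofPred_eq, ga_isEndpoint (hpar l)]
        constructor
        · intro hl
          obtain ⟨k, hk⟩ := hends hs l hl
          exact ⟨k, hk.symm⟩
        · rintro ⟨k, rfl⟩
          exact hends' hs k h1.mem h1.not_reg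
      rw [hset]
      have hinj : Function.Injective (fun k => bcomp hs k) := by
        intro k l hkl
        have hkl' : bcomp hs k = bcomp hs l := hkl
        refine ga_branch_ne hΩ hc hKΩ hloc' hH hN (hpar (bcomp hs k)) h1.mem h1.not_reg hs
          (hsubc hs k) ?_
        rw [hkl']
        exact hsubc hs l
      rw [← Set.image_univ, hinj.encard_image]
      simp
    · intro i k hik p hp
      obtain ⟨h1, h2⟩ := hcommon i k hik p hp.1 hp.2
      obtain ⟨δ, σ, τ, hs, hτ, hang⟩ := htriple i k hik p h1 h2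
      classical
      refine ⟨fun l => if h : ∃ k, l = bcomp hs k then τ h.choose else 0, ?_, ?_⟩
      · intro l hl
        have hl' := (ga_isEndpoint (hpar l)).1 hl
        have hex := hends hs l hl'
        simp only [dif_pos hex]
        have hch := hex.choose_spec
        refine ga_direction hΩ hc hKΩ hloc' (hpar l) h1.mem h1.not_reg hs (k := hex.choose) ?_
          (hτ _)
        rw [himg]
        nth_rewrite 2 [hch]
        exact bcomp_subset hs _
      · intro l m hl hm hlm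
        have hexl := hends hs l ((ga_isEndpoint (hpar l)).1 hl)
        have hexm := hends hs m ((ga_isEndpoint (hpar m)).1 hm)
        simp only [dif_pos hexl, dif_pos hexm]
        refine hang _ _ (fun he => hlm ?_)
        rw [hexl.choose_spec, hexm.choose_spec, he]
  · intro i t ht
    have ht' : t ∈ Ioo (a i) (b i) := by
      have : t ∈ interior (arcI K (a i) (b i) (c i)) := ht
      rwa [interior_arcI (hpar i)] at this
    have heq : arcG (a i) (b i) (c i) =ᶠ[𝓝 t] c i := by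
      filter_upwards [isOpen_Ioo.mem_nhds ht'] with s hs using arcG_eq (hpar i) hs
    change deriv (arcG (a i) (b i) (c i)) t ≠ 0
    rw [heq.deriv_eq]
    exact (hpar i).deriv_ne t ht'

theorem ga_assembly {Ω K : Set ℂ} (hΩ : IsOpen Ω) (hKΩ : K ⊆ Ω) (hc : IsClosed (K ∪ Ωᶜ))
    (hloc : ∀ p ∈ K, IsRegPt K p ∨ IsTip K p ∨ IsTriple K p) (hN : NoRegion Ω K)
    (hH : NoHoles Ω) : IsAdmissibleUnion Ω K := by
  obtain ⟨ι, I, γ, h1, h2, _⟩ := ga_assembly_strong hΩ hKΩ hc hloc hN hH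
  exact ⟨ι, I, γ, h1, h2⟩

end Pool.Agent.MP099f24
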