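import Mathlib
import Pool.Agent.Lib.MP_099f24_an.GA.Main

/-!
# Global assembly: passage to open subsets
-/

namespace Pool.Agent.MP099f24

open MeasureTheory Filter Topology Set Metric
open scoped ENNReal ContDiff

theorem norm_coord_lt {e : ℂ} (he : ‖e‖ = 1) {s t r : ℝ} (hs : |s| < r) (ht : |t| < r) :
    ‖e * (s + t * Complex.I)‖ < 2 * r := by
  rw [norm_mul, he, one_mul]
  calc ‖(s : ℂ) + t * Complex.I‖ ≤ ‖(s : ℂ)‖ + ‖(t : ℂ) * Complex.I‖ := norm_add_le _ _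
    _ = |s| + |t| := by simp
    _ < 2 * r := by linarith

theorem IsRegPt.inter {K B : Set ℂ} (hB : IsOpen B) {p : ℂ} (h : IsRegPt K p) (hp : p ∈ B) :
    IsRegPt (K ∩ B) p := by
  obtain ⟨e, r, f, he, hr, hf, hf0, hK⟩ := h
  obtain ⟨ε, hε, hball⟩ := Metric.isOpen_iff.1 hB p hp
  have hr' : min r (ε / 2) ≤ r := min_le_left _ _
  refine ⟨e, min r (ε / 2), f, he, lt_min hr (by linarith), hf.mono ?_, hf0, ?_⟩
  · exact Ioo_subset_Ioo (by linarith) hr'
  · intro s t hs ht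
    rw [← hK s t (hs.trans_le hr') (ht.trans_le hr')]
    constructor
    · exact fun h => h.1
    · intro h
      refine ⟨h, hball ?_⟩
      have h1 := norm_coord_lt he (hs.trans_le (min_le_right _ _)) (ht.trans_le (min_le_right _ _))
      rw [mem_ball, dist_eq_norm, add_sub_cancel_left]
      linarith

theorem IsStar.inter {K B : Set ℂ} (hB : IsOpen B) {q : ℂ} {n : ℕ} {δ : ℝ} {σ : Fin n → ℝ → ℂ}
    (hs : IsStar K q n δ σ) (hq : q ∈ B) : ∃ δ' > 0, IsStar (K ∩ B) q n δ' σ := by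
  obtain ⟨ε, hε, hball⟩ := Metric.isOpen_iff.1 hB q hq
  have hsub : ∀ z : ℂ, ‖z - q‖ < min δ ε → z ∈ B := fun z hz => hball (by
    rw [mem_ball, dist_eq_norm]
    exact hz.trans_le (min_le_right _ _))
  refine ⟨min δ ε, lt_min hs.pos hε, lt_min hs.pos hε, ?_, ?_, ?_, ?_, ?_⟩
  · exact fun k => (hs.cont k).mono (Ioo_subset_Ioo_right (min_le_left _ _))
  · exact fun k s h => hs.norm_sub k s ⟨h.1, h.2.trans_le (min_le_left _ _)⟩
  · exact fun k l s h => hs.inj k l s ⟨h.1, h.2.trans_le (min_le_left _ _)⟩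
  · intro z hz0 hz1
    rw [← hs.mem_iff z hz0 (hz1.trans_le (min_le_left _ _))]
    exact ⟨fun h => h.1, fun h => ⟨h, hsub z hz1⟩⟩
  · intro z hz hz0 hz1
    exact (hs.reg z hz.1 hz0 (hz1.trans_le (min_le_left _ _))).inter hB hz.2

/-- **Global assembly in open subsets without holes.** -/
theorem ga_sub {Ω K B : Set ℂ} (hKΩ : K ⊆ Ω) (hc : IsClosed (K ∪ Ωᶜ))
    (hloc : ∀ p ∈ K, IsRegPt K p ∨ IsTip K p ∨ IsTriple K p) (hN : NoRegion Ω K)
    (hB : IsOpen B) (hBΩ : B ⊆ Ω) (hH : NoHoles B) :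
    ∃ (ι : Type) (I : ι → Set ℝ) (γ : ι → ℝ → ℂ), IsAdmissible B I γ ∧
      K ∩ B = ⋃ i, γ i '' I i ∧ (∀ i, ∀ t ∈ interior (I i), deriv (γ i) t ≠ 0) := by
  refine ga_assembly_strong hB inter_subset_right ?_ ?_ ?_ hH
  · have : K ∩ B ∪ Bᶜ = (K ∪ Ωᶜ) ∪ Bᶜ := by
      ext z
      simp only [mem_union, mem_inter_iff, mem_compl_iff]
      constructor
      · rintro (⟨h1, _⟩ | h)
        · exact Or.inl (Or.inl h1)
        · exact Or.inr h
      · rintro ((h | h) | h)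
        · by_cases hz : z ∈ B
          · exact Or.inl ⟨h, hz⟩
          · exact Or.inr hz
        · exact Or.inr (fun hz => h (hBΩ hz))
        · exact Or.inr h
    rw [this]
    exact hc.union hB.isClosed_compl
  · rintro p ⟨hp, hpB⟩
    rcases hloc p hp with h | ⟨δ, σ, h⟩ | ⟨δ, σ, τ, h, hτ, hang⟩
    · exact Or.inl (h.inter hB hpB)
    · obtain ⟨δ', _, h'⟩ := h.inter hB hpB
      exact Or.inr (Or.inl ⟨δ', σ, h'⟩)
    · obtain ⟨δ', _, h'⟩ := h.inter hB hpB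
      exact Or.inr (Or.inr ⟨δ', σ, τ, h', hτ, hang⟩)
  · intro W h1 h2 h3 h4 h5
    exact hN W h1 h2 h3 (h4.trans hBΩ) (h5.trans inter_subset_left)

/-- discs have no holes -/
theorem noHoles_ball (a : ℂ) (r : ℝ) : NoHoles (ball a r) := by
  intro x hx hb
  -- the ray from `a` through `x` beyond `x` (or any ray if the disc is empty)
  have hray : ∃ v : ℂ, v ≠ 0 ∧ ∀ t : ℝ, 0 ≤ t → x + t * v ∈ (ball a r)ᶜ := by
    by_cases hxa : x = a
    · refine ⟨1, one_ne_zero, fun t ht => ?_⟩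
      have hr : r ≤ 0 := by
        by_contra hr
        exact hx (hxa ▸ mem_ball_self (not_le.1 hr))
      rw [ball_eq_empty.2 hr]
      simp
    · refine ⟨x - a, sub_ne_zero.2 hxa, fun t ht => ?_⟩
      have h1 : r ≤ ‖x - a‖ := by
        rw [mem_compl_iff, mem_ball, dist_eq_norm, not_lt] at hx
        exact hx
      rw [mem_compl_iff, mem_ball, dist_eq_norm, not_lt]
      have h2 : x + t * (x - a) - a = ((1 + t : ℝ) : ℂ) * (x - a) := by
        push_cast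
        ring
      rw [h2, norm_mul, Complex.norm_real, Real.norm_of_nonneg (by linarith)]
      nlinarith [norm_nonneg (x - a)]
  obtain ⟨v, hv, hv2⟩ := hray
  have hconn : IsPreconnected ((fun t : ℝ => x + t * v) '' Ici 0) :=
    isPreconnected_Ici.image _ (by fun_prop)
  have hsub : (fun t : ℝ => x + t * v) '' Ici 0 ⊆ (ball a r)ᶜ := by
    rintro _ ⟨t, ht, rfl⟩
    exact hv2 t ht
  have h0 : x ∈ (fun t : ℝ => x + t * v) '' Ici 0 := ⟨0, self_mem_Ici, by simp⟩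
  have h1 := hconn.subset_connectedComponentIn h0 hsub
  obtain ⟨C, hC⟩ := (hb.subset h1).exists_norm_le
  have hvpos : 0 < ‖v‖ := norm_pos_iff.2 hv
  have h2 := hC (x + (((C + ‖x‖ + 1) / ‖v‖ : ℝ) : ℂ) * v) ⟨(C + ‖x‖ + 1) / ‖v‖, by
    have : 0 ≤ C := (norm_nonneg _).trans (hC x h0)
    exact mem_Ici.2 (by positivity), rfl⟩
  have h3 : ‖(((C + ‖x‖ + 1) / ‖v‖ : ℝ) : ℂ) * v‖ = C + ‖x‖ + 1 := by
    have : 0 ≤ C := (norm_nonneg _).trans (hC x h0)
    rw [norm_mul, Complex.norm_real, Real.norm_of_nonneg (by positivity)]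
    field_simp
  have h4 : ‖(((C + ‖x‖ + 1) / ‖v‖ : ℝ) : ℂ) * v‖ ≤
      ‖x + (((C + ‖x‖ + 1) / ‖v‖ : ℝ) : ℂ) * v‖ + ‖x‖ := by
    have := norm_sub_le (x + (((C + ‖x‖ + 1) / ‖v‖ : ℝ) : ℂ) * v) x
    rwa [add_sub_cancel_left] at this
  linarith

theorem noHoles_univ : NoHoles (univ : Set ℂ) := by
  intro x hx
  simp at hx

end Pool.Agent.MP099f24
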