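import Mathlib
import Pool.Agent.Lib.MP_099f24_an.GA.Sub

/-!
# Regions bounded by `K` have a regular boundary point with one side in the region
-/

namespace Pool.Agent.MP099f24

open MeasureTheory Filter Topology Set Metric
open scoped ENNReal ContDiff

/-- first coordinate with respect to the frame `(x, e)` -/
noncomputable def xco (x e z : ℂ) : ℝ := ((z - x) * (starRingEnd ℂ) e).re

/-- second coordinate with respect to the frame `(x, e)` -/
noncomputable def yco (x e z : ℂ) : ℝ := ((z - x) * (starRingEnd ℂ) e).im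

theorem eq_co {x e : ℂ} (he : ‖e‖ = 1) (z : ℂ) :
    z = x + e * ((xco x e z : ℝ) + (yco x e z : ℝ) * Complex.I) := by
  have h1 : ((xco x e z : ℝ) : ℂ) + (yco x e z : ℝ) * Complex.I = (z - x) * (starRingEnd ℂ) e := by
    rw [xco, yco, Complex.re_add_im]
  have h2 : e * (starRingEnd ℂ) e = 1 := by
    rw [Complex.mul_conj, Complex.normSq_eq_norm_sq, he]
    norm_num
  rw [h1]
  calc z = x + (z - x) * (e * (starRingEnd ℂ) e) := by rw [h2]; ring
    _ = x + e * ((z - x) * (starRingEnd ℂ) e) := by ring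

theorem co_eq {x e : ℂ} (he : ‖e‖ = 1) (s t : ℝ) :
    xco x e (x + e * (s + t * Complex.I)) = s ∧ yco x e (x + e * (s + t * Complex.I)) = t := by
  have h2 : e * (starRingEnd ℂ) e = 1 := by
    rw [Complex.mul_conj, Complex.normSq_eq_norm_sq, he]
    norm_num
  have h3 : (x + e * (s + t * Complex.I) - x) * (starRingEnd ℂ) e = s + t * Complex.I := by
    calc (x + e * (s + t * Complex.I) - x) * (starRingEnd ℂ) e
        = (e * (starRingEnd ℂ) e) * (s + t * Complex.I) := by ring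
      _ = s + t * Complex.I := by rw [h2, one_mul]
  constructor
  · rw [xco, h3]; simp
  · rw [yco, h3]; simp

theorem continuous_xco (x e : ℂ) : Continuous (xco x e) := by
  unfold xco
  fun_prop

theorem continuous_yco (x e : ℂ) : Continuous (yco x e) := by
  unfold yco
  fun_prop

theorem xco_self (x e : ℂ) : xco x e x = 0 := by simp [xco]

theorem yco_self (x e : ℂ) : yco x e x = 0 := by simp [yco]

/-- In the disc `B_ρ(x)` the set `K` is a `C¹` graph and `W` is the part above the graph. -/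
def OneSide (K W : Set ℂ) (x : ℂ) : Prop :=
  ∃ (e : ℂ) (ρ r : ℝ) (f : ℝ → ℝ), ‖e‖ = 1 ∧ 0 < ρ ∧ ρ ≤ r ∧ ContDiffOn ℝ 1 f (Ioo (-r) r) ∧
    f 0 = 0 ∧ (∀ z ∈ ball x ρ, z ∈ K ↔ yco x e z = f (xco x e z)) ∧
    (∀ z ∈ ball x ρ, z ∈ W ↔ f (xco x e z) < yco x e z)

/-- The dichotomy at a regular point. -/
theorem side_cases {K W : Set ℂ} (hW : IsOpen W) (hWK : frontier W ⊆ K) {x : ℂ}
    (hx : IsRegPt K x) :
    ∃ (e : ℂ) (r₁ r : ℝ) (f : ℝ → ℝ), ‖e‖ = 1 ∧ 0 < r₁ ∧ r₁ ≤ r ∧ ContDiffOn ℝ 1 f (Ioo (-r) r) ∧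
      f 0 = 0 ∧ (∀ s, |s| < r₁ → |f s| < r) ∧
      (∀ s t : ℝ, |s| < r₁ → |t| < r → (x + e * (s + t * Complex.I) ∈ K ↔ t = f s)) ∧
      ((∀ s t : ℝ, |s| < r₁ → |t| < r → f s < t → x + e * (s + t * Complex.I) ∈ W) ∨
        (∀ s t : ℝ, |s| < r₁ → |t| < r → f s < t → x + e * (s + t * Complex.I) ∈ (closure W)ᶜ)) ∧
      ((∀ s t : ℝ, |s| < r₁ → |t| < r → t < f s → x + e * (s + t * Complex.I) ∈ W) ∨
        (∀ s t : ℝ, |s| < r₁ → |t| < r → t < f s → x + e * (s + t * Complex.I) ∈ (closure W)ᶜ)) := by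
  obtain ⟨e, r, f, he, hr, hf, hf0, hK⟩ := hx
  have hfc : ContinuousOn f (Ioo (-r) r) := hf.continuousOn
  have hf0c : ContinuousAt f 0 := hfc.continuousAt (Ioo_mem_nhds (by linarith) hr)
  have hev : ∀ᶠ s in 𝓝 (0 : ℝ), |f s| < r := by
    have := hf0c.abs
    exact this.eventually_lt_const (by simpa [hf0] using hr)
  obtain ⟨ε, hε, hsub⟩ := Metric.eventually_nhds_iff.1 hev
  set r₁ := min ε r with hr₁
  have hr₁r : r₁ ≤ r := min_le_right _ _
  have hr₁0 : 0 < r₁ := lt_min hε hr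
  have hfr : ∀ s, |s| < r₁ → |f s| < r := fun s hs =>
    hsub (by rw [Real.dist_eq, sub_zero]; exact hs.trans_le (min_le_left _ _))
  have hfc1 : ContinuousOn f (Ioo (-r₁) r₁) := hfc.mono (Ioo_subset_Ioo (by linarith) hr₁r)
  have hnotK : ∀ s t : ℝ, |s| < r₁ → |t| < r → t ≠ f s → x + e * (s + t * Complex.I) ∉ K :=
    fun s t hs ht hne hmem => hne ((hK s t (hs.trans_le hr₁r) ht).1 hmem)
  have hdich : ∀ A : Set ℂ, IsPreconnected A → (∀ z ∈ A, z ∉ K) → A ⊆ W ∨ A ⊆ (closure W)ᶜ := by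
    intro A hA hAK
    refine isPreconnected_iff_subset_of_disjoint.1 hA W (closure W)ᶜ hW
      isClosed_closure.isOpen_compl ?_ ?_
    · intro z hz
      by_cases hzc : z ∈ closure W
      · by_cases hzW : z ∈ W
        · exact Or.inl hzW
        · refine absurd (hWK ?_) (hAK z hz)
          rw [frontier, hW.interior_eq]
          exact ⟨hzc, hzW⟩
      · exact Or.inr hzc
    · rw [Set.eq_empty_iff_forall_notMem]
      rintro z ⟨_, h1, h2⟩
      exact h2 (subset_closure h1)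
  have hprod : IsPreconnected (Ioo (-r₁) r₁ ×ˢ Ioo (0 : ℝ) 1) :=
    isPreconnected_Ioo.prod isPreconnected_Ioo
  refine ⟨e, r₁, r, f, he, hr₁0, hr₁r, hf, hf0, hfr,
    fun s t hs ht => hK s t (hs.trans_le hr₁r) ht, ?_, ?_⟩
  · set Φ : ℝ × ℝ → ℂ := fun p => x + e * ((p.1 : ℝ) + ((f p.1 + p.2 * (r - f p.1) : ℝ) : ℂ) *
      Complex.I) with hΦ
    have hfst : ContinuousOn (fun p : ℝ × ℝ => f p.1) (Ioo (-r₁) r₁ ×ˢ Ioo (0 : ℝ) 1) :=
      hfc1.comp continuous_fst.continuousOn (fun p hp => hp.1)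
    have hΦc : ContinuousOn Φ (Ioo (-r₁) r₁ ×ˢ Ioo (0 : ℝ) 1) := by
      have h2 : ContinuousOn (fun p : ℝ × ℝ => f p.1 + p.2 * (r - f p.1))
          (Ioo (-r₁) r₁ ×ˢ Ioo (0 : ℝ) 1) :=
        hfst.add (continuous_snd.continuousOn.mul (continuousOn_const.sub hfst))
      have h3 := Complex.continuous_ofReal.comp_continuousOn h2
      have h4 : ContinuousOn (fun p : ℝ × ℝ => ((p.1 : ℝ) : ℂ)) (Ioo (-r₁) r₁ ×ˢ Ioo (0 : ℝ) 1) :=
        (Complex.continuous_ofReal.comp continuous_fst).continuousOn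
      exact continuousOn_const.add (continuousOn_const.mul (h4.add (h3.mul continuousOn_const)))
    have himg : ∀ s t : ℝ, |s| < r₁ → |t| < r → f s < t →
        x + e * (s + t * Complex.I) ∈ Φ '' (Ioo (-r₁) r₁ ×ˢ Ioo (0 : ℝ) 1) := by
      intro s t hs ht hst
      have h1 : 0 < r - f s := by linarith [(abs_lt.1 (hfr s hs)).2]
      refine ⟨(s, (t - f s) / (r - f s)), ⟨abs_lt.1 hs, div_pos (by linarith) h1, ?_⟩, ?_⟩
      · change (t - f s) / (r - f s) < 1
        rw [div_lt_one h1]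
        linarith [(abs_lt.1 ht).2]
      · rw [hΦ]
        simp only
        rw [div_mul_cancel₀ _ h1.ne']
        congr 4
        push_cast
        ring
    have hAK : ∀ z ∈ Φ '' (Ioo (-r₁) r₁ ×ˢ Ioo (0 : ℝ) 1), z ∉ K := by
      rintro _ ⟨⟨s, l⟩, ⟨hs, hl⟩, rfl⟩
      have hs' : |s| < r₁ := abs_lt.2 hs
      have h1 := abs_lt.1 (hfr s hs')
      have h2 : 0 < r - f s := by linarith
      have hl1 : (0 : ℝ) < l := hl.1
      have hl2 : l < (1 : ℝ) := hl.2
      refine hnotK s _ hs' (abs_lt.2 ⟨?_, ?_⟩) ?_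
      · simp only; nlinarith
      · simp only; nlinarith
      · simp only; nlinarith
    rcases hdich _ (hprod.image _ hΦc) hAK with h | h
    · exact Or.inl (fun s t hs ht hst => h (himg s t hs ht hst))
    · exact Or.inr (fun s t hs ht hst => h (himg s t hs ht hst))
  · set Φ : ℝ × ℝ → ℂ := fun p => x + e * ((p.1 : ℝ) + ((f p.1 - p.2 * (r + f p.1) : ℝ) : ℂ) *
      Complex.I) with hΦ
    have hfst : ContinuousOn (fun p : ℝ × ℝ => f p.1) (Ioo (-r₁) r₁ ×ˢ Ioo (0 : ℝ) 1) :=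
      hfc1.comp continuous_fst.continuousOn (fun p hp => hp.1)
    have hΦc : ContinuousOn Φ (Ioo (-r₁) r₁ ×ˢ Ioo (0 : ℝ) 1) := by
      have h2 : ContinuousOn (fun p : ℝ × ℝ => f p.1 - p.2 * (r + f p.1))
          (Ioo (-r₁) r₁ ×ˢ Ioo (0 : ℝ) 1) :=
        hfst.sub (continuous_snd.continuousOn.mul (continuousOn_const.add hfst))
      have h3 := Complex.continuous_ofReal.comp_continuousOn h2
      have h4 : ContinuousOn (fun p : ℝ × ℝ => ((p.1 : ℝ) : ℂ)) (Ioo (-r₁) r₁ ×ˢ Ioo (0 : ℝ) 1) :=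
        (Complex.continuous_ofReal.comp continuous_fst).continuousOn
      exact continuousOn_const.add (continuousOn_const.mul (h4.add (h3.mul continuousOn_const)))
    have himg : ∀ s t : ℝ, |s| < r₁ → |t| < r → t < f s →
        x + e * (s + t * Complex.I) ∈ Φ '' (Ioo (-r₁) r₁ ×ˢ Ioo (0 : ℝ) 1) := by
      intro s t hs ht hst
      have h1 : 0 < r + f s := by linarith [(abs_lt.1 (hfr s hs)).1]
      refine ⟨(s, (f s - t) / (r + f s)), ⟨abs_lt.1 hs, div_pos (by linarith) h1, ?_⟩, ?_⟩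
      · change (f s - t) / (r + f s) < 1
        rw [div_lt_one h1]
        linarith [(abs_lt.1 ht).1]
      · rw [hΦ]
        simp only
        rw [div_mul_cancel₀ _ h1.ne']
        congr 4
        push_cast
        ring
    have hAK : ∀ z ∈ Φ '' (Ioo (-r₁) r₁ ×ˢ Ioo (0 : ℝ) 1), z ∉ K := by
      rintro _ ⟨⟨s, l⟩, ⟨hs, hl⟩, rfl⟩
      have hs' : |s| < r₁ := abs_lt.2 hs
      have h1 := abs_lt.1 (hfr s hs')
      have h2 : 0 < r + f s := by linarith
      have hl1 : (0 : ℝ) < l := hl.1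
      have hl2 : l < (1 : ℝ) := hl.2
      refine hnotK s _ hs' (abs_lt.2 ⟨?_, ?_⟩) ?_
      · simp only; nlinarith
      · simp only; nlinarith
      · simp only; nlinarith
    rcases hdich _ (hprod.image _ hΦc) hAK with h | h
    · exact Or.inl (fun s t hs ht hst => h (himg s t hs ht hst))
    · exact Or.inr (fun s t hs ht hst => h (himg s t hs ht hst))

end Pool.Agent.MP099f24
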