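import Mathlib
import Pool.Agent.Lib.MP_099f24_an.GA.Side

/-!
# A region bounded by `K` has a regular boundary point with exactly one side in the region
-/

namespace Pool.Agent.MP099f24

open MeasureTheory Filter Topology Set Metric
open scoped ENNReal ContDiff

theorem abs_xco_le {x e : ℂ} (he : ‖e‖ = 1) (z : ℂ) : |xco x e z| ≤ ‖z - x‖ := by
  calc |xco x e z| ≤ ‖(z - x) * (starRingEnd ℂ) e‖ := Complex.abs_re_le_norm _
    _ = ‖z - x‖ := by rw [norm_mul, Complex.norm_conj, he, mul_one]

theorem abs_yco_le {x e : ℂ} (he : ‖e‖ = 1) (z : ℂ) : |yco x e z| ≤ ‖z - x‖ := by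
  calc |yco x e z| ≤ ‖(z - x) * (starRingEnd ℂ) e‖ := Complex.abs_im_le_norm _
    _ = ‖z - x‖ := by rw [norm_mul, Complex.norm_conj, he, mul_one]

/-- points slightly above and below a point of the plane -/
theorem exists_shift {x e : ℂ} {W : Set ℂ} (hW : IsOpen W) {s t r : ℝ} (ht : |t| < r)
    (hz : x + e * (s + t * Complex.I) ∈ W) : ∃ t₁ t₂ : ℝ, t₁ < t ∧ t < t₂ ∧ |t₁| < r ∧ |t₂| < r ∧
      x + e * (s + t₁ * Complex.I) ∈ W ∧ x + e * (s + t₂ * Complex.I) ∈ W := by
  have hcont : Continuous (fun τ : ℝ => x + e * ((s : ℂ) + (τ : ℂ) * Complex.I)) := by fun_prop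
  have h1 : ∀ᶠ τ : ℝ in 𝓝 t, x + e * ((s : ℂ) + (τ : ℂ) * Complex.I) ∈ W :=
    hcont.continuousAt.eventually (hW.mem_nhds hz)
  have h2 : ∀ᶠ τ : ℝ in 𝓝 t, |τ| < r := continuous_abs.continuousAt.eventually_lt_const ht
  obtain ⟨ε, hε, hsub⟩ := Metric.eventually_nhds_iff.1 (h1.and h2)
  have hd1 : dist (t - ε / 2) t < ε := by
    rw [Real.dist_eq, sub_sub_cancel_left, abs_neg, abs_of_pos (by linarith)]
    linarith
  have hd2 : dist (t + ε / 2) t < ε := by
    rw [Real.dist_eq, add_sub_cancel_left, abs_of_pos (by linarith)]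
    linarith
  have h3 := hsub hd1
  have h4 := hsub hd2
  exact ⟨t - ε / 2, t + ε / 2, by linarith, by linarith, h3.2, h4.2, h3.1, h4.1⟩

/-- the one-sided case -/
theorem oneSide_of {K W : Set ℂ} (hW : IsOpen W) {x e : ℂ} {r₁ r : ℝ} {f : ℝ → ℝ} (he : ‖e‖ = 1)
    (hr₁ : 0 < r₁) (hr : r₁ ≤ r) (hf : ContDiffOn ℝ 1 f (Ioo (-r) r)) (hf0 : f 0 = 0)
    (hK : ∀ s t : ℝ, |s| < r₁ → |t| < r → (x + e * (s + t * Complex.I) ∈ K ↔ t = f s))
    (h1 : ∀ s t : ℝ, |s| < r₁ → |t| < r → f s < t → x + e * (s + t * Complex.I) ∈ W)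
    (h2 : ∀ s t : ℝ, |s| < r₁ → |t| < r → t < f s → x + e * (s + t * Complex.I) ∈ (closure W)ᶜ) :
    OneSide K W x := by
  have hco : ∀ z ∈ ball x r₁, |xco x e z| < r₁ ∧ |yco x e z| < r := by
    intro z hz
    rw [mem_ball, dist_eq_norm] at hz
    exact ⟨(abs_xco_le he z).trans_lt hz, ((abs_yco_le he z).trans_lt hz).trans_le hr⟩
  refine ⟨e, r₁, r, f, he, hr₁, hr, hf, hf0, ?_, ?_⟩
  · intro z hz
    obtain ⟨h3, h4⟩ := hco z hz
    have := hK _ _ h3 h4
    rwa [← eq_co he z] at this
  · intro z hz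
    obtain ⟨h3, h4⟩ := hco z hz
    constructor
    · intro hzW
      by_contra hle
      rw [not_lt] at hle
      rcases eq_or_lt_of_le hle with h5 | h5
      · have hzW' := hzW
        rw [eq_co he z] at hzW'
        obtain ⟨t₁, t₂, h6, _, h7, _, h8, _⟩ := exists_shift hW h4 hzW'
        exact h2 _ _ h3 h7 (by rw [← h5]; exact h6) (subset_closure h8)
      · have h6 := h2 _ _ h3 h4 h5
        rw [← eq_co he z] at h6
        exact h6 (subset_closure hzW)
    · intro hlt
      have h6 := h1 _ _ h3 h4 hlt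
      rwa [← eq_co he z] at h6

/-- at a regular boundary point which is not one-sided both sides are in `W` -/
theorem both_sides {K W : Set ℂ} (hW : IsOpen W) (hWK : frontier W ⊆ K) {x : ℂ}
    (hx : IsRegPt K x) (hxW : x ∈ closure W) (hno : ¬ OneSide K W x) :
    ∃ (e : ℂ) (r₁ r : ℝ) (f : ℝ → ℝ), ‖e‖ = 1 ∧ 0 < r₁ ∧ r₁ ≤ r ∧
      (∀ s, |s| < r₁ → |f s| < r) ∧
      (∀ s t : ℝ, |s| < r₁ → |t| < r → (x + e * (s + t * Complex.I) ∈ K ↔ t = f s)) ∧
      (∀ s t : ℝ, |s| < r₁ → |t| < r → t ≠ f s → x + e * (s + t * Complex.I) ∈ W) := by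
  obtain ⟨e, r₁, r, f, he, hr₁, hr, hf, hf0, hfr, hK, h1, h2⟩ := side_cases hW hWK hx
  rcases h1 with h1 | h1 <;> rcases h2 with h2 | h2
  · refine ⟨e, r₁, r, f, he, hr₁, hr, hfr, hK, fun s t hs ht hne => ?_⟩
    rcases lt_or_gt_of_ne hne with h | h
    · exact h2 s t hs ht h
    · exact h1 s t hs ht h
  · exact absurd (oneSide_of hW he hr₁ hr hf hf0 hK h1 h2) hno
  · have key : ∀ s t : ℝ, x + -e * (s + t * Complex.I) =
        x + e * (((-s : ℝ) : ℂ) + ((-t : ℝ) : ℂ) * Complex.I) := by
      intro s t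
      push_cast
      ring
    refine absurd (oneSide_of (e := -e) (f := fun s => -f (-s)) hW (by rwa [norm_neg]) hr₁ hr
      ?_ ?_ ?_ ?_ ?_) hno
    · refine ContDiffOn.neg (hf.comp contDiff_neg.contDiffOn (fun s hs => ?_))
      exact ⟨by linarith [hs.2], by linarith [hs.1]⟩
    · simp [hf0]
    · intro s t hs ht
      rw [key, hK (-s) (-t) (by rwa [abs_neg]) (by rwa [abs_neg])]
      constructor
      · intro h; linarith
      · intro h; linarith
    · intro s t hs ht hst
      rw [key]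
      exact h2 (-s) (-t) (by rwa [abs_neg]) (by rwa [abs_neg]) (by linarith)
    · intro s t hs ht hst
      rw [key]
      exact h1 (-s) (-t) (by rwa [abs_neg]) (by rwa [abs_neg]) (by linarith)
  · exfalso
    -- `W` meets the disc `B_{r₁}(x)`
    obtain ⟨z, hzb, hzW⟩ := _root_.mem_closure_iff.1 hxW (ball x r₁) isOpen_ball (mem_ball_self hr₁)
    rw [mem_ball, dist_eq_norm] at hzb
    have h3 : |xco x e z| < r₁ := (abs_xco_le he z).trans_lt hzb
    have h4 : |yco x e z| < r := ((abs_yco_le he z).trans_lt hzb).trans_le hr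
    rw [eq_co he z] at hzW
    rcases lt_trichotomy (yco x e z) (f (xco x e z)) with h5 | h5 | h5
    · exact h2 _ _ h3 h4 h5 (subset_closure hzW)
    · obtain ⟨t₁, t₂, h6, _, h7, _, h8, _⟩ := exists_shift hW h4 hzW
      exact h2 _ _ h3 h7 (by rw [← h5]; exact h6) (subset_closure h8)
    · exact h1 _ _ h3 h4 h5 (subset_closure hzW)

/-- **Topological half of the no-region property.** -/
theorem side_exists {Ω K W : Set ℂ}
    (hloc : ∀ p ∈ K, IsRegPt K p ∨ ∃ (n : ℕ) (δ : ℝ) (σ : Fin n → ℝ → ℂ), IsStar K p n δ σ)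
    (hWo : IsOpen W) (hWn : W.Nonempty) (hWb : Bornology.IsBounded W) (hWΩ : closure W ⊆ Ω)
    (hWK : frontier W ⊆ K) : ∃ x ∈ K, IsRegPt K x ∧ OneSide K W x := by
  by_contra hno
  push Not at hno
  have hfr : ∀ x ∈ frontier W, x ∈ closure W ∧ x ∉ W := by
    intro x hx
    rw [frontier, hWo.interior_eq] at hx
    exact hx
  set W' : Set ℂ := W ∪ {x | x ∈ frontier W ∧ IsRegPt K x} with hW'
  have hsub : W' ⊆ closure W := by
    rintro x (hx | hx)
    · exact subset_closure hx
    · exact (hfr x hx.1).1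
  have hopen : IsOpen W' := by
    rw [isOpen_iff_mem_nhds]
    rintro x (hx | ⟨hx, hreg⟩)
    · exact Filter.mem_of_superset (hWo.mem_nhds hx) subset_union_left
    · obtain ⟨e, r₁, r, f, he, hr₁, hr, hfr', hK, hin⟩ :=
        both_sides hWo hWK hreg (hfr x hx).1 (hno x (hWK hx) hreg)
      obtain ⟨δ, σ, D, hD⟩ := ga_chart hreg
      refine Filter.mem_of_superset (Filter.inter_mem (ball_mem_nhds x hr₁)
        (hD.isOpen.mem_nhds hD.mem)) ?_
      rintro z ⟨hzb, hzD⟩
      rw [mem_ball, dist_eq_norm] at hzb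
      have h3 : |xco x e z| < r₁ := (abs_xco_le he z).trans_lt hzb
      have h4 : |yco x e z| < r := ((abs_yco_le he z).trans_lt hzb).trans_le hr
      by_cases hy : yco x e z = f (xco x e z)
      · -- a point of the graph
        by_cases hzW : z ∈ W
        · exact Or.inl hzW
        · right
          have hzK : z ∈ K := by
            have := (hK _ _ h3 h4).2 hy
            rwa [← eq_co he z] at this
          refine ⟨?_, hD.reg z ⟨hzK, hzD⟩⟩
          rw [frontier, hWo.interior_eq]
          refine ⟨?_, hzW⟩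
          rw [_root_.mem_closure_iff]
          intro o ho hzo
          have hzo' := hzo
          rw [eq_co he z] at hzo'
          obtain ⟨t₁, t₂, h6, _, h7, _, h8, _⟩ := exists_shift ho h4 hzo'
          exact ⟨_, h8, hin _ _ h3 h7 (by rw [← hy]; exact h6.ne)⟩
      · left
        have := hin _ _ h3 h4 hy
        rwa [← eq_co he z] at this
  have hfin : (frontier W').Finite := by
    have hcomp : IsCompact (frontier W') := by
      refine Metric.isCompact_of_isClosed_isBounded isClosed_frontier ?_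
      refine (hWb.closure.subset ?_)
      exact frontier_subset_closure.trans (closure_minimal hsub isClosed_closure)
    have hfr2 : ∀ x ∈ frontier W', x ∈ K ∧ ¬ IsRegPt K x := by
      intro x hx
      rw [frontier, hopen.interior_eq] at hx
      have h1 : x ∈ closure W := (closure_minimal hsub isClosed_closure) hx.1
      have h2 : x ∉ W := fun h => hx.2 (Or.inl h)
      have h3 : x ∈ frontier W := by
        rw [frontier, hWo.interior_eq]
        exact ⟨h1, h2⟩
      exact ⟨hWK h3, fun h => hx.2 (Or.inr ⟨h3, h⟩)⟩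
    have : ∀ M : Set ℂ, IsCompact M → M ⊆ frontier W' → (frontier W' ∩ M).Finite := by
      intro M hM hMsub
      refine hM.induction_on (p := fun M => (frontier W' ∩ M).Finite) (by simp) ?_ ?_ ?_
      · exact fun s t hst ht => ht.subset (inter_subset_inter_right _ hst)
      · intro s t hs ht
        rw [inter_union_distrib_left]
        exact hs.union ht
      · intro x hx
        obtain ⟨hxK, hxr⟩ := hfr2 x (hMsub hx)
        obtain ⟨n, δ, σ, hs⟩ := (hloc x hxK).resolve_left hxr
        refine ⟨ball x δ, mem_nhdsWithin_of_mem_nhds (ball_mem_nhds x hs.pos),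
          (Set.finite_singleton x).subset ?_⟩
        rintro z ⟨hz1, hz2⟩
        by_contra hne
        obtain ⟨hzK, hzr⟩ := hfr2 z hz1
        rw [mem_ball, dist_eq_norm] at hz2
        exact hzr (hs.reg z hzK (norm_pos_iff.2 (sub_ne_zero.2 hne)) hz2)
    have h := this _ hcomp subset_rfl
    rwa [inter_self] at h
  have hconn : IsPreconnected (frontier W')ᶜ :=
    (hfin.countable.isConnected_compl_of_one_lt_rank
      (by rw [Complex.rank_real_complex]; norm_num)).isPreconnected
  have hcases : (frontier W')ᶜ ⊆ W' ∨ (frontier W')ᶜ ⊆ (closure W')ᶜ := by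
    refine isPreconnected_iff_subset_of_disjoint.1 hconn W' (closure W')ᶜ hopen
      isClosed_closure.isOpen_compl ?_ ?_
    · intro z hz
      by_cases hzc : z ∈ closure W'
      · by_cases hzW : z ∈ W'
        · exact Or.inl hzW
        · refine absurd ?_ hz
          rw [frontier, hopen.interior_eq]
          exact ⟨hzc, hzW⟩
      · exact Or.inr hzc
    · rw [Set.eq_empty_iff_forall_notMem]
      rintro z ⟨_, h1, h2⟩
      exact h2 (subset_closure h1)
  rcases hcases with h | h
  · -- `W'` is bounded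
    obtain ⟨C, hC⟩ := (hWb.closure.subset hsub).exists_norm_le
    obtain ⟨C', hC'⟩ := (hfin.isBounded).exists_norm_le
    set R : ℝ := |C| + |C'| + 1 with hR
    have h1 : ((R : ℝ) : ℂ) ∈ (frontier W')ᶜ := by
      intro hmem
      have h2 := hC' _ hmem
      rw [Complex.norm_real, Real.norm_of_nonneg (by positivity)] at h2
      linarith [abs_nonneg C, le_abs_self C']
    have h3 := hC _ (h h1)
    rw [Complex.norm_real, Real.norm_of_nonneg (by positivity)] at h3
    linarith [abs_nonneg C', le_abs_self C]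
  · obtain ⟨w, hw⟩ := hWn
    have hw' : w ∈ W' := Or.inl hw
    have h1 : w ∈ (frontier W')ᶜ := by
      intro hmem
      rw [frontier, hopen.interior_eq] at hmem
      exact hmem.2 hw'
    exact h h1 (subset_closure hw')

end Pool.Agent.MP099f24
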