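import Mathlib
import Pool.Agent.Lib.MP_099f24_an.GA.Chart
import Pool.Agent.Lib.MP_099f24_an.GA.Jordan

/-!
# Global assembly in domains with holes: every closed curve surrounds a hole
-/

namespace Pool.Agent.MP099f24

open MeasureTheory Filter Topology Set Metric
open scoped ENNReal ContDiff

/-- Every simple closed curve contained in `S` surrounds a hole of `Ω`: some point outside `Ω`
lies in a bounded component of its complement. -/
def CyclesSurroundHoles (Ω S : Set ℂ) : Prop :=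
  ∀ (c : ℝ → ℂ) (T : ℝ), 0 < T → Continuous c → (∀ t, c (t + T) = c t) → InjOn c (Ico 0 T) →
    range c ⊆ S → ∃ x ∈ Ωᶜ, Bornology.IsBounded (connectedComponentIn (range c)ᶜ x)

theorem cyc_regMem {K : Set ℂ} {p : ℂ} (h : IsRegPt K p) : p ∈ K := by
  obtain ⟨e, r, f, _, hr, _, hf0, hiff⟩ := h
  have h1 := (hiff 0 0 (by simpa using hr) (by simpa using hr)).mpr hf0.symm
  simpa using h1

/-- equal values of a closed curve -/
theorem cyc_eq {c : ℝ → ℂ} {T : ℝ} (hT : 0 < T) (hper : ∀ t, c (t + T) = c t)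
    (hinj : InjOn c (Ico 0 T)) {s t : ℝ} (h : c s = c t) : ∃ n : ℤ, s - t = n * T := by
  have hp : Function.Periodic c T := hper
  have h1 : ∀ x, c (toIcoMod hT 0 x) = c x := fun x => by
    rw [toIcoMod]
    exact hp.sub_zsmul_eq _
  have h2 : toIcoMod hT 0 s = toIcoMod hT 0 t := by
    refine hinj ?_ ?_ ?_
    · have := toIcoMod_mem_Ico hT 0 s
      rwa [zero_add] at this
    · have := toIcoMod_mem_Ico hT 0 t
      rwa [zero_add] at this
    · rw [h1, h1, h]
  refine ⟨toIcoDiv hT 0 s - toIcoDiv hT 0 t, ?_⟩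
  unfold toIcoMod at h2
  rw [zsmul_eq_mul, zsmul_eq_mul] at h2
  push_cast
  linear_combination h2

/-- on an interval of length less than the period a closed curve is injective -/
theorem cyc_inj {c : ℝ → ℂ} {T : ℝ} (hT : 0 < T) (hper : ∀ t, c (t + T) = c t)
    (hinj : InjOn c (Ico 0 T)) {s t : ℝ} (h : c s = c t) (hst : |s - t| < T) : s = t := by
  obtain ⟨n, hn⟩ := cyc_eq hT hper hinj h
  rw [hn, abs_mul, abs_of_pos hT] at hst
  have h1 : |(n : ℝ)| < 1 := by
    by_contra hcon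
    push Not at hcon
    nlinarith
  have h2 : n = 0 := by
    have h3 : |n| < 1 := by exact_mod_cast h1
    exact Int.abs_lt_one_iff.1 h3
  rw [h2] at hn
  simp at hn
  linarith

/-- a closed curve in `K` passes through a regular point -/
theorem cyc_regular {K : Set ℂ}
    (hloc : ∀ p ∈ K, IsRegPt K p ∨ ∃ (n : ℕ) (δ : ℝ) (σ : Fin n → ℝ → ℂ), IsStar K p n δ σ)
    {c : ℝ → ℂ} {T : ℝ} (hT : 0 < T) (hcc : Continuous c) (hper : ∀ t, c (t + T) = c t)
    (hinj : InjOn c (Ico 0 T)) (hcK : range c ⊆ K) : ∃ t₀, IsRegPt K (c t₀) := by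
  by_cases h0 : IsRegPt K (c 0)
  · exact ⟨0, h0⟩
  obtain ⟨n, δ, σ, hs⟩ := (hloc _ (hcK ⟨0, rfl⟩)).resolve_left h0
  have h1 : ∀ᶠ t in 𝓝 (0 : ℝ), ‖c t - c 0‖ < δ := by
    have h2 : Tendsto (fun t => ‖c t - c 0‖) (𝓝 0) (𝓝 0) := by
      have h3 : Continuous (fun t => ‖c t - c 0‖) := (hcc.sub continuous_const).norm
      have := h3.tendsto 0
      simpa using this
    exact h2.eventually (gt_mem_nhds hs.pos)
  obtain ⟨η, hη, hball⟩ := Metric.eventually_nhds_iff.1 h1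
  obtain ⟨t, ht0, ht1⟩ := exists_between (lt_min hη hT)
  refine ⟨t, hs.reg _ (hcK ⟨t, rfl⟩) ?_ (hball ?_)⟩
  · rw [norm_pos_iff, sub_ne_zero]
    intro he
    have := cyc_inj hT hper hinj he (by
      rw [sub_zero, abs_of_pos ht0]
      exact ht1.trans_le (min_le_right _ _))
    linarith
  · rw [Real.dist_eq, sub_zero, abs_of_pos ht0]
    exact ht1.trans_le (min_le_left _ _)

/-- near a regular point `K` is contained in the closed curve -/
theorem cyc_open {K : Set ℂ} {c : ℝ → ℂ} {T : ℝ} (hT : 0 < T) (hcc : Continuous c)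
    (hper : ∀ t, c (t + T) = c t) (hinj : InjOn c (Ico 0 T)) (hcK : range c ⊆ K) {t₀ : ℝ}
    (hreg : IsRegPt K (c t₀)) : ∃ U ∈ 𝓝 (c t₀), K ∩ U ⊆ range c := by
  obtain ⟨δ, σ, D, hch⟩ := ga_chart hreg
  have hδ := hch.pos
  obtain ⟨U₀, hU₀, hsmall⟩ := hch.small (δ / 2) (by linarith)
  have h1 : ∀ᶠ t in 𝓝 t₀, c t ∈ U₀ ∩ D :=
    hcc.continuousAt.eventually (inter_mem hU₀ (hch.isOpen.mem_nhds hch.mem))
  obtain ⟨η₀, hη₀, hball⟩ := Metric.eventually_nhds_iff.1 h1
  obtain ⟨η, hη0, hη1⟩ := exists_between (lt_min hη₀ (half_pos hT))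
  have hηη : η < η₀ := hη1.trans_le (min_le_left _ _)
  have hηT : η < T / 2 := hη1.trans_le (min_le_right _ _)
  -- the parameter in the chart
  have h2 : ∀ t ∈ Icc (t₀ - η) (t₀ + η), ∃ x ∈ Icc (-(δ / 2)) (δ / 2), c t = σ x := by
    intro t ht
    have h3 := hball (y := t) (by
      rw [Real.dist_eq, abs_lt]
      constructor <;> linarith [ht.1, ht.2])
    have h4 : c t ∈ K ∩ D := ⟨hcK ⟨t, rfl⟩, h3.2⟩
    rw [← hch.image] at h4
    obtain ⟨x, hx, hxt⟩ := h4
    have h5 := hsmall x hx (by rw [hxt]; exact h3.1)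
    rw [abs_lt] at h5
    exact ⟨x, ⟨h5.1.le, h5.2.le⟩, hxt.symm⟩
  choose! g hg1 hg2 using h2
  set J := Icc (t₀ - η) (t₀ + η) with hJ
  have hsubδ : Icc (-(δ / 2)) (δ / 2) ⊆ Ioo (-δ) δ := fun x hx =>
    ⟨by linarith [hx.1], by linarith [hx.2]⟩
  -- continuity
  have hgc : ContinuousOn g J := by
    have hemb : IsClosedEmbedding (fun x : Icc (-(δ / 2)) (δ / 2) => σ x) := by
      refine Continuous.isClosedEmbedding ?_ ?_
      · exact (hch.diff.continuousOn.mono hsubδ).domRestrict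
      · intro x y hxy
        exact Subtype.ext (hch.inj (hsubδ x.2) (hsubδ y.2) hxy)
    rw [continuousOn_iff_continuous_domRestrict]
    have h3 : Continuous (fun t : J => (⟨g t, hg1 t t.2⟩ : Icc (-(δ / 2)) (δ / 2))) := by
      rw [hemb.isInducing.continuous_iff]
      have h4 : ((fun x : Icc (-(δ / 2)) (δ / 2) => σ x) ∘
          (fun t : J => (⟨g t, hg1 t t.2⟩ : Icc (-(δ / 2)) (δ / 2)))) = fun t : J => c t := by
        funext t
        exact (hg2 t t.2).symm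
      rw [h4]
      exact hcc.comp continuous_subtype_val
    exact continuous_subtype_val.comp h3
  have hgi : InjOn g J := by
    intro s hs t ht hst
    refine cyc_inj hT hper hinj (s := s) (t := t) ?_ ?_
    · rw [hg2 s hs, hg2 t ht, hst]
    · rw [abs_lt]
      constructor <;> linarith [hs.1, hs.2, ht.1, ht.2]
  have ht₀J : t₀ ∈ J := ⟨by linarith, by linarith⟩
  have hlJ : t₀ - η ∈ J := ⟨le_refl _, by linarith⟩
  have hrJ : t₀ + η ∈ J := ⟨by linarith, le_refl _⟩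
  have hg0 : g t₀ = 0 := by
    refine hch.inj (hsubδ (hg1 t₀ ht₀J)) ⟨by linarith, hδ⟩ ?_
    rw [← hg2 t₀ ht₀J, hch.zero]
  -- the image contains a neighbourhood of `0`
  obtain ⟨ε, hε, hsub⟩ : ∃ ε > 0, Icc (-ε) ε ⊆ g '' J := by
    rcases hgc.strictMonoOn_of_injOn_Icc' (by linarith) hgi with hm | hm
    · have h3 : g (t₀ - η) < 0 := by
        rw [← hg0]
        exact hm hlJ ht₀J (by linarith)
      have h4 : 0 < g (t₀ + η) := by
        rw [← hg0]
        exact hm ht₀J hrJ (by linarith)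
      refine ⟨min (-g (t₀ - η)) (g (t₀ + η)), lt_min (by linarith) h4, ?_⟩
      refine Subset.trans ?_ (intermediate_value_Icc (by linarith) hgc)
      intro x hx
      have h5 := min_le_left (-g (t₀ - η)) (g (t₀ + η))
      have h6 := min_le_right (-g (t₀ - η)) (g (t₀ + η))
      exact ⟨by linarith [hx.1], by linarith [hx.2]⟩
    · have h3 : 0 < g (t₀ - η) := by
        rw [← hg0]
        exact hm hlJ ht₀J (by linarith)
      have h4 : g (t₀ + η) < 0 := by
        rw [← hg0]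
        exact hm ht₀J hrJ (by linarith)
      refine ⟨min (g (t₀ - η)) (-g (t₀ + η)), lt_min h3 (by linarith), ?_⟩
      refine Subset.trans ?_ (intermediate_value_Icc' (by linarith) hgc)
      intro x hx
      have h5 := min_le_left (g (t₀ - η)) (-g (t₀ + η))
      have h6 := min_le_right (g (t₀ - η)) (-g (t₀ + η))
      exact ⟨by linarith [hx.1], by linarith [hx.2]⟩
  obtain ⟨U₁, hU₁, hsmall₁⟩ := hch.small ε hε
  refine ⟨U₁ ∩ D, inter_mem hU₁ (hch.isOpen.mem_nhds hch.mem), ?_⟩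
  rintro z ⟨hzK, hzU, hzD⟩
  have h3 : z ∈ K ∩ D := ⟨hzK, hzD⟩
  rw [← hch.image] at h3
  obtain ⟨x, hx, rfl⟩ := h3
  have h4 := hsmall₁ x hx hzU
  rw [abs_lt] at h4
  obtain ⟨t, ht, rfl⟩ := hsub ⟨h4.1.le, h4.2.le⟩
  exact ⟨t, hg2 t ht⟩

/-- a simple closed curve in `K` has a bounded complementary component not contained in `Ω` -/
theorem cyc_hole {Ω K J : Set ℂ} {x₀ : ℂ} (hKΩ : K ⊆ Ω) (hN : NoRegion Ω K)
    (hJ : IsCompact J) (hJK : J ⊆ K) (hx : IsRegPt K x₀) (hx₀ : x₀ ∈ J)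
    (hU : ∃ U ∈ 𝓝 x₀, K ∩ U ⊆ J) (hcon : IsPreconnected (J \ {x₀})) :
    ∃ x ∈ Ωᶜ, Bornology.IsBounded (connectedComponentIn Jᶜ x) := by
  obtain ⟨W, hWo, hWne, hWb, hWc, hWf, hWJ⟩ := ga_jordan hJ hJK hx hx₀ hU hcon
  have hnot : ¬ closure W ⊆ Ω := fun h => hN W hWo hWne hWb h (hWf.trans hJK)
  rw [Set.not_subset] at hnot
  obtain ⟨z, hz, hzΩ⟩ := hnot
  refine ⟨z, hzΩ, ?_⟩
  have hzJ : z ∉ J := fun h => hzΩ (hKΩ (hJK h))
  have hzW : z ∈ W := by
    by_contra hzW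
    have : z ∈ frontier W := by
      refine ⟨hz, ?_⟩
      rw [hWo.interior_eq]
      exact hzW
    exact hzJ (hWf this)
  have hpc : IsPreconnected (connectedComponentIn Jᶜ z) := isPreconnected_connectedComponentIn
  have hzc : z ∈ connectedComponentIn Jᶜ z := mem_connectedComponentIn hzJ
  refine hWb.subset ?_
  have hcov : connectedComponentIn Jᶜ z ⊆ W ∪ (closure W)ᶜ := by
    intro v hv
    by_cases hvW : v ∈ W
    · exact Or.inl hvW
    · right
      intro hvc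
      refine connectedComponentIn_subset Jᶜ z hv (hWf ⟨hvc, ?_⟩)
      rw [hWo.interior_eq]
      exact hvW
  refine hpc.subset_left_of_subset_union hWo isClosed_closure.isOpen_compl ?_ hcov
    ⟨z, hzc, hzW⟩
  rw [Set.disjoint_compl_right_iff_subset]
  exact subset_closure

theorem ga_cycles' {Ω K : Set ℂ} (hKΩ : K ⊆ Ω)
    (hloc : ∀ p ∈ K, IsRegPt K p ∨ ∃ (n : ℕ) (δ : ℝ) (σ : Fin n → ℝ → ℂ), IsStar K p n δ σ)
    (hN : NoRegion Ω K) : CyclesSurroundHoles Ω K := by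
  intro c T hT hcc hper hinj hcK
  obtain ⟨t₀, hreg⟩ := cyc_regular hloc hT hcc hper hinj hcK
  have hp : Function.Periodic c T := hper
  have himg : range c = c '' Icc t₀ (t₀ + T) := by
    refine subset_antisymm ?_ (image_subset_range _ _)
    rintro _ ⟨t, rfl⟩
    obtain ⟨y, hy, hyt⟩ := hp.exists_mem_Ico hT t t₀
    exact ⟨y, ⟨hy.1, hy.2.le⟩, hyt.symm⟩
  refine cyc_hole (x₀ := c t₀) hKΩ hN ?_ hcK hreg ⟨t₀, rfl⟩
    (cyc_open hT hcc hper hinj hcK hreg) ?_
  · rw [himg]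
    exact isCompact_Icc.image hcc
  · have : range c \ {c t₀} = c '' Ioo t₀ (t₀ + T) := by
      rw [himg]
      ext z
      constructor
      · rintro ⟨⟨t, ht, rfl⟩, hz⟩
        refine ⟨t, ⟨lt_of_le_of_ne ht.1 ?_, lt_of_le_of_ne ht.2 ?_⟩, rfl⟩
        · rintro rfl
          exact hz rfl
        · rintro rfl
          exact hz (hper t₀)
      · rintro ⟨t, ht, rfl⟩
        refine ⟨⟨t, Ioo_subset_Icc_self ht, rfl⟩, fun he => ?_⟩
        have := cyc_inj hT hper hinj he (by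
          rw [abs_lt]
          constructor <;> linarith [ht.1, ht.2])
        linarith [ht.1]
    rw [this]
    exact isPreconnected_Ioo.image _ hcc.continuousOn

theorem ga_cycles {Ω K : Set ℂ} (hKΩ : K ⊆ Ω)
    (hloc : ∀ p ∈ K, IsRegPt K p ∨ IsTip K p ∨ IsTriple K p) (hN : NoRegion Ω K) :
    CyclesSurroundHoles Ω K := by
  refine ga_cycles' hKΩ (fun p hp => ?_) hN
  rcases hloc p hp with h | ⟨δ, σ, h⟩ | ⟨δ, σ, τ, h, _⟩
  · exact Or.inl h
  · exact Or.inr ⟨1, δ, σ, h⟩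
  · exact Or.inr ⟨3, δ, σ, h⟩

end Pool.Agent.MP099f24
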