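import Mathlib
import Pool.Agent.Lib.MP_099f24_an.GA.Main

/-!
# Global assembly for arbitrary open sets

A relatively closed set with the local structure of a network is the disjoint union of a locally
finite set of vertices (tips and triple points), of open arcs and of closed loops.
-/

namespace Pool.Agent.MP099f24

open MeasureTheory Filter Topology Set Metric
open scoped ENNReal ContDiff

/-- The filter of the end `s` of the interval `(a, b)`: the right end `b` for `s = true`, the left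
end `a` for `s = false`. -/
def endF (a b : ℝ) : Bool → Filter ℝ
  | true => 𝓝[<] b
  | false => 𝓝[>] a

/-- The set `S ⊆ Ω` is a network with the vertices `V`, the open arcs `c i : (a i, b i) → Ω` and the
closed loops `d k : ℝ → Ω` of period `T k`. -/
structure IsNetwork (Ω S V : Set ℂ) {ι κ : Type} (a b : ι → ℝ) (c : ι → ℝ → ℂ) (T : κ → ℝ)
    (d : κ → ℝ → ℂ) : Prop where
  countable_arcs : Countable ι
  countable_loops : Countable κ
  sub : S ⊆ Ω
  /-- the arcs are injective `C¹` curves with non-vanishing derivative over open intervals -/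
  lt : ∀ i, a i < b i
  arc_diff : ∀ i, ContDiffOn ℝ 1 (c i) (Ioo (a i) (b i))
  arc_deriv : ∀ i, ∀ t ∈ Ioo (a i) (b i), deriv (c i) t ≠ 0
  arc_inj : ∀ i, InjOn (c i) (Ioo (a i) (b i))
  /-- the loops are simple closed `C¹` curves with non-vanishing derivative -/
  T_pos : ∀ k, 0 < T k
  loop_diff : ∀ k, ContDiff ℝ 1 (d k)
  loop_deriv : ∀ k t, deriv (d k) t ≠ 0
  loop_period : ∀ k t, d k (t + T k) = d k t
  loop_inj : ∀ k, InjOn (d k) (Ico 0 (T k))
  /-- vertices, arcs and loops are pairwise disjoint and cover `S` -/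
  disj_arc : ∀ i j, i ≠ j → Disjoint (c i '' Ioo (a i) (b i)) (c j '' Ioo (a j) (b j))
  disj_loop : ∀ k l, k ≠ l → Disjoint (range (d k)) (range (d l))
  disj_arc_loop : ∀ i k, Disjoint (c i '' Ioo (a i) (b i)) (range (d k))
  disj_vertex_arc : ∀ i, Disjoint V (c i '' Ioo (a i) (b i))
  disj_vertex_loop : ∀ k, Disjoint V (range (d k))
  union : S = V ∪ (⋃ i, c i '' Ioo (a i) (b i)) ∪ ⋃ k, range (d k)
  /-- (c1) local finiteness -/
  locFinite : ∀ M, IsCompact M → M ⊆ Ω → (V ∩ M).Finite ∧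
    {i | (c i '' Ioo (a i) (b i) ∩ M).Nonempty}.Finite ∧ {k | (range (d k) ∩ M).Nonempty}.Finite
  /-- each end of each arc leaves every compact subset of `Ω` or converges to a vertex -/
  ends : ∀ i s, (∀ M, IsCompact M → M ⊆ Ω → ∀ᶠ t in endF (a i) (b i) s, c i t ∉ M) ∨
    ∃ p ∈ V, Tendsto (c i) (endF (a i) (b i) s) (𝓝 p)
  /-- (c2) a vertex is the limit of exactly one end, or of exactly three ends, which form equal
  angles `2π/3` -/
  vertex : ∀ p ∈ V,
    {e : ι × Bool | Tendsto (c e.1) (endF (a e.1) (b e.1) e.2) (𝓝 p)}.encard = 1 ∨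
    ({e : ι × Bool | Tendsto (c e.1) (endF (a e.1) (b e.1) e.2) (𝓝 p)}.encard = 3 ∧
      ∃ τ : ι × Bool → ℂ, (∀ e : ι × Bool, Tendsto (c e.1) (endF (a e.1) (b e.1) e.2) (𝓝 p) →
        Tendsto (fun t => (‖c e.1 t - p‖⁻¹ : ℝ) • (c e.1 t - p)) (endF (a e.1) (b e.1) e.2)
          (𝓝 (τ e))) ∧
      ∀ e f : ι × Bool, Tendsto (c e.1) (endF (a e.1) (b e.1) e.2) (𝓝 p) →
        Tendsto (c f.1) (endF (a f.1) (b f.1) f.2) (𝓝 p) → e ≠ f →
        InnerProductGeometry.angle (τ e) (τ f) = 2 * Real.pi / 3)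

/-- each component of the set of regular points is an open arc or a closed loop -/
theorem gagen_dich {K : Set ℂ} (i : RComp K) :
    (∃ (a b : ℝ) (c : ℝ → ℂ), IsPar K a b c ∧ c '' Ioo a b = i.1) ∨
    ∃ (T : ℝ) (d : ℝ → ℂ), 0 < T ∧ ContDiff ℝ 1 d ∧ (∀ t, deriv d t ≠ 0) ∧
      (∀ t, d (t + T) = d t) ∧ InjOn d (Ico 0 T) ∧ range d = i.1 := by
  obtain ⟨C, p, hp, rfl⟩ := i
  obtain ⟨I, γ, hm, t, ht, htp⟩ := ga_maxc hp
  have hcomp := ga_compo hm ht
  rw [htp] at hcomp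
  rcases hm.dich with hi | ⟨rfl, T, hT, hper, hinj⟩
  · obtain ⟨a, b, c, hc, himg⟩ := ga_par hm hi
    exact Or.inl ⟨a, b, c, hc, himg.trans hcomp.symm⟩
  · refine Or.inr ⟨T, γ, hT, contDiffOn_univ.1 hm.diff, fun t h0 => ?_, hper, hinj, ?_⟩
    · have := hm.speed t (mem_univ t)
      rw [h0, norm_zero] at this
      exact zero_ne_one this
    · rw [← image_univ]
      exact hcomp.symm

/-- the components of the set of regular points are open in `K` -/
theorem gagen_open {K : Set ℂ} {p : ℂ} (h : IsRegPt K p) :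
    ∃ U ∈ 𝓝 p, K ∩ U ⊆ (RComp.mk p h).1 := by
  obtain ⟨I, γ, hm, t, ht, htp⟩ := ga_maxc h
  have hcomp := ga_compo hm ht
  rw [htp] at hcomp
  obtain ⟨U, hU, hsub⟩ := hm.opn t ht 1 one_pos
  rw [htp] at hU
  refine ⟨U, hU, hsub.trans ?_⟩
  change γ '' (I ∩ Ioo (t - 1) (t + 1)) ⊆ connectedComponentIn {z | IsRegPt K z} p
  rw [hcomp]
  exact image_mono inter_subset_left

/-- the image of a loop is compact -/
theorem gagen_loop_compact {T : ℝ} {d : ℝ → ℂ} (hT : 0 < T) (hd : Continuous d)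
    (hper : ∀ t, d (t + T) = d t) : IsCompact (range d) := by
  have hp : Function.Periodic d T := hper
  have : range d = d '' Icc 0 T := by
    refine subset_antisymm ?_ (image_subset_range _ _)
    rintro _ ⟨t, rfl⟩
    obtain ⟨s, hs, hst⟩ := hp.exists_mem_Ico₀ hT t
    exact ⟨s, Ico_subset_Icc_self hs, hst.symm⟩
  rw [this]
  exact isCompact_Icc.image hd

theorem gagen_attach {K : Set ℂ} {a b : ℝ} {c : ℝ → ℂ} (h : IsPar K a b c) {q : ℂ} {n : ℕ}
    {δ : ℝ} {σ : Fin n → ℝ → ℂ} (hs : IsStar K q n δ σ) (hq : ¬ IsRegPt K q) {s : Bool}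
    (ht : Tendsto c (endF a b s) (𝓝 q)) :
    ∃ k, ∀ᶠ t in endF a b s, t ∈ Ioo a b ∧ 0 < ‖c t - q‖ ∧ ‖c t - q‖ < δ ∧
      c t = σ k ‖c t - q‖ := by
  cases s with
  | true =>
    obtain ⟨k, t₀, ht₀, hatt⟩ := ga_attach h hs hq ht
    refine ⟨k, ?_⟩
    change ∀ᶠ t in 𝓝[<] b, _
    filter_upwards [Ioo_mem_nhdsLT ht₀.2] with t ht
    exact ⟨⟨ht₀.1.trans ht.1, ht.2⟩, hatt t ht⟩
  | false =>
    have h1 : Tendsto (fun t : ℝ => -t) (𝓝[<] (-a)) (𝓝[>] a) := by
      have := tendsto_neg_right (a := -a)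
      rwa [neg_neg] at this
    have ht₁ : Tendsto c (𝓝[>] a) (𝓝 q) := ht
    have ht' : Tendsto (fun t => c (-t)) (𝓝[<] (-a)) (𝓝 q) := ht₁.comp h1
    obtain ⟨k, t₀, ht₀, hatt⟩ := ga_attach h.rev hs hq ht'
    refine ⟨k, ?_⟩
    change ∀ᶠ t in 𝓝[>] a, _
    have h2 : a < -t₀ := by linarith [ht₀.2]
    filter_upwards [Ioo_mem_nhdsGT h2] with t ht
    have h3 := hatt (-t) ⟨by linarith [ht.2], by linarith [ht.1]⟩
    simp only [neg_neg] at h3
    exact ⟨⟨ht.1, by linarith [ht.2, ht₀.1]⟩, h3⟩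

theorem gagen_branch {Ω K : Set ℂ} (hΩ : IsOpen Ω) (hc : IsClosed (K ∪ Ωᶜ)) (hKΩ : K ⊆ Ω)
    (hloc : ∀ p ∈ K, IsRegPt K p ∨ ∃ (n : ℕ) (δ : ℝ) (σ : Fin n → ℝ → ℂ), IsStar K p n δ σ)
    {a b : ℝ} {c : ℝ → ℂ} (h : IsPar K a b c) {q : ℂ} {n : ℕ} {δ : ℝ}
    {σ : Fin n → ℝ → ℂ} (hqK : q ∈ K) (hs : IsStar K q n δ σ) (hq : ¬ IsRegPt K q) {k : Fin n}
    (hk : σ k '' Ioo 0 δ ⊆ c '' Ioo a b) :
    ∃ s, Tendsto c (endF a b s) (𝓝 q) ∧ ∀ᶠ t in endF a b s, t ∈ Ioo a b ∧ 0 < ‖c t - q‖ ∧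
      ‖c t - q‖ < δ ∧ c t = σ k ‖c t - q‖ := by
  rcases ga_branch hΩ hc hKΩ hloc h hqK hs hq hk with ⟨hten, t₀, ht₀, hatt⟩ | ⟨hten, t₀, ht₀, hatt⟩
  · refine ⟨true, hten, ?_⟩
    change ∀ᶠ t in 𝓝[<] b, _
    filter_upwards [Ioo_mem_nhdsLT ht₀.2] with t ht
    exact ⟨⟨ht₀.1.trans ht.1, ht.2⟩, hatt t ht⟩
  · refine ⟨false, hten, ?_⟩
    change ∀ᶠ t in 𝓝[>] a, _
    filter_upwards [Ioo_mem_nhdsGT ht₀.1] with t ht
    exact ⟨⟨ht.1, ht.2.trans ht₀.2⟩, hatt t ht⟩

theorem gagen_endF_neBot {a b : ℝ} (s : Bool) : (endF a b s).NeBot := by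
  cases s with
  | true => exact inferInstanceAs (𝓝[<] b).NeBot
  | false => exact inferInstanceAs (𝓝[>] a).NeBot

/-- the two ends of an arc cannot be attached to the same branch -/
theorem gagen_unique {K : Set ℂ} {a b : ℝ} {c : ℝ → ℂ} (h : IsPar K a b c) {q : ℂ}
    {δ : ℝ} {σ : ℝ → ℂ} {s s' : Bool} (ht : Tendsto c (endF a b s) (𝓝 q))
    (ht' : Tendsto c (endF a b s') (𝓝 q))
    (h0 : ∀ᶠ t in endF a b s, t ∈ Ioo a b ∧ 0 < ‖c t - q‖ ∧ ‖c t - q‖ < δ ∧ c t = σ ‖c t - q‖)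
    (h1 : ∀ᶠ t in endF a b s', t ∈ Ioo a b ∧ 0 < ‖c t - q‖ ∧ ‖c t - q‖ < δ ∧
      c t = σ ‖c t - q‖) : s = s' := by
  have key : ∀ (_ : Tendsto c (𝓝[<] b) (𝓝 q)) (_ : Tendsto c (𝓝[>] a) (𝓝 q))
      (_ : ∀ᶠ t in 𝓝[<] b, t ∈ Ioo a b ∧ 0 < ‖c t - q‖ ∧ ‖c t - q‖ < δ ∧ c t = σ ‖c t - q‖)
      (_ : ∀ᶠ t in 𝓝[>] a, t ∈ Ioo a b ∧ 0 < ‖c t - q‖ ∧ ‖c t - q‖ < δ ∧ c t = σ ‖c t - q‖),
      False := by
    intro hr hl hr1 hl1
    obtain ⟨t₁, ht₁, hsub₁⟩ := (mem_nhdsLT_iff_exists_Ioo_subset).1 hr1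
    obtain ⟨t₂, ht₂, hsub₂⟩ := (mem_nhdsGT_iff_exists_Ioo_subset).1 hl1
    have hab := h.lt
    have ht₁' : t₁ < b := ht₁
    have ht₂' : a < t₂ := ht₂
    refine ga_attach_unique (δ := δ) (σ := σ) h (t₀ := max t₁ ((a + b) / 2))
      (t₁ := min t₂ ((a + b) / 2)) ⟨?_, ?_⟩ ⟨?_, ?_⟩ hr hl ?_ ?_
    · exact lt_of_lt_of_le (by linarith) (le_max_right _ _)
    · exact max_lt ht₁' (by linarith)
    · exact lt_min ht₂' (by linarith)
    · exact lt_of_le_of_lt (min_le_right _ _) (by linarith)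
    · intro t ht
      exact (hsub₁ ⟨(le_max_left _ _).trans_lt ht.1, ht.2⟩).2
    · intro t ht
      exact (hsub₂ ⟨ht.1, ht.2.trans_le (min_le_left _ _)⟩).2
  cases s <;> cases s'
  · rfl
  · exact (key ht' ht h1 h0).elim
  · exact (key ht ht' h0 h1).elim
  · rfl

/-- **Global assembly for arbitrary open sets.** -/
theorem ga_general {Ω K : Set ℂ} (hΩ : IsOpen Ω) (hKΩ : K ⊆ Ω) (hc : IsClosed (K ∪ Ωᶜ))
    (hloc : ∀ p ∈ K, IsRegPt K p ∨ IsTip K p ∨ IsTriple K p) :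
    ∃ (ι κ : Type) (a b : ι → ℝ) (c : ι → ℝ → ℂ) (T : κ → ℝ) (d : κ → ℝ → ℂ) (V : Set ℂ),
      IsNetwork Ω K V a b c T d := by
  have hloc' : ∀ p ∈ K, IsRegPt K p ∨ ∃ (n : ℕ) (δ : ℝ) (σ : Fin n → ℝ → ℂ), IsStar K p n δ σ := by
    intro p hp
    rcases hloc p hp with h | ⟨δ, σ, h⟩ | ⟨δ, σ, τ, h, _⟩
    · exact Or.inl h
    · exact Or.inr ⟨1, δ, σ, h⟩
    · exact Or.inr ⟨3, δ, σ, h⟩
  set V : Set ℂ := {p | p ∈ K ∧ ¬ IsRegPt K p} with hV
  let P : RComp K → Prop := fun i => ∃ (a b : ℝ) (c : ℝ → ℂ), IsPar K a b c ∧ c '' Ioo a b = i.1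
  have hexP : ∀ i : {i : RComp K // P i}, ∃ (a b : ℝ) (c : ℝ → ℂ), IsPar K a b c ∧
      c '' Ioo a b = i.1.1 := fun i => i.2
  choose a b c hpar himg using hexP
  have hexL : ∀ i : {i : RComp K // ¬ P i}, ∃ (T : ℝ) (d : ℝ → ℂ), 0 < T ∧ ContDiff ℝ 1 d ∧
      (∀ t, deriv d t ≠ 0) ∧ (∀ t, d (t + T) = d t) ∧ InjOn d (Ico 0 T) ∧ range d = i.1.1 :=
    fun i => (gagen_dich i.1).resolve_left i.2
  choose T d hT hdd hdd' hdper hdinj hdimg using hexL
  -- the components are pairwise disjoint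
  have hdisj : ∀ i k : RComp K, i ≠ k → Disjoint i.1 k.1 := fun i k hik =>
    Set.disjoint_left.2 fun z hz1 hz2 => hik (RComp.eq_of_mem hz1 hz2)
  have hVd : ∀ i : RComp K, Disjoint V i.1 := fun i =>
    Set.disjoint_left.2 fun z hz1 hz2 => hz1.2 (RComp.reg hz2)
  have hiK : ∀ i : RComp K, i.1 ⊆ K := fun i z hz => (RComp.reg hz).mem
  -- local finiteness
  have hlocfin : ∀ M : Set ℂ, IsCompact M → M ⊆ Ω →
      (V ∩ M).Finite ∧ {i : RComp K | (i.1 ∩ M).Nonempty}.Finite := by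
    intro M hM hMΩ
    refine hM.induction_on (p := fun M => (V ∩ M).Finite ∧
      {i : RComp K | (i.1 ∩ M).Nonempty}.Finite) ?_ ?_ ?_ ?_
    · simp
    · intro s t hst ht
      exact ⟨ht.1.subset (inter_subset_inter_right _ hst),
        ht.2.subset (fun i hi => hi.mono (inter_subset_inter_right _ hst))⟩
    · intro s t hs ht
      refine ⟨(hs.1.union ht.1).subset (by rw [inter_union_distrib_left]),
        (hs.2.union ht.2).subset (fun i hi => ?_)⟩
      obtain ⟨z, hz1, hz2 | hz2⟩ := hi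
      · exact Or.inl ⟨z, hz1, hz2⟩
      · exact Or.inr ⟨z, hz1, hz2⟩
    · intro x hx
      have hxΩ := hMΩ hx
      by_cases hxK : x ∈ K
      · by_cases hreg : IsRegPt K x
        · obtain ⟨U, hU, hsub⟩ := gagen_open hreg
          refine ⟨U, mem_nhdsWithin_of_mem_nhds hU, Set.finite_empty.subset ?_,
            (Set.finite_singleton (RComp.mk x hreg)).subset ?_⟩
          · rintro z ⟨hz1, hz2⟩
            exact hz1.2 (RComp.reg (hsub ⟨hz1.1, hz2⟩))
          · rintro i ⟨z, hz1, hz2⟩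
            exact RComp.eq_of_mem hz1 (hsub ⟨hiK i hz1, hz2⟩)
        · obtain ⟨n, δ, σ, hs⟩ := (hloc' x hxK).resolve_left hreg
          refine ⟨ball x δ, mem_nhdsWithin_of_mem_nhds (ball_mem_nhds x hs.pos),
            (Set.finite_singleton x).subset ?_,
            (Set.finite_range (fun k => bcomp hs k)).subset ?_⟩
          · rintro z ⟨hz1, hz2⟩
            by_contra hne
            refine hz1.2 (hs.reg z hz1.1 ?_ ?_)
            · rw [norm_pos_iff, sub_ne_zero]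
              exact hne
            · rwa [mem_ball, dist_eq_norm] at hz2
          · rintro i ⟨z, hz1, hz2⟩
            have hzr : IsRegPt K z := RComp.reg hz1
            have hne : z ≠ x := fun he => hreg (he ▸ hzr)
            have hz0 : 0 < ‖z - x‖ := by
              rw [norm_pos_iff, sub_ne_zero]
              exact hne
            have hz3 : ‖z - x‖ < δ := by
              rwa [mem_ball, dist_eq_norm] at hz2
            obtain ⟨k, hk⟩ := (hs.mem_iff z hz0 hz3).1 (hiK i hz1)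
            exact ⟨k, (eq_bcomp hs k ⟨‖z - x‖, ⟨hz0, hz3⟩, hk.symm⟩ hz1).symm⟩
      · refine ⟨(K ∪ Ωᶜ)ᶜ, mem_nhdsWithin_of_mem_nhds (hc.isOpen_compl.mem_nhds ?_),
          Set.finite_empty.subset ?_, Set.finite_empty.subset ?_⟩
        · rintro (h | h)
          · exact hxK h
          · exact h hxΩ
        · rintro z ⟨hz1, hz2⟩
          exact hz2 (Or.inl hz1.1)
        · rintro i ⟨z, hz1, hz2⟩
          exact hz2 (Or.inl (hiK i hz1))
  have hcountable : Countable (RComp K) := by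
    obtain ⟨F, hF1, hF2, hF3⟩ : ∃ F : ℕ → Set ℂ, (∀ n, IsClosed (F n)) ∧ (∀ n, F n ⊆ Ω) ∧
        (⋃ n, F n) = Ω := by
      obtain ⟨F, h1, h2, h3, _⟩ := hΩ.exists_iUnion_isClosed
      exact ⟨F, h1, h2, h3⟩
    rw [← Set.countable_univ_iff]
    have : (univ : Set (RComp K)) ⊆ ⋃ n : ℕ, ⋃ m : ℕ, {i : RComp K |
        (i.1 ∩ (F n ∩ closedBall 0 m)).Nonempty} := by
      intro i _
      obtain ⟨C, p, hp, rfl⟩ := i
      have hpC : p ∈ connectedComponentIn {z | IsRegPt K z} p := mem_connectedComponentIn hp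
      have hpΩ : p ∈ ⋃ n, F n := by
        rw [hF3]
        exact hKΩ hp.mem
      obtain ⟨n, hn⟩ := mem_iUnion.1 hpΩ
      obtain ⟨m, hm⟩ := exists_nat_ge ‖p‖
      exact mem_iUnion.2 ⟨n, mem_iUnion.2 ⟨m, p, hpC, hn, by simpa using hm⟩⟩
    refine Set.Countable.mono this ?_
    refine Set.countable_iUnion (fun n => Set.countable_iUnion (fun m => Set.Finite.countable ?_))
    exact (hlocfin _ ((isCompact_closedBall 0 (m : ℝ)).inter_left (hF1 n))
      (inter_subset_left.trans (hF2 n))).2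
  -- the branches at a vertex belong to arcs
  have hbP : ∀ {p : ℂ} {n : ℕ} {δ : ℝ} {σ : Fin n → ℝ → ℂ} (hs : IsStar K p n δ σ) (k : Fin n),
      ¬ IsRegPt K p → P (bcomp hs k) := by
    intro p n δ σ hs k hpr
    by_contra hnP
    set i : {i : RComp K // ¬ P i} := ⟨bcomp hs k, hnP⟩ with hi
    have hcl : IsClosed (bcomp hs k).1 := by
      have := (gagen_loop_compact (hT i) (hdd i).continuous (hdper i)).isClosed
      rwa [hdimg i] at this
    have hσ : Tendsto (σ k) (𝓝[>] 0) (𝓝 p) := by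
      rw [tendsto_iff_norm_sub_tendsto_zero]
      have h1 : Tendsto (fun s : ℝ => s) (𝓝[>] 0) (𝓝 0) := tendsto_id.mono_left nhdsWithin_le_nhds
      refine h1.congr' ?_
      filter_upwards [Ioo_mem_nhdsGT hs.pos] with s hs' using (hs.norm_sub k s hs').symm
    have hmem : p ∈ (bcomp hs k).1 := by
      refine hcl.mem_of_tendsto hσ ?_
      filter_upwards [Ioo_mem_nhdsGT hs.pos] with s hs'
      exact bcomp_subset hs k (mem_image_of_mem _ hs')
    exact hpr (RComp.reg hmem)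
  -- the ends at a vertex correspond to the branches
  have hvert : ∀ {p : ℂ} {n : ℕ} {δ : ℝ} {σ : Fin n → ℝ → ℂ} (_ : IsStar K p n δ σ), p ∈ K →
      ¬ IsRegPt K p → ∃ f : Fin n → {i : RComp K // P i} × Bool, Function.Injective f ∧
        (∀ e : {i : RComp K // P i} × Bool,
          Tendsto (c e.1) (endF (a e.1) (b e.1) e.2) (𝓝 p) ↔ ∃ k, f k = e) ∧
        ∀ k, ∀ᶠ t in endF (a (f k).1) (b (f k).1) (f k).2, 0 < ‖c (f k).1 t - p‖ ∧
          ‖c (f k).1 t - p‖ < δ ∧ c (f k).1 t = σ k ‖c (f k).1 t - p‖ := by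
    intro p n δ σ hs hpK hpr
    have hb : ∀ k : Fin n, ∃ s : Bool, Tendsto (c ⟨bcomp hs k, hbP hs k hpr⟩)
        (endF (a ⟨bcomp hs k, hbP hs k hpr⟩) (b ⟨bcomp hs k, hbP hs k hpr⟩) s) (𝓝 p) ∧
        ∀ᶠ t in endF (a ⟨bcomp hs k, hbP hs k hpr⟩) (b ⟨bcomp hs k, hbP hs k hpr⟩) s,
          t ∈ Ioo (a ⟨bcomp hs k, hbP hs k hpr⟩) (b ⟨bcomp hs k, hbP hs k hpr⟩) ∧
          0 < ‖c ⟨bcomp hs k, hbP hs k hpr⟩ t - p‖ ∧ ‖c ⟨bcomp hs k, hbP hs k hpr⟩ t - p‖ < δ ∧
          c ⟨bcomp hs k, hbP hs k hpr⟩ t = σ k ‖c ⟨bcomp hs k, hbP hs k hpr⟩ t - p‖ := by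
      intro k
      refine gagen_branch hΩ hc hKΩ hloc' (hpar _) hpK hs hpr ?_
      rw [himg]
      exact bcomp_subset hs k
    choose s hs1 hs2 using hb
    refine ⟨fun k => (⟨bcomp hs k, hbP hs k hpr⟩, s k), ?_, ?_, ?_⟩
    · intro k l hkl
      have h1 : (⟨bcomp hs k, hbP hs k hpr⟩ : {i : RComp K // P i}) =
        ⟨bcomp hs l, hbP hs l hpr⟩ := congrArg Prod.fst hkl
      have h2 : s k = s l := congrArg Prod.snd hkl
      have h3 := hs2 k
      have h4 := hs2 l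
      rw [← h1, ← h2] at h4
      have := gagen_endF_neBot (a := a ⟨bcomp hs k, hbP hs k hpr⟩)
        (b := b ⟨bcomp hs k, hbP hs k hpr⟩) (s k)
      obtain ⟨t, ⟨-, ht1, ht2, ht3⟩, -, -, -, ht4⟩ := (h3.and h4).exists
      exact hs.inj k l _ ⟨ht1, ht2⟩ (ht3.symm.trans ht4)
    · rintro ⟨i, s'⟩
      constructor
      · intro hten
        obtain ⟨k, hk⟩ := gagen_attach (hpar i) hs hpr hten
        refine ⟨k, ?_⟩
        have := gagen_endF_neBot (a := a i) (b := b i) s'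
        obtain ⟨t, ht0, ht1, ht2, ht3⟩ := hk.exists
        have hi : i.1 = bcomp hs k := by
          refine eq_bcomp hs k (z := c i t) ⟨‖c i t - p‖, ⟨ht1, ht2⟩, ht3.symm⟩ ?_
          rw [← himg i]
          exact mem_image_of_mem _ ht0
        have hi' : i = ⟨bcomp hs k, hbP hs k hpr⟩ := Subtype.ext hi
        subst hi'
        have := gagen_unique (hpar _) (hs1 k) hten (hs2 k) hk
        exact Prod.ext rfl this
      · rintro ⟨k, hk⟩
        rw [← hk]
        exact hs1 k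
    · intro k
      filter_upwards [hs2 k] with t ht using ht.2
  have := hcountable
  refine ⟨{i : RComp K // P i}, {i : RComp K // ¬ P i}, a, b, c, T, d, V, inferInstance,
    inferInstance, hKΩ, fun i => (hpar i).lt, fun i => (hpar i).diff, fun i => (hpar i).deriv_ne,
    fun i => (hpar i).inj, hT, hdd, hdd', hdper, hdinj, ?_, ?_, ?_, ?_, ?_, ?_, ?_, ?_, ?_⟩
  · intro i j hij
    rw [himg, himg]
    exact hdisj _ _ fun he => hij (Subtype.ext he)
  · intro i j hij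
    rw [hdimg, hdimg]
    exact hdisj _ _ fun he => hij (Subtype.ext he)
  · intro i k
    rw [himg, hdimg]
    exact hdisj _ _ fun he => k.2 (he ▸ i.2)
  · intro i
    rw [himg]
    exact hVd _
  · intro i
    rw [hdimg]
    exact hVd _
  · refine subset_antisymm (fun p hp => ?_) ?_
    · by_cases hreg : IsRegPt K p
      · have h0 : p ∈ (RComp.mk p hreg).1 := RComp.mem_mk p hreg
        by_cases hP : P (RComp.mk p hreg)
        · refine Or.inl (Or.inr (mem_iUnion.2 ⟨⟨_, hP⟩, ?_⟩))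
          rw [himg]
          exact h0
        · refine Or.inr (mem_iUnion.2 ⟨⟨_, hP⟩, ?_⟩)
          rw [hdimg]
          exact h0
      · exact Or.inl (Or.inl ⟨hp, hreg⟩)
    · refine union_subset (union_subset (fun p hp => hp.1) (iUnion_subset fun i => ?_))
        (iUnion_subset fun k => ?_)
      · rw [himg]
        exact hiK _
      · rw [hdimg]
        exact hiK _
  · intro M hM hMΩ
    obtain ⟨h1, h2⟩ := hlocfin M hM hMΩ
    refine ⟨h1, ?_, ?_⟩
    · refine (h2.preimage (f := fun i : {i : RComp K // P i} => i.1)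
        Subtype.val_injective.injOn).subset ?_
      intro i hi
      have hi' : (c i '' Ioo (a i) (b i) ∩ M).Nonempty := hi
      rw [himg] at hi'
      exact hi'
    · refine (h2.preimage (f := fun i : {i : RComp K // ¬ P i} => i.1)
        Subtype.val_injective.injOn).subset ?_
      intro i hi
      have hi' : (range (d i) ∩ M).Nonempty := hi
      rw [hdimg] at hi'
      exact hi'
  · intro i s
    cases s with
    | true =>
      rcases ga_end hc hKΩ hloc' (hpar i) with h | ⟨q, hqK, hqr, hq⟩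
      · left
        intro M hM hMΩ
        obtain ⟨t₀, ht₀, h1⟩ := h M hM hMΩ
        change ∀ᶠ t in 𝓝[<] (b i), _
        filter_upwards [Ioo_mem_nhdsLT ht₀.2] with t ht using h1 t ht
      · exact Or.inr ⟨q, ⟨hqK, hqr⟩, hq⟩
    | false =>
      rcases ga_end hc hKΩ hloc' (hpar i).rev with h | ⟨q, hqK, hqr, hq⟩
      · left
        intro M hM hMΩ
        obtain ⟨t₀, ht₀, h1⟩ := h M hM hMΩ
        change ∀ᶠ t in 𝓝[>] (a i), _
        have h2 : a i < -t₀ := by linarith [ht₀.2]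
        filter_upwards [Ioo_mem_nhdsGT h2] with t ht
        have h3 := h1 (-t) ⟨by linarith [ht.2], by linarith [ht.1]⟩
        simpa using h3
      · refine Or.inr ⟨q, ⟨hqK, hqr⟩, ?_⟩
        have h1 := EndL.rev.1 (⟨hqK, hqr, hq⟩ : EndR K (-(a i)) (fun t => c i (-t)) q)
        exact h1.2.2
  · rintro p ⟨hpK, hpr⟩
    have hcard : ∀ {n : ℕ} (f : Fin n → {i : RComp K // P i} × Bool), Function.Injective f →
        (∀ e : {i : RComp K // P i} × Bool,
          Tendsto (c e.1) (endF (a e.1) (b e.1) e.2) (𝓝 p) ↔ ∃ k, f k = e) →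
        {e : {i : RComp K // P i} × Bool |
          Tendsto (c e.1) (endF (a e.1) (b e.1) e.2) (𝓝 p)}.encard = n := by
      intro n f hf he
      have : {e : {i : RComp K // P i} × Bool |
          Tendsto (c e.1) (endF (a e.1) (b e.1) e.2) (𝓝 p)} = range f := by
        ext e
        exact he e
      rw [this, ← Set.image_univ, hf.encard_image]
      simp
    rcases (hloc p hpK).resolve_left hpr with ⟨δ, σ, hs⟩ | ⟨δ, σ, τ, hs, hτ, hang⟩
    · obtain ⟨f, hf, he, _⟩ := hvert hs hpK hpr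
      left
      have := hcard f hf he
      simpa using this
    · obtain ⟨f, hf, he, hatt⟩ := hvert hs hpK hpr
      right
      refine ⟨by simpa using hcard f hf he, ?_⟩
      classical
      refine ⟨fun e => if h : ∃ k, f k = e then τ h.choose else 0, ?_, ?_⟩
      · intro e hten
        have hex := (he e).1 hten
        simp only [dif_pos hex]
        obtain ⟨k, hk⟩ : ∃ k, k = hex.choose := ⟨_, rfl⟩
        have hfk : f k = e := hk ▸ hex.choose_spec
        rw [← hk]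
        subst hfk
        have h0 : Tendsto (fun t => ‖c (f k).1 t - p‖) (endF (a (f k).1) (b (f k).1) (f k).2)
            (𝓝[>] 0) := by
          refine tendsto_nhdsWithin_iff.2 ⟨?_, ?_⟩
          · have := (hten.sub_const p).norm
            simpa using this
          · filter_upwards [hatt k] with t ht using ht.1
        refine ((hτ k).comp h0).congr' ?_
        filter_upwards [hatt k] with t ht
        simp only [Function.comp]
        rw [← ht.2.2]
      · intro e f' h1 h2 hne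
        have hex1 := (he e).1 h1
        have hex2 := (he f').1 h2
        simp only [dif_pos hex1, dif_pos hex2]
        refine hang _ _ fun heq => hne ?_
        rw [← hex1.choose_spec, ← hex2.choose_spec, heq]

end Pool.Agent.MP099f24
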